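import Pool.Agent.Lib.MP_7615ea_nt.Sq.SvB
import Pool.Agent.Lib.MP_7615ea_nt.Sq.SvC
import Pool.Agent.Lib.MP_778b46_nt.Mertens

/-!
Normal order of the congruence number: upper bound sieve and sums over primes.
-/

open Finset Real

namespace Pool.Agent.Lib.MP_143a03_nt.NO

open Pool.Agent.Lib.MP_7615ea_nt.Sq Pool.Agent.Lib.MP_778b46_nt

/-- The sum of the reciprocals. -/
noncomputable def lam (T : Finset ℕ) : ℝ := ∑ p ∈ T, (1 : ℝ) / p

/-- The primes in `(a, b]`. -/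
def pi2 (a b : ℕ) : Finset ℕ := (Nat.primesLE b).filter (a < ·)

theorem mem_pi2 {a b p : ℕ} : p ∈ pi2 a b ↔ p.Prime ∧ a < p ∧ p ≤ b := by
  rw [pi2, mem_filter, Nat.mem_primesLE]; tauto

theorem lam_nonneg (T : Finset ℕ) : 0 ≤ lam T := sum_nonneg fun _ _ => by positivity

theorem lam_mono {T U : Finset ℕ} (h : T ⊆ U) : lam T ≤ lam U :=
  sum_le_sum_of_subset_of_nonneg h fun _ _ _ => by positivity

theorem lam_pi2 {a b : ℕ} (h : a ≤ b) :
    lam (pi2 a b) = lam (Nat.primesLE b) - lam (Nat.primesLE a) := by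
  have : Nat.primesLE a = (Nat.primesLE b).filter (fun p => ¬ a < p) := by
    ext p
    simp only [mem_filter, Nat.mem_primesLE]
    exact ⟨fun h1 => ⟨⟨h1.1.trans h, h1.2⟩, by omega⟩, fun h1 => ⟨by omega, h1.1.2⟩⟩
  rw [this, lam, lam, lam, pi2, eq_sub_iff_add_eq, sum_filter_add_sum_filter_not]

theorem uu_sum {P : Finset ℕ} (hP : ∀ l ∈ P, l.Prime) :
    ∑ l ∈ P, uu l ≤ lam P + 2 ∧ ∑ l ∈ P, uu l ^ 2 ≤ 2 := by
  have h3 : ∑ l ∈ P, uu l ^ 2 ≤ 2 := by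
    simpa using sum_uu_sq_le (P := P) (w := 1) le_rfl fun l hl => (hP l hl).one_lt
  refine ⟨le_trans ?_ (add_le_add_right h3 _), h3⟩
  rw [lam, ← sum_add_distrib]
  refine sum_le_sum fun l hl => ?_
  have h3 := mul_uu (hP l hl)
  have h4 := uu_pos (hP l hl)
  have h5 : (0 : ℝ) < l := by exact_mod_cast (hP l hl).pos
  have h6 : uu l = 1 / l + uu l / l := by field_simp; linarith
  have h7 : uu l / l ≤ uu l ^ 2 := by
    rw [div_le_iff₀ h5]; nlinarith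
  linarith

theorem mertens : ∃ C : ℝ, 0 ≤ C ∧ ∀ n : ℕ, 2 ≤ n →
    |lam (Nat.primesLE n) - log (log n)| ≤ C := by
  obtain ⟨C, hC⟩ := sum_inv_le
  refine ⟨max C 2, le_max_of_le_right (by norm_num), fun n hn => abs_le.2 ⟨?_, ?_⟩⟩
  · have hp : ∀ l ∈ Nat.primesLE n, l.Prime := fun l hl => Nat.prime_of_mem_primesLE hl
    have h1 := log_le_gg_mul (Nat.primesLE n) ∅ n hp (by simp)
      fun l h1 h2 => Or.inl (Nat.mem_primesLE.2 ⟨h2, h1⟩)
    have h2 : gg ∅ n ≤ 1 := by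
      refine (sum_le_sum_of_subset_of_nonneg (filter_subset _ _) fun S hS _ => ?_).trans (by simp)
      simp at hS; simp [hS]
    have h3 : mert (Nat.primesLE n) ≤ exp (∑ l ∈ Nat.primesLE n, uu l) := by
      rw [exp_sum, mert]
      refine prod_le_prod (fun l hl => by linarith [uu_pos (hp l hl)]) fun l _ => ?_
      linarith [add_one_le_exp (uu l)]
    have hn0 : (1 : ℝ) < n := by exact_mod_cast hn
    have h4 : log n ≤ log (n + 1) := log_le_log (by linarith) (by linarith)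
    have h5 := one_le_mert hp
    have h6 : log n ≤ exp (∑ l ∈ Nat.primesLE n, uu l) := by nlinarith
    have h7 := (log_le_iff_le_exp (log_pos hn0)).2 h6
    linarith [(uu_sum hp).1, le_max_right C 2]
  · have := hC n hn
    rw [lam]; linarith [le_max_left C 2]

theorem prod_ge {P : Finset ℕ} {g : ℕ → ℝ} (h : ∀ l ∈ P, 0 ≤ g l ∧ g l ≤ 1 / 2) :
    exp (-(∑ l ∈ P, g l + 2 * ∑ l ∈ P, g l ^ 2)) ≤ ∏ l ∈ P, (1 - g l) := by
  rw [mul_sum, ← sum_add_distrib, ← sum_neg_distrib, exp_sum]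
  refine prod_le_prod (fun _ _ => (exp_pos _).le) fun l hl => ?_
  obtain ⟨h0, h1⟩ := h l hl
  have h2 := add_one_le_exp (g l + 2 * g l ^ 2)
  rw [exp_neg, inv_le_iff_one_le_mul₀ (exp_pos _)]
  nlinarith [mul_nonneg (sq_nonneg (g l)) (show 0 ≤ 1 - 2 * g l by linarith)]

theorem sieve {P : Finset ℕ} {j : ℕ → ℕ → ℝ} (h : Per P j)
    (hs : ∀ l ∈ P, 3 ≤ l ∧ gd j l ≤ 1 / 2) {R : ℕ} (hR : 1 < R)
    (hL : ∑ l ∈ P, gd j l * log l ≤ log R / 8) (N : ℕ) (S : Finset ℕ)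
    (hS : ∀ n ∈ S, n < N ∧ ∀ l ∈ P, j l n = 0) :
    (S.card : ℝ) ≤ 2 * N * ∏ l ∈ P, (1 - gd j l) + (R : ℝ) ^ 6 := by
  have hR1 : (1 : ℝ) < R := by exact_mod_cast hR
  have hl := log_pos hR1
  have hh := fun l hl => h.hd_bd (hs l hl).2
  have h1 := (abs_le.1 (sq_bound (P := P) (V := ∅) (by simpa using h) (by simp) hs
    (wt (log R)) N)).2
  simp only [prod_empty, one_mul, mul_one] at h1
  have h2 := lam_bound h.pr R (wt (log R))
    (fun r _ => by rw [abs_of_nonneg (wt_bd hl r).1]; exact (wt_bd hl r).2)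
    fun r hr => wt_supp hR fun l hl => h.pr l (mem_powerset.1 hr hl)
  have h3 := main_lower hl P (hd j) fun l hl => (hh l hl).1
  set G2 := ∑ r ∈ P.powerset, (∏ l ∈ r, hd j l) * wt (log R) r ^ 2
  have hn : ∀ r ∈ P.powerset, 0 ≤ ∏ l ∈ r, hd j l := fun r hr =>
    prod_nonneg fun l hl => (hh l (mem_powerset.1 hr hl)).1
  have h4 : (1 : ℝ) ≤ G2 := by
    refine le_trans (by simp [wt]) (single_le_sum (f := fun r => (∏ l ∈ r, hd j l) *
      wt (log R) r ^ 2) (fun r hr => mul_nonneg (hn r hr) (sq_nonneg _)) (empty_mem_powerset P))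
  have h5 : ∀ n ∈ S, G2 ^ 2 ≤ th j P (wt (log R)) n ^ 2 := fun n hn' => by
    refine pow_le_pow_left₀ (by linarith) (sum_le_sum fun r hr => ?_) 2
    rw [prod_congr rfl (g := hd j) (f := fun l => psi j l n) fun l hl => by
      rw [psi, (hS n hn').2 l (mem_powerset.1 hr hl)]; simp]
    have := wt_bd hl r
    nlinarith [mul_nonneg (mul_nonneg (hn r hr) this.1) (sub_nonneg.2 this.2)]
  have h6 : (S.card : ℝ) * G2 ^ 2 ≤ ∑ n ∈ range N, th j P (wt (log R)) n ^ 2 := by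
    refine le_trans ?_ (sum_le_sum_of_subset_of_nonneg (fun n hn => mem_range.2 (hS n hn).1)
      fun _ _ _ => sq_nonneg _)
    simpa using sum_le_sum h5
  have h7 : ∑ l ∈ P, hd j l * log l ≤ log R / 4 := by
    refine le_trans (sum_le_sum fun l hl => mul_le_mul_of_nonneg_right (hh l hl).2
      (log_natCast_nonneg l)) ?_
    simp only [mul_assoc]
    rw [← mul_sum]; linarith
  have h8 : (∏ l ∈ P, (1 + hd j l)) * ∏ l ∈ P, (1 - gd j l) = 1 := by
    rw [← prod_mul_distrib]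
    refine prod_eq_one fun l hl => ?_
    have : 1 - gd j l ≠ 0 := by linarith [(hs l hl).2]
    rw [hd]; field_simp; ring
  have h9 : 0 ≤ ∏ l ∈ P, (1 - gd j l) := prod_nonneg fun l hl => by linarith [(hs l hl).2]
  have h10 : 0 ≤ ∏ l ∈ P, (1 + hd j l) := prod_nonneg fun l hl => by linarith [(hh l hl).1]
  have h11 : 1 / 2 ≤ 1 - 2 * (∑ l ∈ P, hd j l * log l) / log R := by
    have : 2 * (∑ l ∈ P, hd j l * log l) / log R ≤ 1 / 2 := by
      rw [div_le_iff₀ hl]; linarith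
    linarith
  have h12 : 1 ≤ 2 * G2 * ∏ l ∈ P, (1 - gd j l) := by
    nlinarith [mul_le_mul_of_nonneg_left h11 h10]
  have h13 : (∑ r ∈ P.powerset, |wt (log R) r| * ∏ l ∈ r, (l : ℝ) ^ 2) ^ 2 ≤ (R : ℝ) ^ 6 := by
    refine (pow_le_pow_left₀ (sum_nonneg fun _ _ => by positivity) h2 2).trans (le_of_eq ?_)
    ring
  have hN : (0 : ℝ) ≤ N := Nat.cast_nonneg _
  refine le_of_mul_le_mul_right ?_ (show 0 < G2 ^ 2 by positivity)
  have h14 : (R : ℝ) ^ 6 ≤ R ^ 6 * G2 ^ 2 :=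
    le_mul_of_one_le_right (by positivity) (one_le_pow₀ h4)
  nlinarith [mul_le_mul_of_nonneg_left h12 (mul_nonneg hN (show 0 ≤ G2 by linarith))]

theorem gd_ge {s : Finset (ℕ × ℕ)} {l : ℕ} (hl : l.Prime) (h1 : ∀ f ∈ s, ¬ l ∣ f.1)
    (h2 : ∀ f ∈ s, ∀ g ∈ s, (l : ℤ) ∣ f.1 * g.2 - g.1 * f.2 → f = g) :
    s.card / l ≤ gd (jf s) l := by
  classical
  refine div_le_div_of_nonneg_right ?_ (Nat.cast_nonneg _)
  simp only [jf, sum_boole, Nat.cast_le]
  have h3 : ∀ f : ℕ × ℕ, ∃ n, f ∈ s → n < l ∧ l ∣ f.1 * n + f.2 := fun f => by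
    by_cases hf : f ∈ s
    · have := Fact.mk hl
      refine ⟨(-(f.2 : ZMod l) / f.1).val, fun _ => ⟨ZMod.val_lt _, ?_⟩⟩
      have : (f.1 : ZMod l) ≠ 0 := fun h => h1 f hf ((ZMod.natCast_eq_zero_iff _ _).1 h)
      rw [← ZMod.natCast_eq_zero_iff]
      push_cast
      rw [ZMod.natCast_zmod_val]; field_simp; ring
    · exact ⟨0, fun h => absurd h hf⟩
  choose r hr using h3
  refine card_le_card_of_injOn r (fun f hf => ?_) fun f hf g hg h => h2 f hf g hg ?_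
  · exact mem_coe.2 (mem_filter.2 ⟨mem_range.2 (hr f hf).1, f, hf, (hr f hf).2⟩)
  · have a := Int.natCast_dvd_natCast.2 (hr f hf).2
    have b := Int.natCast_dvd_natCast.2 (hr g hg).2
    rw [← h] at b
    push_cast at a b
    have := (b.mul_left f.1).sub (a.mul_left g.1)
    rwa [show (f.1 : ℤ) * (g.1 * r f + g.2) - g.1 * (f.1 * r f + f.2) =
      f.1 * g.2 - g.1 * f.2 by ring] at this

theorem sieve_forms {P : Finset ℕ} (s : ℕ → Finset (ℕ × ℕ)) {Y : ℕ} (hY : 1 ≤ Y)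
    (hP : ∀ l ∈ P, l.Prime ∧ 6 ≤ l ∧ l ≤ Y)
    (hs : ∀ l, (s l).card ≤ 3 ∧ ∀ f ∈ s l, Nat.Coprime f.1 f.2)
    (h1 : ∀ l ∈ P, ∀ f ∈ s l, ¬ l ∣ f.1)
    (h2 : ∀ l ∈ P, ∀ f ∈ s l, ∀ g ∈ s l, (l : ℤ) ∣ f.1 * g.2 - g.1 * f.2 → f = g)
    (N : ℕ) (S : Finset ℕ) (hS : ∀ n ∈ S, n < N ∧ ∀ l ∈ P, ∀ f ∈ s l, ¬ l ∣ f.1 * n + f.2) :
    (S.card : ℝ) ≤ 2 * N * ∏ l ∈ P, (1 - ((s l).card : ℝ) / l) + (4 * Y : ℝ) ^ 144 := by
  have hp : ∀ l ∈ P, l.Prime := fun l hl => (hP l hl).1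
  have hg : ∀ l ∈ P, gd (fun l => jf (s l) l) l = (s l).card / l := fun l hl =>
    le_antisymm (jf_gd (hs l).2 (hp l hl)) (gd_ge (hp l hl) (h1 l hl) (h2 l hl))
  have h3 : ∀ l ∈ P, ((s l).card : ℝ) / l ≤ 3 / l := fun l _ => by
    gcongr; exact_mod_cast (hs l).1
  have hY' : (1 : ℝ) ≤ Y := by exact_mod_cast hY
  have := sieve (P := P) (j := fun l => jf (s l) l)
    ⟨hp, fun l n => (jf_per hp (s l)).zo l n, fun l n => (jf_per hp (s l)).per l n⟩
    (fun l hl => ⟨by linarith [(hP l hl).2.1], ?_⟩) (R := (4 * Y) ^ 24)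
    (one_lt_pow₀ (by omega) (by norm_num)) ?_ N S
    fun n hn => ⟨(hS n hn).1, fun l hl => if_neg fun ⟨f, hf, h⟩ => (hS n hn).2 l hl f hf h⟩
  · rw [prod_congr rfl fun l hl => by rw [hg l hl]] at this
    refine this.trans (le_of_eq ?_)
    push_cast; ring
  · have : (6 : ℝ) ≤ l := by exact_mod_cast (hP l hl).2.1
    rw [hg l hl]
    refine (h3 l hl).trans ?_
    rw [div_le_iff₀ (by linarith)]; linarith
  · have h4 : ∑ l ∈ P, log l / l ≤ log Y + log 4 :=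
      (sum_le_sum_of_subset_of_nonneg (fun l hl => Nat.mem_primesLE.2 ⟨(hP l hl).2.2, hp l hl⟩)
        fun l _ _ => div_nonneg (log_natCast_nonneg l) (Nat.cast_nonneg _)).trans
        (sum_log_div_le Y hY)
    refine (sum_le_sum (g := fun l : ℕ => 3 * (log l / l)) fun l hl => ?_).trans ?_
    · rw [hg l hl]
      refine (mul_le_mul_of_nonneg_right (h3 l hl) (log_natCast_nonneg l)).trans (le_of_eq ?_)
      ring
    · push_cast
      rw [← mul_sum, log_pow, log_mul (by norm_num) (by linarith)]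
      push_cast; linarith

end Pool.Agent.Lib.MP_143a03_nt.NO
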