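import Pool.Agent.Lib.MP_143a03_nt.NO.A

/-!
Normal order of the congruence number: independent model of the prime divisors.
-/

open Finset Real

namespace Pool.Agent.Lib.MP_143a03_nt.NO

/-- The probability of the pattern `S` inside `T`. -/
noncomputable def pr (T S : Finset ℕ) : ℝ :=
  (∏ p ∈ S, (1 : ℝ) / p) * ∏ p ∈ T \ S, (1 - (1 : ℝ) / p)

/-- The mean value of `f` in the model. -/
noncomputable def Ex (T : Finset ℕ) (f : Finset ℕ → ℝ) : ℝ := ∑ S ∈ T.powerset, pr T S * f S

variable {T U : Finset ℕ} {f g : Finset ℕ → ℝ}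

theorem inv_mem (p : ℕ) : 0 ≤ (1 : ℝ) / p ∧ (1 : ℝ) / p ≤ 1 :=
  ⟨by positivity, by rw [one_div]; exact Nat.cast_inv_le_one p⟩

theorem pr_nonneg (T S : Finset ℕ) : 0 ≤ pr T S :=
  mul_nonneg (prod_nonneg fun p _ => (inv_mem p).1)
    (prod_nonneg fun p _ => sub_nonneg.2 (inv_mem p).2)

theorem Ex_mono (h : ∀ S ⊆ T, f S ≤ g S) : Ex T f ≤ Ex T g :=
  sum_le_sum fun S hS => mul_le_mul_of_nonneg_left (h S (mem_powerset.1 hS)) (pr_nonneg _ _)

theorem Ex_nonneg (h : ∀ S ⊆ T, 0 ≤ f S) : 0 ≤ Ex T f :=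
  sum_nonneg fun S hS => mul_nonneg (pr_nonneg _ _) (h S (mem_powerset.1 hS))

theorem Ex_add : Ex T (fun S => f S + g S) = Ex T f + Ex T g := by
  simp only [Ex, mul_add, sum_add_distrib]

theorem Ex_mul (c : ℝ) : Ex T (fun S => c * f S) = c * Ex T f := by
  simp only [Ex, mul_sum, mul_left_comm]

theorem Ex_sum {ι : Type*} (I : Finset ι) (F : ι → Finset ℕ → ℝ) :
    Ex T (fun S => ∑ i ∈ I, F i S) = ∑ i ∈ I, Ex T (F i) := by
  simp only [Ex, mul_sum]
  rw [sum_comm]

theorem Ex_empty : Ex ∅ f = f ∅ := by simp [Ex, pr]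

theorem Ex_insert {p : ℕ} (hp : p ∉ T) : Ex (insert p T) f =
    (1 - 1 / (p : ℝ)) * Ex T f + 1 / (p : ℝ) * Ex T fun S => f (insert p S) := by
  rw [Ex, sum_powerset_insert hp, Ex, Ex, mul_sum, mul_sum]
  congr 1 <;> refine sum_congr rfl fun S hS => ?_
  · have h : p ∉ S := fun h => hp (mem_powerset.1 hS h)
    rw [pr, pr, insert_sdiff_of_notMem _ h, prod_insert fun h => hp (mem_sdiff.1 h).1]; ring
  · have h : p ∉ S := fun h => hp (mem_powerset.1 hS h)
    rw [pr, pr, prod_insert h, insert_sdiff_insert, sdiff_insert_of_notMem hp]; ring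

theorem Ex_const (T : Finset ℕ) (c : ℝ) : Ex T (fun _ => c) = c := by
  induction T using Finset.induction_on with
  | empty => exact Ex_empty
  | insert p T hp ih => rw [Ex_insert hp, ih]; ring

theorem Ex_union (h : Disjoint T U) :
    Ex (T ∪ U) f = Ex T fun S => Ex U fun S' => f (S ∪ S') := by
  induction T using Finset.induction_on generalizing f with
  | empty => simp [Ex_empty]
  | insert p T hp ih =>
    rw [disjoint_insert_left] at h
    rw [insert_union, Ex_insert (by simp [hp, h.1]), Ex_insert hp, ih h.2, ih h.2]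
    simp only [insert_union]

theorem Ex_sub {A : Finset ℕ} (hA : A ⊆ T) :
    Ex T (fun S => if A ⊆ S then 1 else 0) ≤ ∏ p ∈ A, (1 : ℝ) / p := by
  rw [← union_sdiff_of_subset hA, Ex_union disjoint_sdiff]
  refine (Ex_mono (g := fun S => if S = A then 1 else 0) fun S hS => ?_).trans ?_
  · refine (Ex_mono fun S' hS' => ?_).trans (Ex_const _ _).le
    split_ifs with h1 h2 <;> try norm_num
    refine h2 (hS.antisymm fun p hp => (mem_union.1 (h1 hp)).resolve_right fun h => ?_)
    exact (mem_sdiff.1 (hS' h)).2 hp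
  · simp [Ex, pr]

theorem Ex_var (T : Finset ℕ) (c : ℝ) :
    Ex T (fun S => ((S.card : ℝ) - lam T + c) ^ 2) ≤ lam T + c ^ 2 := by
  induction T using Finset.induction_on generalizing c with
  | empty => simp [Ex_empty, lam]
  | insert p T hp ih =>
    have e : lam (insert p T) = 1 / p + lam T := sum_insert hp
    have h1 := ih (c - 1 / p)
    have h2 := ih (c + 1 - 1 / p)
    have h3 : Ex T (fun S => (((insert p S).card : ℝ) - lam (insert p T) + c) ^ 2) ≤
        lam T + (c + 1 - 1 / p) ^ 2 := by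
      refine (Ex_mono fun S hS => le_of_eq ?_).trans h2
      rw [card_insert_of_notMem fun h => hp (hS h), e]; push_cast; ring
    have h4 : Ex T (fun S => ((S.card : ℝ) - lam (insert p T) + c) ^ 2) ≤
        lam T + (c - 1 / p) ^ 2 := by
      refine (Ex_mono fun S _ => le_of_eq ?_).trans h1
      rw [e]; ring
    obtain ⟨a0, a1⟩ := inv_mem p
    rw [Ex_insert hp]
    refine (add_le_add (mul_le_mul_of_nonneg_left h4 (sub_nonneg.2 a1))
      (mul_le_mul_of_nonneg_left h3 a0)).trans ?_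
    rw [e]; nlinarith [sq_nonneg (1 / (p : ℝ))]

theorem Ex_cheb (T : Finset ℕ) {a : ℝ} (ha : 0 < a) :
    Ex T (fun S => if a ≤ |(S.card : ℝ) - lam T| then 1 else 0) ≤ lam T / a ^ 2 := by
  have h := Ex_var T 0
  simp only [add_zero, ne_eq, OfNat.ofNat_ne_zero, not_false_eq_true, zero_pow] at h
  refine (Ex_mono (g := fun S => (1 / a ^ 2) * ((S.card : ℝ) - lam T) ^ 2) fun S _ => ?_).trans ?_
  · split_ifs with h1
    · rw [one_div_mul_eq_div, le_div_iff₀ (by positivity), one_mul, ← sq_abs (_ - _)]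
      exact pow_le_pow_left₀ ha.le h1 2
    · positivity
  · rw [Ex_mul, one_div_mul_eq_div]
    gcongr

theorem Ex_windows {F : Finset ℕ → ℝ} (h0 : ∀ S, 0 ≤ F S) (h1 : F ∅ ≤ 1)
    (hF : ∀ S S', F (S ∪ S') ≤ F S * F S') (W : ℕ → Finset ℕ) {c : ℝ} (r : ℕ)
    (hd : ∀ i j, i < j → Disjoint (W i) (W j)) (hW : ∀ i < r, Ex (W i) F ≤ c) :
    Ex ((range r).biUnion W) F ≤ c ^ r := by
  induction r with
  | zero => simpa [Ex_empty] using h1
  | succ r ih =>
    have h2 := ih fun i hi => hW i (by omega)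
    have h3 := hW r (by omega)
    have h4 : 0 ≤ c := (Ex_nonneg fun S _ => h0 S).trans h3
    rw [range_add_one, biUnion_insert, Ex_union ((disjoint_biUnion_right _ _ _).2 fun i hi =>
      (hd i r (mem_range.1 hi)).symm)]
    refine (Ex_mono (g := fun S => c ^ r * F S) fun S _ => ?_).trans ?_
    · refine (Ex_mono fun S' _ => hF S S').trans ?_
      rw [Ex_mul, mul_comm]
      exact mul_le_mul_of_nonneg_right h2 (h0 S)
    · rw [Ex_mul, pow_succ]
      exact mul_le_mul_of_nonneg_left h3 (pow_nonneg h4 r)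

theorem prod_inj {S S' : Finset ℕ} (h : ∀ p ∈ S, p.Prime) (h' : ∀ p ∈ S', p.Prime)
    (e : ∏ p ∈ S, p = ∏ p ∈ S', p) : S = S' := by
  rw [← Nat.primeFactors_prod h, e, Nat.primeFactors_prod h']

open Pool.Agent.Lib.MP_778b46_nt in
theorem transfer {y W x : ℕ} (hy : 1 ≤ y) (hT : ∀ p ∈ T, p.Prime ∧ 6 ≤ p ∧ p ≤ y) (hW : 1 < W)
    (hx : W ≤ x) (P : Finset ℕ → Prop) [DecidablePred P] :
    (((Icc 1 x).filter fun k => P (T.filter (· ∣ k))).card : ℝ) ≤
      4 * x * Ex T (fun S => if P S then 1 else 0) + W * (4 * y : ℝ) ^ 144 +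
        x * log (4 * y) / log W := by
  have hp : ∀ S ⊆ T, ∀ p ∈ S, p.Prime := fun S hS p h => (hT p (hS h)).1
  have hW1 : (1 : ℝ) < W := by exact_mod_cast hW
  have hl := log_pos hW1
  have hx0 : (0 : ℝ) ≤ x := Nat.cast_nonneg _
  set G := T.powerset.filter fun S => P S ∧ ∏ p ∈ S, p ≤ W
  set K := (Icc 1 x).filter fun k => W < ∏ p ∈ T.filter (· ∣ k), p
  have h1 : ((Icc 1 x).filter fun k => P (T.filter (· ∣ k))) ⊆
      (G.biUnion fun S => (Icc 1 x).filter fun k => T.filter (· ∣ k) = S) ∪ K := by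
    intro k hk
    obtain ⟨k1, k2⟩ := mem_filter.1 hk
    by_cases h : W < ∏ p ∈ T.filter (· ∣ k), p
    · exact mem_union_right _ (mem_filter.2 ⟨k1, h⟩)
    · exact mem_union_left _ (mem_biUnion.2 ⟨_, mem_filter.2 ⟨mem_powerset.2 (filter_subset _ _),
        k2, not_lt.1 h⟩, mem_filter.2 ⟨k1, rfl⟩⟩)
  have h2 : ∀ S ∈ G, (((Icc 1 x).filter fun k => T.filter (· ∣ k) = S).card : ℝ) ≤
      4 * x * pr T S + (4 * y : ℝ) ^ 144 := by
    intro S hS
    obtain ⟨s1, -, s2⟩ := mem_filter.1 hS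
    have s3 := mem_powerset.1 s1
    set D := ∏ p ∈ S, p with hD
    have D0 : 0 < D := prod_pos fun p h => (hp S s3 p h).pos
    have dv : ∀ k ∈ (Icc 1 x).filter (fun k => T.filter (· ∣ k) = S), D ∣ k := fun k hk =>
      prod_primes_dvd _ (fun p h => (hp S s3 p h).prime) fun p h => by
        rw [← (mem_filter.1 hk).2] at h; exact (mem_filter.1 h).2
    rw [← card_image_of_injOn (f := (· / D)) fun k hk k' hk' h => by
      rw [← Nat.div_mul_cancel (dv k hk), ← Nat.div_mul_cancel (dv k' hk')]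
      exact congrArg (· * D) h]
    refine (sieve_forms (P := T \ S) (fun _ => {(1, 0)}) hy (fun l hl => hT l (mem_sdiff.1 hl).1)
      (by simp) (fun l hl => by simpa using (hT l (mem_sdiff.1 hl).1).1.one_lt.ne') (by simp)
      (x / D + 1) _ fun n hn => ?_).trans ?_
    · obtain ⟨k, hk, rfl⟩ := mem_image.1 hn
      refine ⟨Nat.lt_succ_of_le (Nat.div_le_div_right (mem_Icc.1 (mem_filter.1 hk).1).2),
        fun l hl f hf h => (mem_sdiff.1 hl).2 ?_⟩
      rw [mem_singleton.1 hf] at h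
      rw [← (mem_filter.1 hk).2]
      exact mem_filter.2 ⟨(mem_sdiff.1 hl).1, (by simpa using h : l ∣ k / D).trans
        (Nat.div_dvd_of_dvd (dv k hk))⟩
    · have D1 : (0 : ℝ) < D := by exact_mod_cast D0
      have a1 : ((x / D + 1 : ℕ) : ℝ) ≤ 2 * (x / D) := by
        have : (1 : ℝ) ≤ x / D := by
          rw [le_div_iff₀ D1, one_mul]; exact_mod_cast s2.trans hx
        push_cast; linarith [Nat.cast_div_le (α := ℝ) (m := x) (n := D)]
      have a2 : ∏ p ∈ S, (1 : ℝ) / p = 1 / D := by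
        rw [prod_div_distrib, hD]; push_cast; simp
      have a3 : 0 ≤ ∏ p ∈ T \ S, (1 - (1 : ℝ) / p) :=
        prod_nonneg fun p _ => sub_nonneg.2 (inv_mem p).2
      simp only [card_singleton, Nat.cast_one, pr, a2]
      have := mul_le_mul_of_nonneg_right a1 a3
      rw [show 4 * (x : ℝ) * (1 / D * ∏ p ∈ T \ S, (1 - (1 : ℝ) / p)) =
        2 * (2 * (x / D) * ∏ p ∈ T \ S, (1 - (1 : ℝ) / p)) by ring]
      linarith
  have h3 : G.card ≤ W := by
    refine (card_le_card_of_injOn (t := Icc 1 W) (fun S => ∏ p ∈ S, p) (fun S hS => ?_)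
      fun S hS S' hS' h => ?_).trans (by simp)
    · obtain ⟨s1, -, s2⟩ := mem_filter.1 (mem_coe.1 hS)
      exact mem_coe.2 (mem_Icc.2 ⟨prod_pos fun p h => (hp S (mem_powerset.1 s1) p h).pos, s2⟩)
    · exact prod_inj (hp S (mem_powerset.1 (mem_filter.1 hS).1))
        (hp S' (mem_powerset.1 (mem_filter.1 hS').1)) h
  have h4 : (K.card : ℝ) * log W ≤ x * log (4 * y) := by
    calc _ ≤ ∑ k ∈ K, ∑ p ∈ T, if p ∣ k then log p else 0 := by
          rw [← nsmul_eq_mul, ← sum_const]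
          refine sum_le_sum fun k hk => ?_
          rw [← sum_filter, ← log_prod fun p h => by
            exact_mod_cast (hp _ (filter_subset _ _) p h).ne_zero, ← Nat.cast_prod]
          exact log_le_log (by linarith) (by exact_mod_cast (mem_filter.1 hk).2.le)
      _ ≤ ∑ k ∈ Icc 1 x, ∑ p ∈ T, if p ∣ k then log p else 0 :=
          sum_le_sum_of_subset_of_nonneg (filter_subset _ _) fun _ _ _ => sum_nonneg fun p _ => by
            split_ifs; exacts [log_natCast_nonneg p, le_rfl]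
      _ ≤ ∑ p ∈ T, x * (log p / p) := by
          rw [sum_comm]
          refine sum_le_sum fun p _ => ?_
          rw [← sum_filter, sum_const, nsmul_eq_mul, show Icc 1 x = Ioc 0 x from rfl,
            Nat.Ioc_filter_dvd_card_eq_div, ← mul_div_assoc, mul_div_right_comm]
          exact mul_le_mul_of_nonneg_right Nat.cast_div_le (log_natCast_nonneg p)
      _ ≤ _ := by
          rw [← mul_sum, log_mul (by norm_num) (by positivity), add_comm]
          exact mul_le_mul_of_nonneg_left ((sum_le_sum_of_subset_of_nonneg (fun l hl =>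
            Nat.mem_primesLE.2 ⟨(hT l hl).2.2, (hT l hl).1⟩) fun l _ _ => div_nonneg
            (log_natCast_nonneg l) (Nat.cast_nonneg _)).trans (sum_log_div_le y hy)) hx0
  have h5 : ∑ S ∈ G, pr T S ≤ Ex T fun S => if P S then 1 else 0 := by
    simp only [Ex, mul_ite, mul_one, mul_zero]
    rw [← sum_filter]
    exact sum_le_sum_of_subset_of_nonneg (fun S hS => mem_filter.2 ⟨(mem_filter.1 hS).1,
      (mem_filter.1 hS).2.1⟩) fun S _ _ => pr_nonneg _ _
  have h6 := (card_le_card h1).trans ((card_union_le _ _).trans (add_le_add_left card_biUnion_le _))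
  have h7 := sum_le_sum h2
  rw [sum_add_distrib, ← mul_sum, sum_const, nsmul_eq_mul] at h7
  have h8 : (G.card : ℝ) * (4 * y : ℝ) ^ 144 ≤ W * (4 * y : ℝ) ^ 144 := by gcongr
  have h9 := (le_div_iff₀ hl).2 h4
  refine (Nat.cast_le.2 h6).trans ?_
  push_cast
  linarith [mul_le_mul_of_nonneg_left h5 (show (0 : ℝ) ≤ 4 * x by positivity)]

end Pool.Agent.Lib.MP_143a03_nt.NO
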