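import Pool.Agent.Lib.MP_143a03_nt.NO.B
import Pool.Agent.Lib.MP_852f56_nt.Rough
import Pool.Agent.Lib.MP_778b46_nt.GL.B5
import Pool.Agent.Lib.MP_778b46_nt.GL.A5

/-!
Normal order of the congruence number: primes `u b + 1` with `b` free of small primes.
-/

open Finset Real

namespace Pool.Agent.Lib.MP_143a03_nt.NO

open Pool.Agent.Lib.MP_778b46_nt Pool.Agent.Lib.MP_778b46_nt.GL

/-- All prime factors of `b` exceed `y`. -/
def rough (y b : ℕ) : Prop := ∀ p, p.Prime → p ∣ b → y < p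

/-- The remainder of the sieve. -/
noncomputable def err (y h : ℕ) (X : ℝ) (u : ℕ) : ℝ :=
  ∑ D ∈ (Nat.primesLE y).powerset.filter (·.card ≤ 2 * h + 1), DS X (u * ∏ p ∈ D, p) (-1)

/-- The density of the multiples of `p`. -/
noncomputable def gu (u p : ℕ) : ℝ := if p ∣ u then 1 / p else uu p

theorem err_nonneg (y h : ℕ) (X : ℝ) (u : ℕ) : 0 ≤ err y h X u :=
  sum_nonneg fun _ _ => abs_nonneg _

theorem tot_mul (u : ℕ) {D : Finset ℕ} (hD : ∀ p ∈ D, p.Prime) :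
    (Nat.totient (u * ∏ p ∈ D, p) : ℝ)⁻¹ = (Nat.totient u : ℝ)⁻¹ * ∏ p ∈ D, gu u p := by
  induction D using Finset.induction_on with
  | empty => simp
  | insert p D hp ih =>
    have h1 := hD p (mem_insert_self _ _)
    have h2 : ∀ q ∈ D, q.Prime := fun q hq => hD q (mem_insert_of_mem hq)
    rw [prod_insert hp, prod_insert hp, mul_left_comm, mul_left_comm (_ : ℝ), ← ih h2, gu]
    split_ifs with h
    · rw [Nat.totient_mul_of_prime_of_dvd h1 (h.mul_right _)]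
      push_cast; rw [mul_inv, one_div]
    · rw [Nat.totient_mul_of_prime_of_not_dvd h1 fun h' => ?_]
      · push_cast [Nat.cast_sub h1.one_le]; rw [mul_inv, uu, one_div]
      · obtain ⟨q, hq, h3⟩ := (h1.prime.dvd_finsetProd_iff _).1 ((h1.dvd_mul.1 h').resolve_left h)
        exact hp (((Nat.prime_dvd_prime_iff_eq h1 (h2 q hq)).1 h3) ▸ hq)

theorem gu_bd {u p : ℕ} (h2 : 2 ∣ u) (hp : p.Prime) :
    0 ≤ gu u p ∧ gu u p ≤ uu p ∧ gu u p ≤ 1 / 2 := by
  have h : (2 : ℝ) ≤ p := by exact_mod_cast hp.two_le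
  rw [gu]
  split_ifs with h1
  · exact ⟨by positivity, one_div_le_one_div_of_le (by linarith) (by linarith), by gcongr⟩
  · have : (3 : ℝ) ≤ p := by
      exact_mod_cast (show 3 ≤ p from hp.two_le.lt_of_ne fun e => h1 (e ▸ h2))
    exact ⟨(uu_pos hp).le, le_rfl, one_div_le_one_div_of_le (by norm_num) (by linarith)⟩

theorem main_ge {P : Finset ℕ} (hP : ∀ p ∈ P, p.Prime) {u h : ℕ} (h2 : 2 ∣ u) {t : ℝ}
    (ht : lam P ≤ t) (hh : 2 * exp (3 * t + 10) ≤ 2 ^ (2 * h + 2)) :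
    exp (-(t + 6)) / 2 ≤ ∑ D ∈ P.powerset.filter (·.card ≤ 2 * h + 1),
      (-1 : ℝ) ^ D.card * ∏ p ∈ D, gu u p := by
  have g := fun p hp => gu_bd h2 (hP p hp)
  have h1 : ∑ D ∈ P.powerset, (∏ p ∈ D, (-gu u p) - (1 / 2) ^ (2 * h + 2) *
      ∏ p ∈ D, (2 * gu u p)) ≤ ∑ D ∈ P.powerset.filter (·.card ≤ 2 * h + 1),
      (-1 : ℝ) ^ D.card * ∏ p ∈ D, gu u p := by
    rw [sum_filter]
    refine sum_le_sum fun D hD => ?_
    have a : 0 ≤ ∏ p ∈ D, gu u p := prod_nonneg fun p hp => (g p (mem_powerset.1 hD hp)).1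
    rw [prod_neg, prod_mul_distrib, prod_const]
    split_ifs with hc
    · exact sub_le_self _ (by positivity)
    · have h4 : (1 : ℝ) ≤ (1 / 2) ^ (2 * h + 2) * 2 ^ D.card := by
        obtain ⟨e, he⟩ := Nat.exists_eq_add_of_le (show 2 * h + 2 ≤ D.card by omega)
        rw [he, pow_add 2, ← mul_assoc, ← mul_pow]
        norm_num
        exact one_le_pow₀ (by norm_num)
      have h5 : (-1 : ℝ) ^ D.card ≤ 1 := (le_abs_self _).trans (by simp)
      linarith [mul_le_mul_of_nonneg_right (h5.trans h4) a]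
  rw [sum_sub_distrib, ← mul_sum, ← prod_one_add, ← prod_one_add] at h1
  refine le_trans ?_ h1
  obtain ⟨u1, u2⟩ := uu_sum hP
  have s1 : ∑ p ∈ P, gu u p ≤ t + 2 := (sum_le_sum fun p hp => (g p hp).2.1).trans (by linarith)
  have s2 : ∑ p ∈ P, gu u p ^ 2 ≤ 2 :=
    (sum_le_sum fun p hp => pow_le_pow_left₀ (g p hp).1 (g p hp).2.1 2).trans u2
  have h5 : exp (-(t + 6)) ≤ ∏ p ∈ P, (1 + -gu u p) :=
    (exp_le_exp.2 (by linarith)).trans (prod_ge fun p hp => ⟨(g p hp).1, (g p hp).2.2⟩)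
  have h6 : ∏ p ∈ P, (1 + 2 * gu u p) ≤ exp (2 * t + 4) := by
    refine le_trans (prod_le_prod (fun p hp => by linarith [(g p hp).1]) fun p _ =>
      (add_comm _ _).trans_le (add_one_le_exp _)) ?_
    rw [← exp_sum, ← mul_sum]
    exact exp_le_exp.2 (by linarith)
  have e1 : exp (2 * t + 4) = exp (3 * t + 10) * exp (-(t + 6)) := by
    rw [← exp_add]; congr 1; ring
  have e2 : (1 / 2 : ℝ) ^ (2 * h + 2) * 2 ^ (2 * h + 2) = 1 := by rw [← mul_pow]; norm_num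
  have h9 : (1 / 2 : ℝ) ^ (2 * h + 2) * (2 * exp (3 * t + 10)) ≤ 1 := le_trans (by gcongr) e2.le
  have h10 := mul_le_mul_of_nonneg_left h6 (show 0 ≤ (1 / 2 : ℝ) ^ (2 * h + 2) by positivity)
  rw [e1] at h10
  nlinarith [exp_pos (-(t + 6))]

theorem first {y h u : ℕ} {X t : ℝ} (hu : 0 < u) (h2 : 2 ∣ u) (hX : 1 ≤ X)
    (ht : lam (Nat.primesLE y) ≤ t) (hh : 2 * exp (3 * t + 10) ≤ 2 ^ (2 * h + 2)) (G : Finset ℕ)
    (hG : ∀ b, rough y b → (u * b + 1).Prime → X / 4 < (u * b + 1 : ℕ) → (u * b + 1 : ℕ) < X →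
      b ∈ G) :
    X / u * (3 / 16 * exp (-(t + 6))) - err y h X u ≤ log X * G.card := by
  set P := Nat.primesLE y
  have hP : ∀ p ∈ P, p.Prime := fun p hp => Nat.prime_of_mem_primesLE hp
  have hl := log_nonneg hX
  set F := P.powerset.filter (·.card ≤ 2 * h + 1)
  have h1 : ∀ n ∈ Icc 1 ⌊X⌋₊, ∑ D ∈ F, (-1 : ℝ) ^ D.card *
      (if ((u * ∏ p ∈ D, p : ℕ) : ℤ) ∣ n + -1 then pw X n else 0) ≤
      if n ∈ G.image (u * · + 1) then log X else 0 := by
    intro n hn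
    have r0 : 0 ≤ if n ∈ G.image (u * · + 1) then log X else 0 := by split_ifs <;> simp [hl]
    by_cases hb : (u : ℤ) ∣ n + -1
    swap
    · refine le_trans (le_of_eq (sum_eq_zero fun D _ => ?_)) r0
      rw [if_neg fun h => hb (Dvd.dvd.trans (by push_cast; exact dvd_mul_right _ _) h), mul_zero]
    obtain ⟨b, rfl⟩ : ∃ b, n = u * b + 1 := by
      obtain ⟨m, rfl⟩ : ∃ m, n = m + 1 := ⟨n - 1, by have := (mem_Icc.1 hn).1; omega⟩
      obtain ⟨b, rfl⟩ : u ∣ m := Int.natCast_dvd_natCast.1 (by simpa using hb)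
      exact ⟨b, rfl⟩
    set S := P.filter (· ∣ b) with hS
    have e1 : ∑ D ∈ F, (-1 : ℝ) ^ D.card * (if ((u * ∏ p ∈ D, p : ℕ) : ℤ) ∣
        (u * b + 1 : ℕ) + -1 then pw X (u * b + 1) else 0) = (∑ T ∈ S.powerset,
        (if T.card ≤ 2 * h + 1 then (-1 : ℝ) ^ T.card else 0)) * pw X (u * b + 1) := by
      have e : ∀ D : Finset ℕ, (((u * ∏ p ∈ D, p : ℕ) : ℤ) ∣ (u * b + 1 : ℕ) + -1) ↔
          (∏ p ∈ D, p) ∣ b := fun D => by
        rw [Nat.cast_add, Nat.cast_one, add_neg_cancel_right, Int.natCast_dvd_natCast,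
          Nat.mul_dvd_mul_iff_left hu]
      simp only [e]
      rw [sum_mul, sum_filter]
      symm
      refine sum_subset_zero_on_sdiff (powerset_mono.mpr (filter_subset _ _)) ?_ ?_
      · intro T hT
        obtain ⟨hT1, hT2⟩ := mem_sdiff.mp hT
        rw [if_neg (c := (∏ p ∈ T, p) ∣ b), mul_zero, ite_self]
        exact fun hd => hT2 (mem_powerset.mpr fun p hp => mem_filter.mpr
          ⟨mem_powerset.mp hT1 hp, (dvd_prod_of_mem (fun p => p) hp).trans hd⟩)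
      · intro T hT
        rw [if_pos (c := (∏ p ∈ T, p) ∣ b), ite_mul, zero_mul]
        exact Finset.prod_primes_dvd _
          (fun p hp => (hP p (mem_filter.mp (mem_powerset.mp hT hp)).1).prime)
          fun p hp => (mem_filter.mp (mem_powerset.mp hT hp)).2
    rw [e1]
    refine (mul_le_mul_of_nonneg_right (MP_852f56_nt.bonferroni S h) (pw_nonneg _ _)).trans ?_
    by_cases h0 : S = ∅ ∧ pw X (u * b + 1) ≠ 0
    · have a1 : (u * b + 1).Prime := by
        by_contra hc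
        exact h0.2 (by simp [pw, MA.lp, hc])
      have a2 := not_or.1 fun h => h0.2 (pw_zero (by linarith) h)
      rw [if_pos h0.1, one_mul, if_pos (mem_image_of_mem _ (hG b (fun p p1 p2 => not_le.1 fun p3 =>
        filter_eq_empty_iff.1 h0.1 (Nat.mem_primesLE.2 ⟨p3, p1⟩) p2) a1 (not_le.1 a2.1)
        (not_le.1 a2.2))), pw, MA.lp, if_pos a1]
      refine (mul_le_of_le_one_right (log_natCast_nonneg _)
        (pow_le_one₀ (MA.w1_mem _).1 (MA.w1_mem _).2)).trans ?_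
      exact log_le_log (by positivity) (not_le.1 a2.2).le
    · refine le_trans (le_of_eq ?_) r0
      by_cases h3 : S = ∅
      · rw [not_not.1 fun h => h0 ⟨h3, h⟩, mul_zero]
      · rw [if_neg h3, zero_mul]
  have h3 := sum_le_sum h1
  rw [sum_comm, ← sum_filter, sum_const, nsmul_eq_mul] at h3
  have h4 : ((((Icc 1 ⌊X⌋₊).filter (· ∈ G.image (u * · + 1))).card : ℕ) : ℝ) ≤ G.card := by
    exact_mod_cast (card_le_card fun n hn => (mem_filter.1 hn).2).trans card_image_le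
  refine le_trans ?_ (h3.trans ((mul_comm _ _).trans_le (mul_le_mul_of_nonneg_left h4 hl)))
  have h5 : ∀ D ∈ F, X * I2 * (Nat.totient u : ℝ)⁻¹ * ((-1 : ℝ) ^ D.card * ∏ p ∈ D, gu u p) -
      DS X (u * ∏ p ∈ D, p) (-1) ≤ ∑ n ∈ Icc 1 ⌊X⌋₊, (-1 : ℝ) ^ D.card *
      (if ((u * ∏ p ∈ D, p : ℕ) : ℤ) ∣ n + -1 then pw X n else 0) := by
    intro D hD
    rw [← mul_sum, ← sum_filter, DS, if_pos isCoprime_one_left.neg_left, div_eq_mul_inv,
      tot_mul u fun p hp => hP p (mem_powerset.1 (mem_filter.1 hD).1 hp)]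
    generalize (∑ n ∈ _, pw X n) = a
    rcases neg_one_pow_eq_or ℝ D.card with e | e <;> rw [e]
    · linarith [neg_abs_le (a - X * I2 * ((Nat.totient u : ℝ)⁻¹ * ∏ p ∈ D, gu u p))]
    · linarith [le_abs_self (a - X * I2 * ((Nat.totient u : ℝ)⁻¹ * ∏ p ∈ D, gu u p))]
  refine le_trans ?_ (sum_le_sum h5)
  rw [sum_sub_distrib, ← mul_sum]
  refine sub_le_sub_right ?_ _
  have h6 : (u : ℝ)⁻¹ ≤ (Nat.totient u : ℝ)⁻¹ :=
    inv_anti₀ (by exact_mod_cast Nat.totient_pos.2 hu) (by exact_mod_cast Nat.totient_le u)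
  have h7 := i2_mem.1
  calc _ = X * (3 / 8) * (u : ℝ)⁻¹ * (exp (-(t + 6)) / 2) := by ring
    _ ≤ _ := by
      have := main_ge hP h2 ht hh
      gcongr

end Pool.Agent.Lib.MP_143a03_nt.NO
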