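import Pool.Agent.Lib.MP_143a03_nt.NO.C

/-!
Normal order of the congruence number: the remainders on average over the pattern.
-/

open Finset Real

namespace Pool.Agent.Lib.MP_143a03_nt.NO

open Pool.Agent.Lib.MP_778b46_nt Pool.Agent.Lib.MP_778b46_nt.GL

/-- The multiplier `2 j a`. -/
def uf (i : ℕ × Finset ℕ) : ℕ := 2 * i.1 * ∏ p ∈ i.2, p

/-- The range of the primes for the multiplier `u`. -/
noncomputable def XX (B u : ℕ) : ℝ := 2 ^ Nat.log 2 u * B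

theorem fib (s : Finset (Finset ℕ × Finset ℕ)) {n : ℕ} (hs : ∀ a ∈ s, (∀ p ∈ a.1, p.Prime) ∧
    (∀ p ∈ a.2, p.Prime) ∧ a.1.card + a.2.card ≤ n) {c : ℕ} (hc : 0 < c) (m : ℕ) :
    (s.filter fun a => (c * ∏ p ∈ a.1, p) * ∏ p ∈ a.2, p = m).card ≤ 4 ^ n := by
  have h1 : ∀ a ∈ s.filter fun a => (c * ∏ p ∈ a.1, p) * ∏ p ∈ a.2, p = m,
      (m / c).primeFactors = a.1 ∪ a.2 := fun a ha => by
    obtain ⟨a1, a2⟩ := mem_filter.1 ha
    obtain ⟨b1, b2, -⟩ := hs a a1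
    rw [← a2, mul_assoc, Nat.mul_div_cancel_left _ hc, Nat.primeFactors_mul
      (prod_pos fun p h => (b1 p h).pos).ne' (prod_pos fun p h => (b2 p h).pos).ne',
      Nat.primeFactors_prod b1, Nat.primeFactors_prod b2]
  rcases (s.filter fun a => (c * ∏ p ∈ a.1, p) * ∏ p ∈ a.2, p = m).eq_empty_or_nonempty with
    h | ⟨a, ha⟩
  · simp [h]
  · refine (card_le_card (t := (m / c).primeFactors.powerset ×ˢ (m / c).primeFactors.powerset)
      fun b hb => ?_).trans ?_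
    · rw [h1 b hb]
      exact mem_product.2 ⟨mem_powerset.2 subset_union_left, mem_powerset.2 subset_union_right⟩
    · rw [card_product, card_powerset, ← mul_pow, h1 a ha]
      exact Nat.pow_le_pow_right (by norm_num)
        ((card_union_le _ _).trans (hs a (mem_filter.1 ha).1).2.2)

theorem uf_lt {T A : Finset ℕ} {Y w j J E : ℕ} (hT : ∀ p ∈ T, p.Prime ∧ p ≤ Y) (hY : 1 ≤ Y)
    (hA : A ⊆ T) (hw : A.card ≤ w) (h0 : 0 < j) (hj : j ≤ J) (hE : 2 * J * Y ^ w < 2 ^ E) :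
    0 < uf (j, A) ∧ uf (j, A) < 2 ^ E :=
  ⟨Nat.mul_pos (by omega) (prod_pos fun p h => (hT p (hA h)).1.pos),
    lt_of_le_of_lt (Nat.mul_le_mul (by omega) ((prod_le_pow_card _ _ _
      fun p h => (hT p (hA h)).2).trans (Nat.pow_le_pow_right hY hw))) hE⟩

theorem avg {T : Finset ℕ} {Y w j y h E B Q : ℕ} {d : ℝ} (hT : ∀ p ∈ T, p.Prime ∧ p ≤ Y)
    (hY : 1 ≤ Y) (hy : 1 ≤ y) (h0 : 0 < j) (hE : 2 * j * Y ^ w < 2 ^ E)
    (hQ : 2 ^ E * y ^ (2 * h + 1) ≤ Q)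
    (hbv : ∀ e : ℕ, ∑ q ∈ Icc 1 Q, DS (2 ^ e * B) q (-1) ≤ 2 ^ e * B * d) :
    Ex T (fun S => if S.card ≤ w then ∑ A ∈ S.powerset, err y h (XX B (uf (j, A))) (uf (j, A))
      else 0) ≤ E * (2 * j * 4 ^ (w + (2 * h + 1)) * (B * d)) := by
  set AA := T.powerset.filter (·.card ≤ w)
  set F := (Nat.primesLE y).powerset.filter (·.card ≤ 2 * h + 1)
  have hu : ∀ A ∈ AA, 0 < uf (j, A) ∧ uf (j, A) < 2 ^ E := fun A hA =>
    uf_lt hT hY (mem_powerset.1 (mem_filter.1 hA).1) (mem_filter.1 hA).2 h0 le_rfl hE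
  refine (Ex_mono (g := fun S => ∑ A ∈ AA, err y h (XX B (uf (j, A))) (uf (j, A)) *
    if A ⊆ S then 1 else 0) fun S hS => ?_).trans ?_
  · simp only [mul_ite, mul_one, mul_zero]
    rw [← sum_filter]
    split_ifs with h1
    · refine sum_le_sum_of_subset_of_nonneg (fun A hA => ?_) fun _ _ _ => err_nonneg _ _ _ _
      have := mem_powerset.1 hA
      exact mem_filter.2 ⟨mem_filter.2 ⟨mem_powerset.2 (this.trans hS),
        (card_le_card this).trans h1⟩, this⟩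
    · exact sum_nonneg fun _ _ => err_nonneg _ _ _ _
  rw [Ex_sum, ← sum_fiberwise_of_maps_to (t := range E) (g := fun A => Nat.log 2 (uf (j, A)))
    fun A hA => mem_range.2 (Nat.log_lt_of_lt_pow (hu A hA).1.ne' (hu A hA).2)]
  refine (sum_le_card_nsmul _ _ _ fun e _ => ?_).trans (by rw [card_range, nsmul_eq_mul])
  set Ae := AA.filter fun A => Nat.log 2 (uf (j, A)) = e
  have h1 : ∀ A ∈ Ae, Ex T (fun S => err y h (XX B (uf (j, A))) (uf (j, A)) *
      if A ⊆ S then 1 else 0) ≤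
      2 * j / 2 ^ e * ∑ D ∈ F, DS (2 ^ e * B) (uf (j, A) * ∏ p ∈ D, p) (-1) := by
    intro A hA
    obtain ⟨a1, a2⟩ := mem_filter.1 hA
    rw [Ex_mul, mul_comm, XX, a2]
    refine mul_le_mul_of_nonneg_right ((Ex_sub (mem_powerset.1 (mem_filter.1 a1).1)).trans ?_)
      (err_nonneg _ _ _ _)
    have a3 := Nat.pow_log_le_self 2 (hu A a1).1.ne'
    rw [a2] at a3
    have a4 : (0 : ℝ) < ∏ p ∈ A, (p : ℝ) := prod_pos fun p hp => by
      exact_mod_cast (hT p (mem_powerset.1 (mem_filter.1 a1).1 hp)).1.pos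
    rw [prod_div_distrib, prod_const_one, div_le_div_iff₀ a4 (by positivity), one_mul,
      ← Nat.cast_prod]
    exact_mod_cast a3
  refine (sum_le_sum h1).trans ?_
  rw [← mul_sum, ← sum_product' (f := fun A D : Finset ℕ =>
    DS (2 ^ e * B) (uf (j, A) * ∏ p ∈ D, p) (-1)),
    ← sum_fiberwise_of_maps_to (t := Icc 1 Q) (g := fun a => uf (j, a.1) * ∏ p ∈ a.2, p)]
  swap
  · intro a ha
    obtain ⟨a1, a2⟩ := mem_product.1 ha
    obtain ⟨a3, a4⟩ := mem_filter.1 a2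
    have a5 := hu _ (mem_filter.1 a1).1
    have a6 : ∀ p ∈ a.2, p ≤ y ∧ p.Prime := fun p hp =>
      Nat.mem_primesLE.1 (mem_powerset.1 a3 hp)
    exact mem_Icc.2 ⟨Nat.mul_pos a5.1 (prod_pos fun p hp => (a6 p hp).2.pos),
      (Nat.mul_le_mul a5.2.le ((prod_le_pow_card _ _ _ fun p hp => (a6 p hp).1).trans
        (Nat.pow_le_pow_right hy a4))).trans hQ⟩
  have h2 : ∀ q ∈ Icc 1 Q, ∑ a ∈ (Ae ×ˢ F).filter (fun a => uf (j, a.1) * ∏ p ∈ a.2, p = q),
      DS (2 ^ e * B) (uf (j, a.1) * ∏ p ∈ a.2, p) (-1) ≤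
      4 ^ (w + (2 * h + 1)) * DS (2 ^ e * B) q (-1) := by
    intro q _
    rw [sum_congr rfl fun a ha => by rw [(mem_filter.1 ha).2], sum_const, nsmul_eq_mul]
    refine mul_le_mul_of_nonneg_right ?_ (abs_nonneg _)
    exact_mod_cast fib (Ae ×ˢ F) (fun a ha => by
      obtain ⟨a1, a2⟩ := mem_product.1 ha
      obtain ⟨a3, a4⟩ := mem_filter.1 a2
      obtain ⟨a5, a6⟩ := mem_filter.1 (mem_filter.1 a1).1
      exact ⟨fun p hp => (hT p (mem_powerset.1 a5 hp)).1,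
        fun p hp => Nat.prime_of_mem_primesLE (mem_powerset.1 a3 hp), add_le_add a6 a4⟩)
      (show 0 < 2 * j by omega) q
  have h3 := (sum_le_sum h2).trans ((mul_sum _ _ _).symm.trans_le
    (mul_le_mul_of_nonneg_left (hbv e) (by positivity)))
  refine (mul_le_mul_of_nonneg_left h3 (by positivity)).trans (le_of_eq ?_)
  field_simp

end Pool.Agent.Lib.MP_143a03_nt.NO
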