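import Pool.Agent.Lib.MP_143a03_nt.NO.D

/-!
Normal order of the congruence number: pairs of primes `u b + 1`, `v b + 1`.
-/

open Finset Real

namespace Pool.Agent.Lib.MP_143a03_nt.NO

open Pool.Agent.Lib.MP_778b46_nt

/-- The multipliers. -/
def II (J : ℕ) (S : Finset ℕ) : Finset (ℕ × Finset ℕ) := Icc 1 J ×ˢ S.powerset

/-- The discriminant of two forms. -/
def nn (u v : ℕ) : ℕ := u * v * ((u : ℤ) - v).natAbs

/-- The sum over the prime factors above `w`. -/
noncomputable def sg (w n : ℕ) : ℝ := lam (n.primeFactors.filter (w < ·))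

theorem nn_pos {u v : ℕ} (hu : 0 < u) (hv : 0 < v) (h : u ≠ v) : 0 < nn u v :=
  Nat.mul_pos (Nat.mul_pos hu hv) (by omega)

theorem pair {w y R N u v : ℕ} (hw : 5 ≤ w) (hy : y ≤ R) (hR : 1 ≤ R) (hu : 0 < u) (hv : 0 < v)
    (h : u ≠ v) (S : Finset ℕ)
    (hS : ∀ b ∈ S, b < N ∧ R ≤ b ∧ rough y b ∧ (u * b + 1).Prime ∧ (v * b + 1).Prime) :
    (S.card : ℝ) ≤ 2 * N * (exp (-(2 * lam (pi2 w R) + lam (pi2 w y))) *
      exp (3 * sg w (nn u v))) + (4 * R : ℝ) ^ 144 := by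
  set s : ℕ → Finset (ℕ × ℕ) := fun l =>
    if l ≤ y then {(1, 0), (u, 1), (v, 1)} else {(u, 1), (v, 1)} with hs
  have hc : ∀ l, (s l).card = if l ≤ y then 3 else 2 := fun l => by
    simp only [hs]
    split_ifs
    · rw [card_insert_of_notMem (by simp), card_pair (by simpa using h)]
    · exact card_pair (by simpa using h)
  have hm : ∀ l, ∀ f ∈ s l, (l ≤ y ∧ f = (1, 0)) ∨ f = (u, 1) ∨ f = (v, 1) := fun l f hf => by
    simp only [hs] at hf
    split_ifs at hf with h1 <;> simp only [mem_insert, mem_singleton] at hf <;> tauto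
  set P := (pi2 w R).filter fun l => ¬ l ∣ nn u v
  have hP : ∀ l ∈ P, l.Prime ∧ ¬ l ∣ 1 ∧ ¬ l ∣ u ∧ ¬ l ∣ v ∧ ¬ (l : ℤ) ∣ u - v := fun l hl => by
    obtain ⟨a, b⟩ := mem_filter.1 hl
    have c := (mem_pi2.1 a).1
    exact ⟨c, by simpa using c.one_lt.ne', fun h => b ((h.mul_right _).mul_right _),
      fun h => b ((h.mul_left _).mul_right _), fun h => b ((Int.natCast_dvd.1 h).mul_left _)⟩
  refine (sieve_forms (P := P) s hR (fun l hl => ?_) (fun l => ⟨?_, fun f hf => ?_⟩)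
    (fun l hl f hf => ?_) (fun l hl f hf g hg => ?_) N S fun b hb => ⟨(hS b hb).1,
      fun l hl f hf => ?_⟩).trans ?_
  · have := mem_pi2.1 (mem_filter.1 hl).1
    exact ⟨this.1, by omega, this.2.2⟩
  · rw [hc]; split_ifs <;> norm_num
  · rcases hm l f hf with ⟨-, rfl⟩ | rfl | rfl <;> simp
  · have := hP l hl
    rcases hm l f hf with ⟨-, rfl⟩ | rfl | rfl <;> tauto
  · obtain ⟨-, a1, -, -, a2⟩ := hP l hl
    have a3 : ¬ (l : ℤ) ∣ v - u := fun h => a2 (dvd_sub_comm.1 h)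
    have a4 : ¬ (l : ℤ) ∣ 1 := fun h => a1 (by exact_mod_cast h)
    rcases hm l f hf with ⟨-, rfl⟩ | rfl | rfl <;> rcases hm l g hg with ⟨-, rfl⟩ | rfl | rfl <;>
      simp [a2, a3, a4]
  · obtain ⟨-, b1, b2, b3, b4⟩ := hS b hb
    obtain ⟨l1, -, l2⟩ := mem_pi2.1 (mem_filter.1 hl).1
    have k : ∀ x, 0 < x → (x * b + 1).Prime → ¬ l ∣ x * b + 1 := fun x x0 x1 h => by
      have := (Nat.prime_dvd_prime_iff_eq l1 x1).1 h
      have := Nat.le_mul_of_pos_left b x0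
      omega
    rcases hm l f hf with ⟨l3, rfl⟩ | rfl | rfl
    · exact fun h => absurd (b2 l l1 (by simpa using h)) (by omega)
    · exact k u hu b3
    · exact k v hv b4
  refine add_le_add_left (mul_le_mul_of_nonneg_left ?_ (by positivity)) _
  have h1 : ∏ l ∈ P, (1 - ((s l).card : ℝ) / l) ≤ exp (-∑ l ∈ P, ((s l).card : ℝ) / l) := by
    rw [← sum_neg_distrib, exp_sum]
    refine prod_le_prod (fun l hl => ?_) fun l _ => one_sub_le_exp_neg _
    have : (6 : ℝ) ≤ l := by exact_mod_cast (show 6 ≤ l by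
      have := mem_pi2.1 (mem_filter.1 hl).1; omega)
    rw [sub_nonneg, div_le_one (by linarith), hc]
    split_ifs <;> push_cast <;> linarith
  rw [← exp_add]
  refine h1.trans (exp_le_exp.2 ?_)
  have h2 : ∑ l ∈ pi2 w R, ((s l).card : ℝ) / l = 2 * lam (pi2 w R) + lam (pi2 w y) := by
    have : pi2 w y = (pi2 w R).filter (· ≤ y) := by
      ext l; simp only [mem_filter, mem_pi2]
      exact ⟨fun h => ⟨⟨h.1, h.2.1, h.2.2.trans hy⟩, h.2.2⟩, fun h => ⟨h.1.1, h.1.2.1, h.2⟩⟩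
    rw [this, lam, lam, sum_filter, mul_sum, ← sum_add_distrib]
    refine sum_congr rfl fun l _ => ?_
    rw [hc]; split_ifs <;> push_cast <;> ring
  have h3 := sum_filter_add_sum_filter_not (pi2 w R) (fun l => l ∣ nn u v)
    fun l => ((s l).card : ℝ) / l
  have h4 : ∑ l ∈ (pi2 w R).filter (· ∣ nn u v), ((s l).card : ℝ) / l ≤ 3 * sg w (nn u v) := by
    refine (sum_le_sum (g := fun l : ℕ => 3 * ((1 : ℝ) / l)) fun l _ => ?_).trans ?_
    · rw [hc, mul_one_div]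
      split_ifs <;> push_cast <;> gcongr
      norm_num
    · rw [← mul_sum]
      refine mul_le_mul_of_nonneg_left (lam_mono fun l hl => ?_) (by norm_num)
      obtain ⟨a, b⟩ := mem_filter.1 hl
      exact mem_filter.2 ⟨Nat.mem_primeFactors.2 ⟨(mem_pi2.1 a).1, b, (nn_pos hu hv h).ne'⟩,
        (mem_pi2.1 a).2.1⟩
  linarith

theorem uf_inj {J : ℕ} {S : Finset ℕ} (hS : ∀ p ∈ S, p.Prime ∧ J < p) {i k : ℕ × Finset ℕ}
    (hi : i ∈ II J S) (hk : k ∈ II J S) (h : uf i = uf k) : i = k := by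
  have key : ∀ i ∈ II J S, ∀ k ∈ II J S, uf i = uf k → i.2 ⊆ k.2 := by
    intro i hi k hk h p hp
    obtain ⟨k1, k2⟩ := mem_product.1 hk
    obtain ⟨p1, p2⟩ := hS p (mem_powerset.1 (mem_product.1 hi).2 hp)
    have e : i.1 * ∏ p ∈ i.2, p = k.1 * ∏ p ∈ k.2, p := by
      rw [uf, uf, mul_assoc, mul_assoc] at h; omega
    have := (dvd_prod_of_mem (fun p => p) hp).mul_left i.1
    rw [e] at this
    obtain ⟨q, q1, q2⟩ := (p1.prime.dvd_finsetProd_iff _).1 ((p1.dvd_mul.1 this).resolve_left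
      fun h => by have := Nat.le_of_dvd (mem_Icc.1 k1).1 h; have := (mem_Icc.1 k1).2; omega)
    rwa [(Nat.prime_dvd_prime_iff_eq p1 (hS q (mem_powerset.1 k2 q1)).1).1 q2]
  have e := (key i hi k hk h).antisymm (key k hk i hi h.symm)
  refine Prod.ext ?_ e
  rw [uf, uf, e] at h
  have := Nat.eq_of_mul_eq_mul_right (prod_pos fun p hp =>
    (hS p (mem_powerset.1 (mem_product.1 hk).2 hp)).1.pos) h
  omega

theorem cnt_j {p c : ℕ} (hc : Nat.Coprime p c) (hp : 0 < p) (v : ℤ) (J : ℕ) :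
    ∑ j ∈ Icc 1 J, (if (p : ℤ) ∣ (c * j : ℕ) - v then (1 : ℝ) else 0) ≤ J / p + 1 := by
  obtain ⟨a, ha⟩ : ∃ a : ℕ, (p : ℤ) ∣ a - (c - v) :=
    ⟨((c - v) % p).toNat, by
      rw [Int.toNat_of_nonneg (Int.emod_nonneg _ (by positivity))]
      exact dvd_sub_comm.1 (Int.dvd_self_sub_emod)⟩
  have h := (abs_le.1 (MP_852f56_nt.count_ap hp hc a J)).2
  rw [show Icc 1 J = Ico 1 (J + 1) from rfl, sum_Ico_eq_sum_range, Nat.add_sub_cancel]
  refine le_trans (le_of_eq (sum_congr rfl fun j _ => if_congr ?_ rfl rfl)) (sub_le_iff_le_add'.1 h)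
  rw [← Int.natCast_dvd_natCast, ← dvd_add_right ha]
  push_cast
  rw [show (a : ℤ) - (c - v) + (c * (1 + j) - v) = a + j * c - 2 * 0 by ring]
  simp

theorem cnt_i {p J : ℕ} {S : Finset ℕ} (hp : 0 < p) (c : Finset ℕ → ℕ)
    (hc : ∀ A ⊆ S, Nat.Coprime p (c A)) (v : ℤ) :
    ∑ i ∈ II J S, (if (p : ℤ) ∣ (c i.2 * i.1 : ℕ) - v then (1 : ℝ) else 0) ≤
      2 ^ S.card * (J / p + 1) := by
  rw [II, sum_product_right]
  refine (sum_le_card_nsmul _ _ _ fun A hA => cnt_j (hc A (mem_powerset.1 hA)) hp v J).trans ?_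
  rw [card_powerset, nsmul_eq_mul]; push_cast; rfl

theorem card_II (J : ℕ) (S : Finset ℕ) : ((II J S).card : ℝ) = J * 2 ^ S.card := by
  simp [II]

theorem sg_le {w z E n : ℕ} (hn : n < 2 ^ (3 * E)) (hE : E ≤ z) (hz : 0 < z) :
    sg w n ≤ (∑ p ∈ pi2 w z, 1 / (p : ℝ) * if p ∈ n.primeFactors then 1 else 0) + 3 := by
  have h1 : n.primeFactors.card ≤ 3 * z := by
    rcases n.eq_zero_or_pos with rfl | h0
    · simp
    · have := (pow_card_le_prod _ _ 2 fun p hp => (Nat.prime_of_mem_primeFactors hp).two_le).trans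
        (Nat.le_of_dvd h0 (Nat.prod_primeFactors_dvd n))
      have := (Nat.pow_lt_pow_iff_right (by norm_num)).1 (this.trans_lt hn)
      omega
  have hz' : (0 : ℝ) < z := by exact_mod_cast hz
  rw [sg, lam, ← sum_filter_add_sum_filter_not _ (· ≤ z)]
  refine add_le_add ?_ ?_
  · simp only [mul_ite, mul_one, mul_zero]
    rw [← sum_filter]
    refine sum_le_sum_of_subset_of_nonneg (fun p hp => ?_) fun _ _ _ => by positivity
    obtain ⟨a, b⟩ := mem_filter.1 hp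
    obtain ⟨c, d⟩ := mem_filter.1 a
    exact mem_filter.2 ⟨mem_pi2.2 ⟨Nat.prime_of_mem_primeFactors c, d, b⟩, c⟩
  · refine (sum_le_card_nsmul _ _ (1 / (z : ℝ)) fun p hp => one_div_le_one_div_of_le hz' ?_).trans ?_
    · exact_mod_cast (not_le.1 (mem_filter.1 hp).2).le
    · rw [nsmul_eq_mul, mul_one_div, div_le_iff₀ hz']
      exact_mod_cast (card_le_card ((filter_subset _ _).trans (filter_subset _ _))).trans h1

theorem pairs_sum {J w z E : ℕ} {S : Finset ℕ} {t : ℝ} (hS : ∀ p ∈ S, p.Prime ∧ z < p)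
    (hw : 2 ≤ w) (hJ : 0 < J) (hu : ∀ i ∈ II J S, uf i < 2 ^ E) (hE : E ≤ z) (hz : 0 < z)
    (ht : lam (pi2 w z) ≤ t) (hM : exp (3 * t) * (3 * (2 / w + t / J)) ≤ 1) :
    ∑ i ∈ II J S, ∑ k ∈ II J S, exp (3 * sg w (nn (uf i) (uf k))) ≤
      exp 13 * ((II J S).card : ℝ) ^ 2 := by
  set m : ℕ → ℝ := fun n => ∑ p ∈ pi2 w z, 1 / (p : ℝ) * if p ∈ n.primeFactors then 1 else 0
  have h1 : ∀ i ∈ II J S, ∀ k ∈ II J S, exp (3 * sg w (nn (uf i) (uf k))) ≤
      exp 9 * (exp 3 + exp (3 * t) * m (nn (uf i) (uf k))) := by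
    intro i hi k hk
    have a1 : nn (uf i) (uf k) < 2 ^ (3 * E) := by
      have a := hu i hi
      have b := hu k hk
      rw [show 3 * E = E + E + E by ring, pow_add, pow_add]
      exact Nat.mul_lt_mul'' (Nat.mul_lt_mul'' a b) (by omega)
    have a2 := sg_le (w := w) a1 hE hz
    set n := nn (uf i) (uf k)
    have a3 : m n ≤ t := (sum_le_sum fun p _ => mul_le_of_le_one_right (by positivity)
      (by split_ifs <;> norm_num)).trans ht
    have a4 : 0 ≤ m n := sum_nonneg fun p _ => by positivity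
    refine (exp_le_exp.2 (show _ ≤ 9 + 3 * m n by simp only [m]; linarith)).trans ?_
    rw [exp_add]
    refine mul_le_mul_of_nonneg_left ?_ (exp_pos _).le
    rcases le_total (m n) 1 with h | h
    · exact le_add_of_le_of_nonneg (exp_le_exp.2 (by linarith)) (by positivity)
    · exact le_add_of_nonneg_of_le (exp_pos _).le ((exp_le_exp.2 (by linarith)).trans
        (le_mul_of_one_le_right (exp_pos _).le h))
  have hc := card_II J S
  set c : ℝ := ((II J S).card : ℝ) with hcd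
  have hJ' : (0 : ℝ) < J := by exact_mod_cast hJ
  have h2 : ∀ p ∈ pi2 w z, ∑ i ∈ II J S, ∑ k ∈ II J S,
      (if p ∈ (nn (uf i) (uf k)).primeFactors then (1 : ℝ) else 0) ≤
      3 * c ^ 2 * (1 / p + 1 / J) := by
    intro p hp
    obtain ⟨p1, p2, p3⟩ := mem_pi2.1 hp
    have b1 : ∀ A ⊆ S, Nat.Coprime p (2 * ∏ q ∈ A, q) := fun A hA =>
      Nat.Coprime.mul_right ((Nat.coprime_primes p1 Nat.prime_two).2 (by omega))
        (Nat.Coprime.prod_right fun q hq => (Nat.coprime_primes p1 (hS q (hA hq)).1).2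
          (by have := (hS q (hA hq)).2; omega))
    have b2 := cnt_i (J := J) p1.pos _ b1
    have b3 : ∀ i : ℕ × Finset ℕ, (2 * ∏ q ∈ i.2, q) * i.1 = uf i := fun i => by rw [uf]; ring
    simp only [b3] at b2
    have b4 : ∀ i ∈ II J S, ∀ k ∈ II J S,
        (if p ∈ (nn (uf i) (uf k)).primeFactors then (1 : ℝ) else 0) ≤
        (if (p : ℤ) ∣ uf i - 0 then 1 else 0) + (if (p : ℤ) ∣ uf k - 0 then 1 else 0) +
        (if (p : ℤ) ∣ uf i - uf k then 1 else 0) := by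
      intro i _ k _
      split_ifs with c0 c1 c2 c3 c4 c5 c6 c7 <;> try norm_num
      simp only [sub_zero, Int.natCast_dvd_natCast] at c1 c5
      rcases p1.dvd_mul.1 (Nat.dvd_of_mem_primeFactors c0) with h | h
      · exact (p1.dvd_mul.1 h).elim c1 c5
      · exact c7 (Int.natCast_dvd.2 h)
    refine (sum_le_sum fun i hi => sum_le_sum (b4 i hi)).trans ?_
    simp only [sum_add_distrib, sum_const, nsmul_eq_mul]
    rw [← mul_sum, sum_comm, ← hcd]
    have b5 := sum_le_card_nsmul (II J S) _ _ fun k _ => b2 (uf k)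
    rw [nsmul_eq_mul, ← hcd] at b5
    have b6 := mul_le_mul_of_nonneg_left (b2 0) (show 0 ≤ c from Nat.cast_nonneg _)
    have b7 : c * (2 ^ S.card * (J / p + 1)) = c ^ 2 * (1 / p + 1 / J) := by
      rw [sq, mul_assoc, hc]; field_simp
    linarith
  have h3 : ∑ i ∈ II J S, ∑ k ∈ II J S, m (nn (uf i) (uf k)) ≤ c ^ 2 * (3 * (2 / w + t / J)) := by
    simp only [m]
    rw [sum_congr rfl fun i _ => sum_comm, sum_comm]
    simp only [← mul_sum]
    refine (sum_le_sum fun p hp => mul_le_mul_of_nonneg_left (h2 p hp) (by positivity)).trans ?_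
    have b1 := sum_uu_sq_le (P := pi2 w z) (w := w) (by omega) fun l hl => (mem_pi2.1 hl).2.1
    have b2 : ∑ p ∈ pi2 w z, 1 / (p : ℝ) * (3 * c ^ 2 * (1 / p + 1 / J)) ≤
        ∑ p ∈ pi2 w z, 3 * c ^ 2 * (uu p ^ 2 + 1 / p * (1 / J)) := sum_le_sum fun p hp => by
      have : (2 : ℝ) ≤ p := by exact_mod_cast (mem_pi2.1 hp).1.two_le
      have : 1 / (p : ℝ) ≤ uu p := one_div_le_one_div_of_le (by linarith) (by linarith)
      rw [mul_left_comm, mul_add, ← sq]
      gcongr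
    refine b2.trans ?_
    rw [← mul_sum, sum_add_distrib, ← sum_mul]
    calc _ ≤ 3 * c ^ 2 * (2 / w + t * (1 / J)) := by
          gcongr
          exact ht
      _ = _ := by ring
  refine (sum_le_sum fun i hi => sum_le_sum (h1 i hi)).trans ?_
  simp only [← mul_sum, sum_add_distrib, sum_const, nsmul_eq_mul]
  rw [← hcd, show (13 : ℝ) = 9 + (3 + 1) by norm_num, exp_add 9, exp_add 3, mul_assoc]
  refine mul_le_mul_of_nonneg_left ?_ (exp_pos _).le
  have h4 := mul_le_mul_of_nonneg_left h3 (exp_pos (3 * t)).le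
  have h5 := mul_le_mul_of_nonneg_left hM (sq_nonneg c)
  have h6 : (1 : ℝ) ≤ exp 3 := one_le_exp (by norm_num)
  have h7 : (2 : ℝ) ≤ exp 1 := by linarith [add_one_le_exp 1]
  nlinarith [mul_nonneg (sq_nonneg c) (show 0 ≤ exp 3 * exp 1 - exp 3 - 1 by nlinarith)]

end Pool.Agent.Lib.MP_143a03_nt.NO
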