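import Pool.Agent.Lib.MP_143a03_nt.NO.E

/-!
Normal order of the congruence number: one window of primes.
-/

open Finset Real

namespace Pool.Agent.Lib.MP_143a03_nt.NO

open Pool.Agent.Lib.MP_778b46_nt

/-- A product of primes of `S` of size at least `Y` gives a prime. -/
def Suc (J Y : ℕ) (S : Finset ℕ) : Prop :=
  ∃ j ∈ Icc 1 J, ∃ D ⊆ S, (uf (j, D) + 1).Prime ∧ Y ≤ ∏ p ∈ D, p

open Classical in
/-- The indicator of failure. -/
noncomputable def FF (J Y : ℕ) (S : Finset ℕ) : ℝ := if Suc J Y S then 0 else 1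

open Classical in
/-- The good numbers in a block. -/
noncomputable def GG (J y B : ℕ) (S : Finset ℕ) : Finset ℕ :=
  (Ioo B (16 * B)).filter fun b => rough y b ∧ ∃ i ∈ II J S, (uf i * b + 1).Prime

theorem block {J w z E y R h B : ℕ} {S : Finset ℕ} {t0 t a g : ℝ}
    (hS : ∀ p ∈ S, p.Prime ∧ z < p) (hJz : J ≤ z) (hJ : 0 < J) (hw : 5 ≤ w)
    (hu : ∀ i ∈ II J S, 0 < uf i ∧ uf i < 2 ^ E) (hE : E ≤ z) (ht0 : lam (pi2 w z) ≤ t0)
    (hM : exp (3 * t0) * (3 * (2 / w + t0 / J)) ≤ 1) (ht : lam (Nat.primesLE y) ≤ t)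
    (hh : 2 * exp (3 * t + 10) ≤ 2 ^ (2 * h + 2)) (hy : y ≤ R) (hR : 1 ≤ R) (hB : R ≤ B)
    (hEB : 2 ^ E ≤ 16 * B)
    (he : ∑ i ∈ II J S, err y h (XX (16 * B) (uf i)) (uf i) ≤ 16 * B) (a0 : 0 < a)
    (ha : 2 * log (16 * B) * a * (II J S).card ≤ (II J S).card * (3 / 32 * exp (-(t + 6))) - 1)
    (hg : 2 * exp (-(2 * lam (pi2 w R) + lam (pi2 w y))) * exp 13 +
      (4 * R : ℝ) ^ 144 / (16 * B) ≤ g) (hag : a ≤ (II J S).card * g) :
    16 * B * (a ^ 2 / (2 * g)) ≤ (GG J y B S).card := by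
  classical
  set G := (Ioo B (16 * B)).filter (rough y)
  set c : ℝ := ((II J S).card : ℝ) with hc
  set N : ℝ := 16 * B with hN
  have B1 : (1 : ℝ) ≤ B := by exact_mod_cast hR.trans hB
  have N1 : 16 ≤ N := by linarith
  have hl : 0 < log N := log_pos (by linarith)
  set M : ℝ := ∑ i ∈ II J S, ((G.filter fun b => (uf i * b + 1).Prime).card : ℝ) with hM1
  have h1 : ∀ i ∈ II J S, N * (3 / 32 * exp (-(t + 6))) - err y h (XX (16 * B) (uf i)) (uf i) ≤
      2 * log N * (G.filter fun b => (uf i * b + 1).Prime).card := by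
    intro i hi
    obtain ⟨u0, u1⟩ := hu i hi
    have l1 : (2 : ℝ) ^ Nat.log 2 (uf i) ≤ uf i := by exact_mod_cast Nat.pow_log_le_self 2 u0.ne'
    have l2 : (uf i : ℝ) < 2 * 2 ^ Nat.log 2 (uf i) := by
      rw [← pow_succ']; exact_mod_cast Nat.lt_pow_succ_log_self (by norm_num) _
    have l3 : (uf i : ℝ) ≤ N := by rw [hN]; exact_mod_cast u1.le.trans hEB
    have u2 : (1 : ℝ) ≤ uf i := by exact_mod_cast u0
    have e : XX (16 * B) (uf i) = 2 ^ Nat.log 2 (uf i) * N := by rw [XX, hN]; push_cast; rfl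
    have l4 : (1 : ℝ) ≤ 2 ^ Nat.log 2 (uf i) := one_le_pow₀ (by norm_num)
    have := first (h := h) (X := XX (16 * B) (uf i)) u0 ((dvd_mul_right _ _).mul_right _)
      (by rw [e]; nlinarith) ht hh (G.filter fun b => (uf i * b + 1).Prime) fun b b1 b2 b3 b4 => by
        rw [e] at b3 b4
        push_cast at b3 b4
        refine mem_filter.2 ⟨mem_filter.2 ⟨mem_Ioo.2 ⟨?_, ?_⟩, b1⟩, b2⟩
        · by_contra h
          have : (b : ℝ) ≤ B := by exact_mod_cast not_lt.1 h
          nlinarith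
        · have : (b : ℝ) < 16 * B := by nlinarith
          exact_mod_cast this
    refine le_trans (sub_le_sub_right ?_ _) (this.trans (mul_le_mul_of_nonneg_right ?_
      (Nat.cast_nonneg _)))
    · rw [show N * (3 / 32 * exp (-(t + 6))) = N / 2 * (3 / 16 * exp (-(t + 6))) by ring]
      refine mul_le_mul_of_nonneg_right ?_ (by positivity)
      rw [e, div_le_div_iff₀ (by norm_num) (by linarith)]; nlinarith
    · rw [e, log_mul (by positivity) (by linarith)]
      linarith [log_le_log (by positivity) (l1.trans l3)]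
  have h2 := sum_le_sum h1
  rw [sum_sub_distrib, sum_const, nsmul_eq_mul, ← mul_sum, ← hc, ← hM1] at h2
  have h3 : c * N * a ≤ M := by
    refine le_of_mul_le_mul_left ?_ (show 0 < 2 * log N by positivity)
    nlinarith [mul_le_mul_of_nonneg_left ha (show 0 ≤ N by linarith)]
  set Z : ℕ → ℝ := fun b => ∑ i ∈ II J S, if (uf i * b + 1).Prime then 1 else 0
  have hs : GG J y B S ⊆ G := fun b hb =>
    mem_filter.2 ⟨(mem_filter.1 hb).1, (mem_filter.1 hb).2.1⟩
  have h4 : M = ∑ b ∈ GG J y B S, Z b := by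
    simp only [hM1, card_filter]
    push_cast
    rw [sum_comm]
    refine (sum_subset hs fun b hb h => sum_eq_zero fun i hi => if_neg fun h' => h ?_).symm
    exact mem_filter.2 ⟨(mem_filter.1 hb).1, (mem_filter.1 hb).2, i, hi, h'⟩
  have h5 : ∑ b ∈ GG J y B S, Z b ^ 2 ≤ M + c ^ 2 * N * g := by
    refine (sum_le_sum_of_subset_of_nonneg hs fun _ _ _ => sq_nonneg _).trans ?_
    simp only [Z, sq (∑ _ ∈ _, _), sum_mul_sum]
    rw [sum_comm, sum_congr rfl fun i _ => sum_comm]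
    have k : ∀ i ∈ II J S, ∀ k ∈ II J S, ∑ b ∈ G, (if (uf i * b + 1).Prime then (1 : ℝ) else 0) *
        (if (uf k * b + 1).Prime then 1 else 0) ≤
        (if i = k then ((G.filter fun b => (uf i * b + 1).Prime).card : ℝ) else 0) +
        (2 * N * exp (-(2 * lam (pi2 w R) + lam (pi2 w y))) *
          exp (3 * sg w (nn (uf i) (uf k))) + (4 * R : ℝ) ^ 144) := by
      intro i hi k hk
      simp only [ite_zero_mul_ite_zero, mul_one, sum_boole]
      split_ifs with e
      · subst e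
        simp only [and_self]
        exact le_add_of_nonneg_right (by positivity)
      · refine (pair (N := 16 * B) hw hy hR (hu i hi).1 (hu k hk).1 (fun h => e (uf_inj
          (fun p hp => ⟨(hS p hp).1, hJz.trans_lt (hS p hp).2⟩) hi hk h)) _ fun b hb => ?_).trans
          (le_of_eq ?_)
        · obtain ⟨b1, b2⟩ := mem_filter.1 hb
          obtain ⟨b3, b4⟩ := mem_filter.1 b1
          exact ⟨(mem_Ioo.1 b3).2, hB.trans (mem_Ioo.1 b3).1.le, b4, b2⟩
        · rw [hN]; push_cast; ring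
    refine (sum_le_sum fun i hi => sum_le_sum (k i hi)).trans ?_
    simp only [sum_add_distrib, sum_const, nsmul_eq_mul, ← mul_sum]
    rw [sum_congr rfl fun i hi => (sum_ite_eq _ _ _).trans (if_pos hi), ← hM1, ← hc]
    have p1 := pairs_sum hS (by omega) hJ (fun i hi => (hu i hi).2) hE (by omega) ht0 hM
    have p2 := mul_le_mul_of_nonneg_left hg (show 0 ≤ c ^ 2 * N by positivity)
    have p3 : c ^ 2 * N * ((4 * R : ℝ) ^ 144 / N) = c * (c * (4 * R : ℝ) ^ 144) := by field_simp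
    rw [mul_add, p3] at p2
    have p4 := mul_le_mul_of_nonneg_left p1
      (show 0 ≤ 2 * N * exp (-(2 * lam (pi2 w R) + lam (pi2 w y))) by positivity)
    linarith
  have h6 := sq_sum_le_card_mul_sum_sq (s := GG J y B S) (f := Z)
  rw [← h4] at h6
  set k : ℝ := ((GG J y B S).card : ℝ)
  have k0 : 0 ≤ k := Nat.cast_nonneg _
  have h7 := h6.trans (mul_le_mul_of_nonneg_left h5 k0)
  have c0 : 0 < c := by rw [hc, card_II]; positivity
  have g0 : 0 < g := (mul_pos_iff_of_pos_left c0).1 (a0.trans_le hag)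
  have q0 : 0 < c * N * a := by positivity
  have q1 : c * N * a ≤ c ^ 2 * N * g := by
    nlinarith [mul_le_mul_of_nonneg_left hag (show 0 ≤ c * N by positivity)]
  have h8 : (c * N * a) ^ 2 ≤ k * (2 * (c ^ 2 * N * g)) := by
    generalize c * N * a = x at *
    generalize c ^ 2 * N * g = v at *
    by_contra h
    have h9 : k * (2 * v) < x ^ 2 := not_le.1 h
    have h10 : k * v < x * M / 2 := by nlinarith
    have h11 : k * 2 < x := by nlinarith
    nlinarith
  rw [← mul_div_assoc, div_le_iff₀ (by positivity)]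
  refine le_of_mul_le_mul_left ?_ (show 0 < c ^ 2 * N by positivity)
  linarith

theorem window {y y' Y J s0 s1 : ℕ} {S : Finset ℕ} {d : ℝ} (hy : 1 ≤ y) (hS : ∀ p ∈ S, 0 < p ∧ p ≤ y)
    (hs : s0 ≤ s1) (hY : Y ≤ 16 ^ s0) (h1 : 16 ^ s1 ≤ y') (hd : 2 / (y : ℝ) ≤ d)
    (hb : ∀ s ∈ Ico s0 s1, 16 * (16 ^ s : ℕ) * (2 * d) ≤ (GG J y (16 ^ s) S).card) :
    Ex (pi2 y y') (fun D => FF J Y (S ∪ D)) ≤
      1 - (s1 - s0) * d * exp (-(lam (pi2 y y') + 4)) := by
  classical
  set W := pi2 y y'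
  have hW : ∀ p ∈ W, p.Prime := fun p hp => (mem_pi2.1 hp).1
  set G : ℕ → Finset ℕ := fun s => (GG J y (16 ^ s) S).filter Squarefree
  have m1 : ∀ s, ∀ b ∈ GG J y (16 ^ s) S, 16 ^ s < b ∧ b < 16 ^ (s + 1) := fun s b hb => by
    rw [pow_succ']; exact mem_Ioo.1 (mem_filter.1 hb).1
  have h2 : ∀ s ∈ Ico s0 s1, d ≤ ∑ b ∈ G s, (1 : ℝ) / b := by
    intro s hs
    set N := 16 ^ (s + 1)
    have N0 : (0 : ℝ) < N := by positivity
    have a1 : GG J y (16 ^ s) S ⊆ G s ∪ (pi2 y N).biUnion fun p => (Ioc 0 N).filter (p * p ∣ ·) := by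
      intro b hb
      by_cases h : Squarefree b
      · exact mem_union_left _ (mem_filter.2 ⟨hb, h⟩)
      · obtain ⟨b1, b2⟩ := m1 s b hb
        rw [Nat.squarefree_iff_prime_squarefree] at h
        push Not at h
        obtain ⟨p, p1, p2⟩ := h
        have p3 := (dvd_mul_right _ _).trans p2
        exact mem_union_right _ (mem_biUnion.2 ⟨p, mem_pi2.2 ⟨p1, (mem_filter.1 hb).2.1 p p1 p3,
          (Nat.le_of_dvd (by omega) p3).trans b2.le⟩, mem_filter.2 ⟨mem_Ioc.2 ⟨by omega, b2.le⟩, p2⟩⟩)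
    have a2 := (card_le_card a1).trans ((card_union_le _ _).trans
      (add_le_add_right card_biUnion_le _))
    have a3 : ∑ p ∈ pi2 y N, (((Ioc 0 N).filter (p * p ∣ ·)).card : ℝ) ≤ N * d := by
      refine le_trans ?_ (mul_le_mul_of_nonneg_left ((sum_uu_sq_le (P := pi2 y N) hy
        fun l hl => (mem_pi2.1 hl).2.1).trans hd) N0.le)
      rw [mul_sum]
      refine sum_le_sum fun p hp => ?_
      have : (2 : ℝ) ≤ p := by exact_mod_cast (mem_pi2.1 hp).1.two_le
      have : 1 / (p : ℝ) ≤ uu p := one_div_le_one_div_of_le (by linarith) (by linarith)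
      rw [Nat.Ioc_filter_dvd_card_eq_div]
      refine Nat.cast_div_le.trans ?_
      rw [show (N : ℝ) / (p * p : ℕ) = N * (1 / p) ^ 2 by push_cast; ring]
      gcongr
    have a4 := hb s hs
    rw [show (16 : ℝ) * (16 ^ s : ℕ) = N by simp only [N]; push_cast; ring] at a4
    have a5 : ((GG J y (16 ^ s) S).card : ℝ) ≤ (G s).card +
      ∑ p ∈ pi2 y N, (((Ioc 0 N).filter (p * p ∣ ·)).card : ℝ) := by exact_mod_cast a2
    refine le_trans ?_ (card_nsmul_le_sum _ _ (1 / (N : ℝ)) fun b hb => ?_)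
    · rw [nsmul_eq_mul, mul_one_div, le_div_iff₀ N0]; linarith
    · obtain ⟨b1, b2⟩ := m1 s b (mem_filter.1 hb).1
      exact one_div_le_one_div_of_le (by exact_mod_cast (by omega)) (by exact_mod_cast b2.le)
  set H := (Ico s0 s1).biUnion G
  have h3 : ((s1 : ℝ) - s0) * d ≤ ∑ b ∈ H, (1 : ℝ) / b := by
    rw [sum_biUnion fun s _ s' _ h => disjoint_left.2 fun b b1 b2 => h ?_]
    · refine le_trans ?_ (sum_le_sum h2)
      rw [sum_const, nsmul_eq_mul, Nat.card_Ico, Nat.cast_sub hs]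
    · have a := m1 s b (mem_filter.1 b1).1
      have a' := m1 s' b (mem_filter.1 b2).1
      rw [← Nat.log_eq_of_pow_le_of_lt_pow a.1.le a.2, Nat.log_eq_of_pow_le_of_lt_pow a'.1.le a'.2]
  have h4 : ∀ b ∈ H, ∏ p ∈ b.primeFactors, p = b ∧ b.primeFactors ⊆ W ∧
      Suc J Y (S ∪ b.primeFactors) := by
    intro b hb
    obtain ⟨s, s2, b1⟩ := mem_biUnion.1 hb
    obtain ⟨b2, b3⟩ := mem_filter.1 b1
    obtain ⟨b4, b5⟩ := m1 s b b2
    obtain ⟨-, b6, i, i1, i2⟩ := mem_filter.1 b2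
    obtain ⟨s3, s4⟩ := mem_Ico.1 s2
    have e := Nat.prod_primeFactors_of_squarefree b3
    have i3 := mem_powerset.1 (mem_product.1 i1).2
    have r : ∀ p ∈ b.primeFactors, y < p := fun p hp =>
      b6 p (Nat.prime_of_mem_primeFactors hp) (Nat.dvd_of_mem_primeFactors hp)
    have e2 : ∏ p ∈ i.2 ∪ b.primeFactors, p = (∏ p ∈ i.2, p) * b := by
      rw [prod_union (disjoint_left.2 fun p p1 p2 => (r p p2).not_ge (hS p (i3 p1)).2), e]
    refine ⟨e, fun p hp => mem_pi2.2 ⟨Nat.prime_of_mem_primeFactors hp, r p hp,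
      (Nat.le_of_mem_primeFactors hp).trans (b5.le.trans
        ((Nat.pow_le_pow_right (by norm_num) s4).trans h1))⟩, i.1, (mem_product.1 i1).1, _,
      union_subset_union_left i3, ?_, ?_⟩
    · rwa [uf, e2, ← mul_assoc]
    · rw [e2]
      exact (hY.trans ((Nat.pow_le_pow_right (by norm_num) s3).trans b4.le)).trans
        (Nat.le_mul_of_pos_left _ (prod_pos fun p hp => (hS p (i3 hp)).1))
  have h5 : exp (-(lam W + 4)) ≤ ∏ p ∈ W, (1 - (1 : ℝ) / p) := by
    have t : ∀ p ∈ W, (2 : ℝ) ≤ p := fun p hp => by exact_mod_cast (hW p hp).two_le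
    refine le_trans (exp_le_exp.2 ?_) (prod_ge fun p hp =>
      ⟨by positivity, one_div_le_one_div_of_le (by norm_num) (t p hp)⟩)
    have : ∑ p ∈ W, ((1 : ℝ) / p) ^ 2 ≤ 2 := (sum_le_sum fun p hp => pow_le_pow_left₀
      (by positivity) (one_div_le_one_div_of_le (by linarith [t p hp]) (by linarith)) 2).trans
      (uu_sum hW).2
    rw [lam]; linarith
  have h6 : (∑ b ∈ H, (1 : ℝ) / b) * exp (-(lam W + 4)) ≤
      ∑ D ∈ H.image Nat.primeFactors, pr W D := by
    rw [sum_image fun b hb b' hb' h => by rw [← (h4 b hb).1, h, (h4 b' hb').1], sum_mul]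
    refine sum_le_sum fun b hb => mul_le_mul (le_of_eq ?_) (h5.trans ?_) (exp_pos _).le
      (prod_nonneg fun p _ => (inv_mem p).1)
    · rw [prod_div_distrib, prod_const_one, ← Nat.cast_prod, (h4 b hb).1]
    · exact prod_le_prod_of_subset_of_le_one sdiff_subset
        (fun p _ => sub_nonneg.2 (inv_mem p).2) fun p _ _ => sub_le_self _ (inv_mem p).1
  have h7 : Ex W (fun D => FF J Y (S ∪ D)) + ∑ D ∈ H.image Nat.primeFactors, pr W D ≤ 1 := by
    have e : ∑ D ∈ H.image Nat.primeFactors, pr W D =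
        Ex W fun D => if D ∈ H.image Nat.primeFactors then 1 else 0 := by
      simp only [Ex, mul_ite, mul_one, mul_zero]
      rw [sum_ite_mem, inter_eq_right.2 fun D hD => ?_]
      obtain ⟨b, hb, rfl⟩ := mem_image.1 hD
      exact mem_powerset.2 (h4 b hb).2.1
    rw [e, ← Ex_add]
    refine (Ex_mono fun D _ => ?_).trans (Ex_const _ 1).le
    rw [FF]
    split_ifs with a b b <;> try norm_num
    obtain ⟨n, hn, rfl⟩ := mem_image.1 b
    exact a (h4 n hn).2.2
  linarith [mul_le_mul_of_nonneg_right h3 (exp_pos (-(lam W + 4))).le]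

end Pool.Agent.Lib.MP_143a03_nt.NO
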