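import Pool.Agent.Lib.MP_143a03_nt.NO.F

/-!
Normal order of the congruence number: choice of the parameters in one window.
-/

open Finset Real Filter

namespace Pool.Agent.Lib.MP_143a03_nt.NO

theorem ev_exp (K : ℝ) (k : ℕ) {e : ℝ} (he : 0 < e) :
    ∀ᶠ t : ℕ in atTop, K * (t : ℝ) ^ k ≤ exp (e * t) := by
  have h := ((isLittleO_pow_exp_pos_mul_atTop k he).const_mul_left K).bound one_pos
  filter_upwards [tendsto_natCast_atTop_atTop.eventually h] with t ht
  rw [one_mul, norm_of_nonneg (exp_pos _).le] at ht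
  exact (le_abs_self _).trans ht

theorem ev_log (k : ℕ) {e : ℝ} (he : 0 < e) : ∀ᶠ t : ℕ in atTop, log t ^ k ≤ e * t := by
  filter_upwards [tendsto_natCast_atTop_atTop.eventually
    ((isLittleO_pow_log_id_atTop (n := k)).bound he)] with t ht
  rw [id, norm_of_nonneg (Nat.cast_nonneg t)] at ht
  exact (le_abs_self _).trans ht

theorem ev_ge (K : ℝ) : ∀ᶠ t : ℕ in atTop, K ≤ t :=
  tendsto_natCast_atTop_atTop.eventually_ge_atTop K

theorem ev_lg (K : ℝ) : ∀ᶠ t : ℕ in atTop, K ≤ log t :=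
  (tendsto_log_atTop.comp tendsto_natCast_atTop_atTop).eventually_ge_atTop K

theorem mert2 : ∃ C : ℝ, 0 ≤ C ∧ (∀ n : ℕ, 2 ≤ n → |lam (Nat.primesLE n) - log (log n)| ≤ C) ∧
    ∀ m : ℕ, 1 ≤ m → |lam (Nat.primesLE (2 ^ m)) - log m| ≤ C := by
  obtain ⟨C, h0, h⟩ := mertens
  refine ⟨C + 1, by linarith, fun n hn => by linarith [h n hn], fun m hm => ?_⟩
  have h1 := abs_le.1 (h (2 ^ m) (Nat.le_self_pow (by omega) 2))
  have h2 := log_two_gt_d9
  have h3 := log_two_lt_d9
  have h4 : log (log 2) ≤ 0 := log_nonpos (by linarith) (by linarith)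
  have h5 : -1 ≤ log (log 2) := by
    have := one_sub_inv_le_log_of_pos (show 0 < log 2 by linarith)
    have : (log 2)⁻¹ ≤ 2 := inv_le_of_inv_le₀ (by norm_num) (by linarith)
    linarith
  push_cast at h1
  rw [log_pow, log_mul (by positivity) (by linarith)] at h1
  exact abs_le.2 ⟨by linarith, by linarith⟩

theorem win1 : ∃ c > 0, ∀ᶠ t : ℕ in atTop, ∀ (J m : ℕ) (S : Finset ℕ), exp (1 / 5 * t) ≤ J →
    J ≤ 2 ^ t → 2 ^ t ≤ m → m ≤ 2 ^ (2 * t) →
    (∀ p ∈ S, p.Prime ∧ 2 ^ (2 * t) < p ∧ p ≤ 2 ^ 2 ^ t) → S.card ≤ 2 * t →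
    t ^ 2 * m ≤ J * 2 ^ S.card → (∀ s ∈ Ico (125 * (m * t)) (250 * (m * t)), ∑ i ∈ II J S,
      err (2 ^ m) (5 * t) (XX (16 * 16 ^ s) (uf i)) (uf i) ≤ 16 * (16 ^ s : ℕ)) →
    Ex (pi2 (2 ^ m) (2 ^ (m * (1000 * t)))) (fun D => FF J (2 ^ 2 ^ t) (S ∪ D)) ≤
      1 - c / log t ^ 3 := by
  obtain ⟨C, C0, hC, hC2⟩ := mert2
  obtain ⟨k, hk⟩ : ∃ k : ℝ, k = 3 / 64 * exp (-(C + 6)) := ⟨_, rfl⟩
  obtain ⟨K, hK⟩ : ∃ K : ℝ, K = 128 * exp (6 * C) * exp 13 + 1 := ⟨_, rfl⟩
  have k0 : 0 < k := by rw [hk]; positivity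
  have K1 : 1 ≤ K := hK ▸ le_add_of_nonneg_left (by positivity)
  obtain ⟨d0, hd0⟩ : ∃ d0 : ℝ, d0 = (k / 2000) ^ 2 / (4 * K) := ⟨_, rfl⟩
  have d1 : 0 < d0 := by rw [hd0]; positivity
  obtain ⟨m0, hm0⟩ := eventually_atTop.1 (ev_exp (2 / d0) 4 (show 0 < log 2 from log_pos one_lt_two))
  refine ⟨d0 * exp (-(2 * C + 4)) / 8, by positivity, ?_⟩
  filter_upwards [ev_ge 11, ev_ge (2 * C), ev_ge (96 * exp (3 * C)), ev_exp (96 * exp (3 * C)) 4
    (show (0 : ℝ) < 1 / 5 by norm_num), ev_ge (1 / k), ev_ge k, ev_lg 1, eventually_ge_atTop m0]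
    with t t1 t2 t3 t4 t5 t6 t7 t8 J m S J1 J2 m1 m2 hS S1 S2 he
  have t9 : 11 ≤ t := by exact_mod_cast t1
  have t0 : (0 : ℝ) < t := by linarith
  have n1 : t < 2 ^ t := Nat.lt_two_pow_self
  have n2 : t ≤ m := by omega
  have n3 : (t : ℝ) ≤ m := by exact_mod_cast n2
  have n4 : (0 : ℝ) < m := by linarith
  have n5 : m ≤ m * t := Nat.le_mul_of_pos_right _ (by omega)
  have n6 : 4 * t ≤ 2 ^ t := by
    obtain ⟨v, rfl⟩ := Nat.exists_eq_add_of_le t9
    have := Nat.lt_two_pow_self (n := v)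
    rw [pow_add]; omega
  have n7 : t ^ 4 ≤ 2 ^ m := by
    have := mul_self_le_mul_self (Nat.zero_le _) n6
    calc t ^ 4 ≤ (2 ^ t) ^ 4 := Nat.pow_le_pow_left n1.le 4
      _ ≤ _ := by rw [← pow_mul]; exact Nat.pow_le_pow_right (by norm_num) (by omega)
  have n8 : 5 ≤ t ^ 4 := le_trans (by norm_num) (Nat.pow_le_pow_left t9 4)
  have J0 : (0 : ℝ) < J := (exp_pos _).trans_le J1
  have l2 := log_two_lt_d9
  have lt : log t ≤ t := (log_le_sub_one_of_pos t0).trans (by linarith)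
  obtain ⟨L, hL⟩ : ∃ L : ℝ, L = log t := ⟨_, rfl⟩
  rw [← hL] at lt t7 ⊢
  have a1 := abs_le.1 (hC2 m (by omega))
  have a2 := abs_le.1 (hC2 (m * t) (by omega))
  have a3 := abs_le.1 (hC2 (m * (1000 * t)) (by nlinarith))
  have a4 := abs_le.1 (hC2 (2 * t) (by omega))
  have a5 := abs_le.1 (hC (t ^ 4) (by omega))
  push_cast at a2 a3 a4 a5
  rw [log_pow, ← hL] at a5
  rw [log_mul n4.ne' (by positivity)] at a3
  have c1 : (t : ℝ) ^ 2 * m ≤ (II J S).card := by rw [card_II]; exact_mod_cast S2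
  refine (window (d := d0 / (m * L ^ 3)) (s0 := 125 * (m * t)) (s1 := 250 * (m * t))
    Nat.one_le_two_pow (fun p hp => ⟨(hS p hp).1.pos, (hS p hp).2.2.trans
      (Nat.pow_le_pow_right (by norm_num) m1)⟩) (by omega) ?_ ?_ ?_ fun s hs => ?_).trans ?_
  · rw [show 16 = 2 ^ 4 by norm_num, ← pow_mul]
    exact Nat.pow_le_pow_right (by norm_num) (by omega)
  · rw [show 16 = 2 ^ 4 by norm_num, ← pow_mul]
    exact le_of_eq (by congr 1; ring)
  · have := hm0 m (by omega)
    rw [mul_comm (log 2), exp_nat_mul, exp_log two_pos, div_mul_eq_mul_div,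
      div_le_iff₀ d1] at this
    push_cast
    rw [div_le_div_iff₀ (by positivity) (by positivity)]
    have : L ^ 3 ≤ (m : ℝ) ^ 3 := pow_le_pow_left₀ (by linarith) (by linarith) 3
    nlinarith
  · obtain ⟨s1, s2⟩ := mem_Ico.1 hs
    have e16 : (16 : ℕ) ^ s = 2 ^ (4 * s) := by rw [pow_mul]; norm_num
    refine le_trans (le_of_eq ?_) (block (w := t ^ 4) (z := 2 ^ (2 * t)) (E := 4 * t * 2 ^ t)
      (R := 2 ^ (m * t)) (h := 5 * t) (t0 := log (2 * t) + C) (t := log m + C)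
      (a := k / 2000 / (m ^ 2 * t)) (g := K * L ^ 3 / (m ^ 3 * t ^ 2))
      (fun p hp => ⟨(hS p hp).1, (hS p hp).2.1⟩)
      (J2.trans (Nat.pow_le_pow_right (by norm_num) (by omega))) (by exact_mod_cast J0) n8
      (fun i hi => uf_lt (T := S) (Y := 2 ^ 2 ^ t) (fun p hp => ⟨(hS p hp).1, (hS p hp).2.2⟩)
        Nat.one_le_two_pow (mem_powerset.1 (mem_product.1 hi).2) ((card_le_card (mem_powerset.1
        (mem_product.1 hi).2)).trans S1) (mem_Icc.1 (mem_product.1 hi).1).1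
        (mem_Icc.1 (mem_product.1 hi).1).2 ?_) ?_
      ((lam_mono (filter_subset _ _)).trans (by linarith)) ?_ (by linarith) ?_
      (Nat.pow_le_pow_right (by norm_num) n5) Nat.one_le_two_pow ?_ ?_ (he s hs)
      (by positivity) ?_ ?_ ?_)
    · rw [hd0]; field_simp; ring
    · calc 2 * J * (2 ^ 2 ^ t) ^ (2 * t) ≤ 2 * 2 ^ t * (2 ^ 2 ^ t) ^ (2 * t) := by gcongr
        _ < _ := by
          rw [← pow_succ', ← pow_mul, ← pow_add]
          exact Nat.pow_lt_pow_right (by norm_num) (by nlinarith)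
    · rw [two_mul t, pow_add]; exact Nat.mul_le_mul_right _ n6
    · have b1 : log (2 * t) + C ≤ 2 * t := by
        rw [log_mul (by norm_num) t0.ne']; linarith
      have b2 : (log (2 * t) + C) / J ≤ 2 * t / (96 * exp (3 * C) * t ^ 4) :=
        div_le_div₀ (by positivity) b1 (by positivity) (t4.trans J1)
      rw [mul_add 3 (log _), exp_add, show (3 : ℝ) * log (2 * t) = (3 : ℕ) * log (2 * t) by norm_num,
        exp_nat_mul, exp_log (by positivity)]
      push_cast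
      calc _ ≤ (2 * t) ^ 3 * exp (3 * C) * (3 * (2 / t ^ 4 + 2 * t / (96 * exp (3 * C) * t ^ 4))) := by
            gcongr
        _ = 48 * exp (3 * C) / t + 1 / 2 := by field_simp; ring
        _ ≤ 1 := by
            have : 48 * exp (3 * C) / t ≤ 1 / 2 := by rw [div_le_iff₀ t0]; linarith
            linarith
    · have b1 : log m ≤ 2 * t * log 2 := by
        refine (log_le_log n4 (by exact_mod_cast m2 : (m : ℝ) ≤ 2 ^ (2 * t))).trans ?_
        rw [log_pow]; push_cast; rfl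
      rw [pow_succ', pow_succ', ← exp_log (show (0 : ℝ) < 2 ^ (2 * (5 * t)) by positivity), log_pow]
      push_cast
      have b2 := log_two_gt_d9
      have b3 : exp (3 * (log m + C) + 10) ≤ exp (2 * (5 * t) * log 2) :=
        exp_le_exp.2 (by nlinarith)
      linarith [exp_pos (2 * (5 * t) * log 2)]
    · rw [e16]; exact Nat.pow_le_pow_right (by norm_num) (by omega)
    · rw [e16]
      exact (Nat.pow_le_pow_right (by norm_num) (by nlinarith)).trans
        (Nat.le_mul_of_pos_left _ (by norm_num))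
    · have b1 : log (16 * (16 ^ s : ℕ)) ≤ 1000 * (m * t) := by
        push_cast
        rw [← pow_succ', show (16 : ℝ) = 2 ^ 4 by norm_num, ← pow_mul, log_pow]
        have : ((4 * (s + 1) : ℕ) : ℝ) ≤ 1000 * (m * t) := by exact_mod_cast (by omega)
        nlinarith [mul_pos n4 t0]
      have b2 : 3 / 32 * exp (-(log m + C + 6)) = 2 * (k / m) := by
        rw [show -(log m + C + 6) = -(C + 6) - log m by ring, exp_sub, exp_log n4, hk]; ring
      have b3 : 1 ≤ (II J S).card * (k / m) := by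
        refine le_trans ?_ (mul_le_mul_of_nonneg_right c1 (by positivity))
        rw [div_le_iff₀ k0] at t5
        rw [show (t : ℝ) ^ 2 * m * (k / m) = t * (t * k) by field_simp]
        nlinarith
      have b4 : 2 * log (16 * (16 ^ s : ℕ)) * (k / 2000 / (m ^ 2 * t)) ≤ k / m := by
        refine (mul_le_mul_of_nonneg_right (mul_le_mul_of_nonneg_left b1 (by norm_num))
          (by positivity)).trans (le_of_eq ?_)
        field_simp; norm_num
      rw [b2]
      nlinarith [mul_le_mul_of_nonneg_right b4 (Nat.cast_nonneg (α := ℝ) (II J S).card)]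
    · have b1 : exp (-(2 * lam (pi2 (t ^ 4) (2 ^ (m * t))) + lam (pi2 (t ^ 4) (2 ^ m)))) ≤
          exp (6 * C) * (4 * L) ^ 3 / ((m * t) ^ 2 * m) := by
        rw [lam_pi2 n7, lam_pi2 (n7.trans (Nat.pow_le_pow_right (by norm_num) n5)),
          ← exp_log (show 0 < exp (6 * C) * (4 * L) ^ 3 / ((m * t) ^ 2 * m) by positivity),
          log_div (by positivity) (by positivity), log_mul (by positivity) (by positivity),
          log_mul (x := (m * t : ℝ) ^ 2) (by positivity) (by positivity), log_exp, log_pow, log_pow]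
        push_cast at a5 ⊢
        exact exp_le_exp.2 (by linarith)
      have b2 : (4 * (2 ^ (m * t) : ℕ) : ℝ) ^ 144 / (16 * (16 ^ s : ℕ)) ≤ 1 / (m ^ 3 * t ^ 2) := by
        rw [div_le_div_iff₀ (by positivity) (by positivity), one_mul, e16]
        have b3 : m ^ 3 * t ^ 2 ≤ (2 ^ (m * t)) ^ 3 :=
          le_trans (by rw [mul_pow]; gcongr <;> omega) (Nat.pow_le_pow_left
            (Nat.lt_two_pow_self (n := m * t)).le 3)
        have b4 : (4 * 2 ^ (m * t)) ^ 144 * (m ^ 3 * t ^ 2) ≤ 16 * 2 ^ (4 * s) := by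
          refine (Nat.mul_le_mul_left _ b3).trans (le_trans ?_ (Nat.le_mul_of_pos_left _ (by norm_num)))
          rw [show 4 = 2 ^ 2 from rfl, ← pow_add, ← pow_mul, ← pow_mul, ← pow_add]
          exact Nat.pow_le_pow_right (by norm_num) (by omega)
        exact_mod_cast b4
      have b3 : (1 : ℝ) / (m ^ 3 * t ^ 2) ≤ L ^ 3 / (m ^ 3 * t ^ 2) := by
        gcongr; exact one_le_pow₀ t7
      calc _ ≤ 2 * (exp (6 * C) * (4 * L) ^ 3 / ((m * t) ^ 2 * m)) * exp 13 +
          L ^ 3 / (m ^ 3 * t ^ 2) := add_le_add (by gcongr) (b2.trans b3)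
        _ = _ := by rw [hK]; field_simp; ring
    · refine le_trans ?_ (mul_le_mul_of_nonneg_right c1 (by positivity))
      rw [show (t : ℝ) ^ 2 * m * (K * L ^ 3 / (m ^ 3 * t ^ 2)) = t * (K * L ^ 3) / (m ^ 2 * t) by
        field_simp]
      gcongr
      nlinarith [one_le_mul_of_one_le_of_one_le K1 (one_le_pow₀ (n := 3) t7)]
  · refine sub_le_sub_left ?_ _
    have b1 : exp (-(2 * C + 4)) / (1000 * t) ≤
        exp (-(lam (pi2 (2 ^ m) (2 ^ (m * (1000 * t)))) + 4)) := by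
      rw [lam_pi2 (Nat.pow_le_pow_right (by norm_num) (by nlinarith)),
        ← exp_log (show (0 : ℝ) < 1000 * t by positivity), ← exp_sub]
      exact exp_le_exp.2 (by linarith)
    push_cast
    refine le_trans (le_of_eq ?_) (mul_le_mul_of_nonneg_left b1 (mul_nonneg (by nlinarith)
      (by positivity)))
    field_simp; norm_num

end Pool.Agent.Lib.MP_143a03_nt.NO
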