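import Pool.Agent.Lib.MP_143a03_nt.NO.G
import Pool.Agent.Lib.MP_778b46_nt.GL.B6

/-!
Normal order of the congruence number: failure is rare in the model.
-/

open Finset Real Filter

namespace Pool.Agent.Lib.MP_143a03_nt.NO

open Pool.Agent.Lib.MP_778b46_nt.GL

theorem FF_mem (J Y : ℕ) (S : Finset ℕ) : 0 ≤ FF J Y S ∧ FF J Y S ≤ 1 := by
  rw [FF]; split_ifs <;> norm_num

theorem FF_mul (J Y : ℕ) (S D D' : Finset ℕ) :
    FF J Y (S ∪ (D ∪ D')) ≤ FF J Y (S ∪ D) * FF J Y (S ∪ D') := by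
  have h : ∀ A ⊆ D ∪ D', Suc J Y (S ∪ A) → Suc J Y (S ∪ (D ∪ D')) := fun A hA ⟨j, a, E, b, c⟩ =>
    ⟨j, a, E, b.trans (union_subset_union_right hA), c⟩
  by_cases h1 : Suc J Y (S ∪ (D ∪ D'))
  · rw [FF, if_pos h1]; exact mul_nonneg (FF_mem _ _ _).1 (FF_mem _ _ _).1
  · rw [FF, FF, FF, if_neg h1, if_neg fun h2 => h1 (h _ subset_union_left h2),
      if_neg fun h2 => h1 (h _ subset_union_right h2), one_mul]

theorem avg2 : ∀ᶠ t : ℕ in atTop, ∀ j m s : ℕ, 0 < j → j ≤ 2 ^ t → 2 ^ t ≤ m →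
    125 * (m * t) ≤ s → Ex (pi2 (2 ^ (2 * t)) (2 ^ 2 ^ t)) (fun S => (16 * (16 ^ s : ℕ) : ℝ)⁻¹ *
      if S.card ≤ 2 * t then ∑ A ∈ S.powerset,
        err (2 ^ m) (5 * t) (XX (16 * 16 ^ s) (uf (j, A))) (uf (j, A)) else 0) ≤
      8 / (2 ^ t) ^ 6 := by
  obtain ⟨X0, hX⟩ := eventually_atTop.1 (bv (κ := 1 / 4) (by norm_num) 33)
  filter_upwards [ev_ge X0, eventually_ge_atTop 11] with t t1 t2 j m s j0 j1 m1 s1
  have n1 : t < 2 ^ t := Nat.lt_two_pow_self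
  have n5 : m ≤ m * t := Nat.le_mul_of_pos_right _ (by omega)
  have n6 : 4 * t ≤ 2 ^ t := by
    obtain ⟨v, rfl⟩ := Nat.exists_eq_add_of_le t2
    have := Nat.lt_two_pow_self (n := v)
    rw [pow_add]; omega
  have e16 : 16 * 16 ^ s = 2 ^ (4 * (s + 1)) := by rw [pow_mul, pow_succ']; norm_num
  have h := avg (T := pi2 (2 ^ (2 * t)) (2 ^ 2 ^ t)) (Y := 2 ^ 2 ^ t) (w := 2 * t) (y := 2 ^ m)
    (h := 5 * t) (E := 4 * t * 2 ^ t) (B := 16 * 16 ^ s) (d := 1 / (2 ^ t) ^ 33)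
    (fun p hp => ⟨(mem_pi2.1 hp).1, (mem_pi2.1 hp).2.2⟩) Nat.one_le_two_pow Nat.one_le_two_pow j0
    ?_ le_rfl fun e => ?_
  · rw [Ex_mul, inv_mul_le_iff₀ (by positivity)]
    refine h.trans ?_
    have a1 : ((4 * t * 2 ^ t : ℕ) : ℝ) ≤ (2 ^ t) ^ 2 := by
      rw [sq]; exact_mod_cast Nat.mul_le_mul_right _ n6
    have a2 : (j : ℝ) ≤ 2 ^ t := by exact_mod_cast j1
    have a3 : (4 : ℝ) ^ (2 * t + (2 * (5 * t) + 1)) = 4 * (2 ^ t) ^ 24 := by
      rw [← pow_mul, show t * 24 = 2 * (12 * t) by ring, pow_mul,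
        show 2 * t + (2 * (5 * t) + 1) = 12 * t + 1 by ring, pow_succ']
      norm_num
    rw [a3]
    calc _ ≤ (2 ^ t) ^ 2 * (2 * 2 ^ t * (4 * (2 ^ t) ^ 24) *
        (((16 * 16 ^ s : ℕ) : ℝ) * (1 / (2 ^ t) ^ 33))) := by gcongr
      _ = _ := by push_cast; field_simp; norm_num
  · calc 2 * j * (2 ^ 2 ^ t) ^ (2 * t) ≤ 2 * 2 ^ t * (2 ^ 2 ^ t) ^ (2 * t) := by gcongr
      _ < _ := by
        rw [← pow_succ', ← pow_mul, ← pow_add]
        exact Nat.pow_lt_pow_right (by norm_num) (by nlinarith)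
  · have a1 : ((16 * 16 ^ s : ℕ) : ℝ) ≤ 2 ^ e * (16 * 16 ^ s : ℕ) :=
      le_mul_of_one_le_left (by positivity) (one_le_pow₀ (by norm_num))
    have a2 : (t : ℝ) ≤ (16 * 16 ^ s : ℕ) := by
      rw [e16]; exact_mod_cast n1.le.trans (Nat.pow_le_pow_right (by norm_num) (by omega))
    have a3 : (2 : ℝ) ^ t ≤ log (2 ^ e * (16 * 16 ^ s : ℕ)) := by
      refine le_trans ?_ (log_le_log (by positivity) a1)
      rw [e16]; push_cast
      have : (2 : ℝ) * 2 ^ t ≤ (4 * (s + 1) : ℕ) := by exact_mod_cast (by omega)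
      rw [log_pow]
      nlinarith [log_two_gt_d9, show (0 : ℝ) < 2 ^ t by positivity]
    refine (hX _ (t1.trans (a2.trans a1)) _ (-1) ?_).trans ?_
    · rw [show (1 / 2 - 1 / 4 : ℝ) = ((4 : ℕ) : ℝ)⁻¹ by norm_num,
        le_rpow_inv_iff_of_pos (by positivity) (by positivity) (by norm_num), rpow_natCast]
      refine le_trans ?_ a1
      rw [e16, ← pow_mul, ← pow_add]
      exact_mod_cast (pow_mul 2 _ 4).ge.trans (Nat.pow_le_pow_right (by norm_num) (by nlinarith))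
    · rw [mul_one_div]
      gcongr

theorem core {d η : ℝ} (d0 : 0 < d) (d1 : d ≤ 1 / 2) (h0 : 0 < η) : ∀ᶠ t : ℕ in atTop,
    ∃ (T : Finset ℕ) (M : ℕ), (M : ℝ) ≤ exp (log 2 * (1 + d / 4) * t) ∧
      (∀ p ∈ T, p.Prime ∧ 6 ≤ p ∧ p ≤ 2 ^ M) ∧
      Ex T (FF ⌈exp (log 2 * (1 - log 2 + d) * t)⌉₊ (2 ^ 2 ^ t)) ≤ η := by
  obtain ⟨C, C0, -, hC⟩ := mert2
  obtain ⟨c, c0, hc⟩ := win1
  have l1 := log_two_gt_d9
  have l2 := log_two_lt_d9
  filter_upwards [hc, avg2, ev_log 5 (show 0 < d / 50 by positivity), ev_log 1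
    (show 0 < d / 8 by positivity), ev_ge ((2 * C + 1) / (d / 8)), ev_ge 125, ev_lg 7, ev_lg c,
    ev_lg (-log (η / 3) / c), ev_ge (16 / d ^ 2 / (η / 3)), ev_ge (8 / (η / 3))]
    with t h1 h2 t1 t2 t3 t4 t5 t6 t7 t8 t9
  have t10 : 125 ≤ t := by exact_mod_cast t4
  have t0 : (0 : ℝ) < t := by linarith
  have n1 : t < 2 ^ t := Nat.lt_two_pow_self
  have n2 : (t : ℝ) ≤ 2 ^ t := by exact_mod_cast n1.le
  have e2 : ∀ k : ℕ, (2 : ℝ) ^ k = exp (log 2 * k) := fun k => by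
    rw [mul_comm, exp_nat_mul, exp_log two_pos]
  obtain ⟨L, hL⟩ : ∃ L : ℝ, L = log t := ⟨_, rfl⟩
  rw [← hL] at h1 t1 t2 t5 t6 t7
  rw [pow_one] at t2
  rw [div_le_iff₀ (by positivity)] at t3 t8 t9
  obtain ⟨J, hJ⟩ : ∃ J, J = ⌈exp (log 2 * (1 - log 2 + d) * t)⌉₊ := ⟨_, rfl⟩
  have J1 : exp (log 2 * (1 - log 2 + d) * t) ≤ J := hJ ▸ Nat.le_ceil _
  have J2 : J ≤ 2 ^ t := by
    rw [hJ, Nat.ceil_le]; push_cast
    rw [e2]; exact exp_le_exp.2 (by gcongr; nlinarith)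
  obtain ⟨r, hr⟩ : ∃ r, r = ⌈L ^ 4⌉₊ := ⟨_, rfl⟩
  have r1 : L ^ 4 ≤ r := hr ▸ Nat.le_ceil _
  have L4 : 2 ≤ L ^ 4 := le_trans (by norm_num) (pow_le_pow_left₀ (by norm_num) t5 4)
  have r2 : (r : ℝ) ≤ L ^ 4 + 1 := hr ▸ (Nat.ceil_lt_add_one (by positivity)).le
  set m : ℕ → ℕ := fun i => 2 ^ t * (1000 * t) ^ i with hm
  have m1 : ∀ i j, i ≤ j → m i ≤ m j := fun i j h =>
    Nat.mul_le_mul_left _ (Nat.pow_le_pow_right (by omega) h)
  have m2 : ∀ i, 2 ^ t ≤ m i := fun i => by simpa [hm] using m1 0 i (Nat.zero_le _)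
  have m3 : ((t ^ 2 * m r : ℕ) : ℝ) ≤ exp (log 2 * (1 + d / 4) * t) := by
    have a1 : (1000 * t : ℝ) ≤ exp (2 * L) := by
      rw [two_mul, exp_add]
      nth_rw 2 [hL]
      rw [exp_log t0]
      refine mul_le_mul_of_nonneg_right (le_trans ?_ (exp_le_exp.2 t5)) t0.le
      rw [show (7 : ℝ) = (7 : ℕ) * 1 by norm_num, exp_nat_mul]
      exact le_trans (by norm_num) (pow_le_pow_left₀ (by norm_num)
        (show 2.7 ≤ exp 1 by linarith [exp_one_gt_d9]) 7)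
    calc _ = 2 ^ t * ((t : ℝ) ^ 2 * (1000 * t) ^ r) := by simp only [hm]; push_cast; ring
      _ ≤ 2 ^ t * (exp (2 * L) ^ 2 * exp (2 * L) ^ r) := by gcongr; linarith
      _ ≤ _ := by
        rw [← pow_add, ← exp_nat_mul, e2, ← exp_add]
        push_cast
        refine exp_le_exp.2 ?_
        have : (2 + r) * (2 * L) ≤ 3 * L ^ 4 * (2 * L) := by gcongr; linarith
        nlinarith [mul_pos d0 t0]
  have m4 : t ^ 2 * m r ≤ 2 ^ (2 * t) := by
    have := m3.trans (exp_le_exp.2 (show _ ≤ log 2 * (2 * t : ℕ) by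
      push_cast; nlinarith [mul_pos (show 0 < log 2 by linarith) t0]))
    rw [← e2] at this
    exact_mod_cast this
  have m5 : ∀ i, m i ≤ t ^ 2 * m i := fun i => Nat.le_mul_of_pos_left _ (by positivity)
  set T := pi2 (2 ^ (2 * t)) (2 ^ 2 ^ t)
  set W : ℕ → Finset ℕ := fun i => pi2 (2 ^ m i) (2 ^ (m i * (1000 * t)))
  have m6 : ∀ i, m i * (1000 * t) = m (i + 1) := fun i => by simp only [hm]; ring
  have pw : ∀ {a b : ℕ}, a ≤ b → 2 ^ a ≤ 2 ^ b := Nat.pow_le_pow_right (by norm_num)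
  have z1 : 2 * t ≤ 2 ^ t := by
    obtain ⟨v, rfl⟩ : ∃ v, t = v + 1 := ⟨t - 1, by omega⟩
    have := Nat.lt_two_pow_self (n := v)
    rw [pow_succ]; omega
  refine ⟨T ∪ (range r).biUnion W, m r, (Nat.cast_le.2 (m5 r)).trans m3, fun p hp => ?_, ?_⟩
  · have z2 : 6 ≤ 2 ^ (2 * t) := le_trans (by norm_num) (pw (show 3 ≤ 2 * t by omega))
    rcases mem_union.1 hp with h | h
    · obtain ⟨a, b, c⟩ := mem_pi2.1 h
      exact ⟨a, by omega, c.trans (pw (m2 r))⟩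
    · obtain ⟨i, hi, h⟩ := mem_biUnion.1 h
      obtain ⟨a, b, c⟩ := mem_pi2.1 h
      exact ⟨a, z2.trans ((pw (z1.trans (m2 i))).trans b.le),
        c.trans (pw (m6 i ▸ m1 _ _ (mem_range.1 hi)))⟩
  rw [← hJ, Ex_union ((disjoint_biUnion_right _ _ _).2 fun i _ => disjoint_left.2 fun p p1 p2 =>
    (mem_pi2.1 p2).2.1.not_ge ((mem_pi2.1 p1).2.2.trans (pw (m2 i))))]
  set u : ℕ → ℕ → ℕ → Finset ℕ → ℝ := fun i s j S => (16 * (16 ^ s : ℕ) : ℝ)⁻¹ *
    if S.card ≤ 2 * t then ∑ A ∈ S.powerset,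
      err (2 ^ m i) (5 * t) (XX (16 * 16 ^ s) (uf (j, A))) (uf (j, A)) else 0
  have u0 : ∀ i s j S, 0 ≤ u i s j S := fun i s j S => mul_nonneg (by positivity) (by
    split_ifs; exacts [sum_nonneg fun _ _ => err_nonneg _ _ _ _, le_rfl])
  set I : ℕ → Finset ℕ := fun i => Ico (125 * (m i * t)) (250 * (m i * t))
  have a1 := abs_le.1 (hC (2 ^ t) Nat.one_le_two_pow)
  have a2 := abs_le.1 (hC (2 * t) (by omega))
  push_cast at a1 a2
  rw [log_pow] at a1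
  rw [log_mul (by norm_num) t0.ne', ← hL] at a2
  have a3 : lam T = _ := lam_pi2 (pw z1)
  have a4 := lam_nonneg (Nat.primesLE (2 ^ (2 * t)))
  have dt := mul_le_mul_of_nonneg_right d1 t0.le
  have a5 : lam T ≤ t := by nlinarith
  have q0 : 0 ≤ 1 - c / L ^ 3 := by
    rw [sub_nonneg, div_le_one (by positivity)]
    exact t6.trans (le_self_pow₀ (by linarith) (by norm_num))
  refine (Ex_mono (g := fun S => ((if d / 4 * t ≤ |(S.card : ℝ) - lam T| then 1 else 0) +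
    ∑ i ∈ range r, ∑ s ∈ I i, ∑ j ∈ Icc 1 J, u i s j S) + (1 - c / L ^ 3) ^ r) fun S hS => ?_).trans ?_
  · have b0 : 0 ≤ ∑ i ∈ range r, ∑ s ∈ I i, ∑ j ∈ Icc 1 J, u i s j S :=
      sum_nonneg fun _ _ => sum_nonneg fun _ _ => sum_nonneg fun _ _ => u0 _ _ _ _
    have b1 : Ex ((range r).biUnion W) (fun D => FF J (2 ^ 2 ^ t) (S ∪ D)) ≤ 1 :=
      (Ex_mono fun _ _ => (FF_mem _ _ _).2).trans (Ex_const _ _).le
    have b2 := pow_nonneg q0 r
    split_ifs with b3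
    · linarith
    rcases le_total 1 (∑ i ∈ range r, ∑ s ∈ I i, ∑ j ∈ Icc 1 J, u i s j S) with b4 | b4
    · linarith
    obtain ⟨b5, b6⟩ := abs_lt.1 (not_le.1 b3)
    have b7 : S.card ≤ 2 * t := by
      have : (S.card : ℝ) ≤ 2 * t := by linarith
      exact_mod_cast this
    have b8 : t ^ 2 * m r ≤ J * 2 ^ S.card := by
      have : ((t ^ 2 * m r : ℕ) : ℝ) ≤ J * 2 ^ S.card := by
        refine m3.trans (le_trans ?_ (mul_le_mul_of_nonneg_right J1 (by positivity)))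
        rw [e2, ← exp_add, mul_assoc, mul_assoc, ← mul_add]
        exact exp_le_exp.2 (mul_le_mul_of_nonneg_left (by linarith) (by linarith))
      exact_mod_cast this
    refine (Ex_windows (fun D => (FF_mem _ _ _).1) (FF_mem _ _ _).2 (FF_mul _ _ S) W r
      (fun i j h => disjoint_left.2 fun p p1 p2 => (mem_pi2.1 p2).2.1.not_ge
        ((mem_pi2.1 p1).2.2.trans (pw (m6 i ▸ m1 _ _ h)))) fun i hi => ?_).trans (by linarith)
    refine h1 J (m i) S (le_trans (exp_le_exp.2 (by gcongr; nlinarith)) J1) J2 (m2 i)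
      ((m1 _ _ hi.le).trans ((m5 r).trans m4)) (fun p hp => mem_pi2.1 (hS hp)) b7
      ((Nat.mul_le_mul_left _ (m1 _ _ hi.le)).trans b8) fun s hs => ?_
    have b9 := ((single_le_sum (f := fun s => ∑ j ∈ Icc 1 J, u i s j S)
      (fun _ _ => sum_nonneg fun _ _ => u0 _ _ _ _) hs).trans (single_le_sum
      (f := fun i => ∑ s ∈ I i, ∑ j ∈ Icc 1 J, u i s j S) (fun _ _ => sum_nonneg fun _ _ =>
      sum_nonneg fun _ _ => u0 _ _ _ _) (mem_range.2 hi))).trans b4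
    simp only [u, if_pos b7] at b9
    rwa [← mul_sum, inv_mul_le_iff₀ (by positivity), mul_one, ← sum_product'] at b9
  rw [Ex_add, Ex_add, Ex_const, Ex_sum]
  have f1 := (Ex_cheb T (show 0 < d / 4 * t by positivity)).trans
    (show _ ≤ η / 3 by
      rw [div_le_iff₀ (by positivity)]
      rw [div_le_iff₀ (by positivity)] at t8
      nlinarith [mul_le_mul_of_nonneg_left t8 t0.le])
  have f2 : (1 - c / L ^ 3) ^ r ≤ η / 3 := by
    refine (pow_le_pow_left₀ q0 (one_sub_le_exp_neg _) r).trans ?_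
    rw [← exp_nat_mul, ← exp_log (show 0 < η / 3 by positivity)]
    rw [div_le_iff₀ c0] at t7
    have : L * c ≤ r * (c / L ^ 3) := le_trans (le_of_eq (by field_simp))
      (mul_le_mul_of_nonneg_right r1 (by positivity))
    exact exp_le_exp.2 (by linarith)
  have f3 : ∑ i ∈ range r, Ex T (fun S => ∑ s ∈ I i, ∑ j ∈ Icc 1 J, u i s j S) ≤ η / 3 := by
    refine (sum_le_card_nsmul _ _ ((2 ^ t) ^ 2 * (2 ^ t * (8 / (2 ^ t) ^ 6))) fun i hi => ?_).trans ?_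
    · rw [Ex_sum]
      refine (sum_le_card_nsmul _ _ (2 ^ t * (8 / (2 ^ t) ^ 6)) fun s hs => ?_).trans ?_
      · rw [Ex_sum]
        refine (sum_le_card_nsmul _ _ _ fun j hj => h2 j (m i) s (mem_Icc.1 hj).1
          ((mem_Icc.1 hj).2.trans J2) (m2 i) (mem_Ico.1 hs).1).trans ?_
        rw [nsmul_eq_mul, Nat.card_Icc, Nat.add_sub_cancel]
        exact mul_le_mul_of_nonneg_right (by exact_mod_cast J2) (by positivity)
      · rw [nsmul_eq_mul, Nat.card_Ico]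
        refine mul_le_mul_of_nonneg_right ?_ (by positivity)
        rw [← pow_mul, mul_comm t 2]
        have := Nat.mul_le_mul_left (t ^ 2) (m1 _ _ (mem_range.1 hi).le)
        have : 125 * (m i * t) ≤ t ^ 2 * m i := by
          rw [show t ^ 2 * m i = t * (m i * t) by ring]; gcongr
        exact_mod_cast (by omega)
    · rw [nsmul_eq_mul, card_range]
      have b1 : (r : ℝ) ≤ 2 ^ t := by nlinarith
      have b2 : (1 : ℝ) ≤ 2 ^ t := by linarith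
      generalize (2 : ℝ) ^ t = n at *
      calc _ ≤ n * (n ^ 2 * (n * (8 / n ^ 6))) := by gcongr
        _ = 8 / n ^ 2 := by field_simp
        _ ≤ _ := by rw [div_le_iff₀ (by positivity)]; nlinarith
  linarith

end Pool.Agent.Lib.MP_143a03_nt.NO
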