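import Pool.Agent.Lib.MP_143a03_nt.NO.H

/-!
Normal order of the congruence number: the lower bound.
-/

open Finset Real Filter

namespace Pool.Agent.Lib.MP_143a03_nt.NO

/-- Every residue class is a signed sum of `m` powers. -/
def Cg (k m : ℕ) : Prop := ∀ q : ℕ, 0 < q → ∀ n : ℤ, ∃ (y : Fin m → ℕ) (s : Fin m → ℤ),
  (∀ i, s i = 1 ∨ s i = -1) ∧ (q : ℤ) ∣ n - ∑ i, s i * (y i : ℤ) ^ k

theorem loc {j d k m : ℕ} (hl : (j * d + 1).Prime) (hd : d ∣ k) (hk : k ≠ 0) (hj : 0 < j)
    (hc : Cg k m) : j * d + 1 ≤ (2 * m + 1) ^ j := by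
  obtain ⟨l, e⟩ : ∃ l, l = j * d + 1 := ⟨_, rfl⟩
  rw [← e] at hl ⊢
  have := Fact.mk hl
  set H : Finset (ZMod l) := (Polynomial.nthRoots j 1).toFinset
  have h1 : H.card ≤ j := (Multiset.toFinset_card_le _).trans (Polynomial.card_nthRoots j 1)
  have h2 : (univ : Finset (ZMod l)) ⊆ (Fintype.piFinset fun _ : H => Icc (-m : ℤ) m).image
      fun c => ∑ h : H, (c h : ZMod l) * h := by
    intro n _
    obtain ⟨y, s, s1, s2⟩ := hc l hl.pos (n.val : ℤ)
    refine mem_image.2 ⟨fun h => ∑ i, if (y i : ZMod l) ^ k = h then s i else 0,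
      Fintype.mem_piFinset.2 fun h => mem_Icc.2 (abs_le.1 ((abs_sum_le_sum_abs _ _).trans
        ((sum_le_card_nsmul _ _ 1 fun i _ => ?_).trans (by simp)))), ?_⟩
    · split_ifs
      · rcases s1 i with h | h <;> simp [h]
      · simp
    · have s3 := (ZMod.intCast_zmod_eq_zero_iff_dvd _ _).2 s2
      push_cast at s3 ⊢
      rw [ZMod.natCast_zmod_val, sub_eq_zero] at s3
      simp only [s3, sum_mul, ite_mul, zero_mul]
      rw [sum_comm]
      refine sum_congr rfl fun i _ => ?_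
      rw [sum_coe_sort H fun h => if (y i : ZMod l) ^ k = h then (s i : ZMod l) * h else 0,
        sum_ite_eq]
      split_ifs with h
      · rfl
      · rw [not_not.1 fun h0 : (y i : ZMod l) ≠ 0 => h ?_, zero_pow hk, mul_zero]
        obtain ⟨c, rfl⟩ := hd
        have := ZMod.pow_card_sub_one_eq_one h0
        rw [show l - 1 = j * d by omega] at this
        rw [Multiset.mem_toFinset, Polynomial.mem_nthRoots hj, ← pow_mul,
          show d * c * j = j * d * c by ring, pow_mul, this, one_pow]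
  have h3 := (card_le_card h2).trans card_image_le
  rw [card_univ, ZMod.card, Fintype.card_piFinset, prod_const, card_univ, Fintype.card_coe,
    Int.card_Icc, show ((m : ℤ) + 1 - -m).toNat = 2 * m + 1 by omega] at h3
  exact h3.trans (Nat.pow_le_pow_right (by omega) h1)

open Classical in
theorem lower0 {d η : ℝ} (d0 : 0 < d) (d1 : d ≤ 1 / 4) (h0 : 0 < η) : ∀ᶠ x : ℕ in atTop,
    (((Icc 1 x).filter fun k => ∃ m, Cg k m ∧ (m : ℝ) < exp (log x ^ (log 2 - 2 * d))).card : ℝ) ≤
      η * x := by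
  have l1 := log_two_gt_d9
  have l2 := log_two_lt_d9
  have a0 : 0 < log 2 * (1 + d / 2) := by positivity
  have hb := tendsto_log_atTop.comp (tendsto_log_atTop.comp (tendsto_natCast_atTop_atTop (R := ℝ)))
  have ht := (tendsto_nat_floor_atTop (α := ℝ)).comp (hb.atTop_div_const a0)
  filter_upwards [ht.eventually ((core d0 (by linarith) (show 0 < η / 12 by positivity)).and
    ((ev_exp (1800 + 36 / η) 0 (show 0 < log 2 * (d / 4) by positivity)).and
    (ev_exp 60 0 (show 0 < log 2 * (d / 2) by positivity)))), eventually_ge_atTop 4,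
    ev_lg 1, ev_lg (-4 * log (η / 3))] with x ⟨⟨T, M, c1, c2, c3⟩, c4, c5⟩ x1 x2 x3
  simp only [Function.comp, pow_zero, mul_one] at c1 c3 c4 c5
  have x0 : (0 : ℝ) < x := by exact_mod_cast (by omega)
  obtain ⟨L, hL⟩ : ∃ L, L = log x := ⟨_, rfl⟩
  rw [← hL] at c1 c3 c4 c5 x2 x3 ⊢
  have b0 : 0 ≤ log L := log_nonneg x2
  have t1 := (le_div_iff₀ a0).1 (Nat.floor_le (div_nonneg b0 a0.le))
  have t2 := (div_lt_iff₀ a0).1 (Nat.lt_floor_add_one (log L / (log 2 * (1 + d / 2))))
  generalize ⌊log L / (log 2 * (1 + d / 2))⌋₊ = t at *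
  obtain ⟨J, hJ⟩ : ∃ J, J = ⌈exp (log 2 * (1 - log 2 + d) * t)⌉₊ := ⟨_, rfl⟩
  rw [← hJ] at c3
  have t0 : (0 : ℝ) ≤ t := Nat.cast_nonneg _
  have J1 : (J : ℝ) ≤ 2 * exp (log 2 * (1 - log 2 + d) * t) := by
    have : 1 ≤ exp (log 2 * (1 - log 2 + d) * t) :=
      one_le_exp (mul_nonneg (mul_nonneg (by linarith) (by linarith)) t0)
    linarith [hJ ▸ Nat.ceil_lt_add_one (exp_pos (log 2 * (1 - log 2 + d) * t)).le]
  have w1 := Nat.sqrt_le x
  have w2 := Nat.lt_succ_sqrt x
  have w3 : 1 < x.sqrt := Nat.le_sqrt.2 x1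
  have h1 := transfer (W := x.sqrt) (x := x) Nat.one_le_two_pow c2 w3 (Nat.sqrt_le_self x)
    fun S => ¬ Suc J (2 ^ 2 ^ t) S
  simp only [ite_not] at h1
  refine le_trans (Nat.cast_le.2 (card_le_card fun k hk => ?_)) (h1.trans ?_)
  · obtain ⟨k1, m, m1, m2⟩ := mem_filter.1 hk
    refine mem_filter.2 ⟨k1, fun ⟨j, j1, D, D1, D2, D3⟩ => ?_⟩
    obtain ⟨j2, j3⟩ := mem_Icc.1 j1
    have a1 := loc D2 (prod_primes_dvd _ (fun p hp => (c2 p (mem_filter.1 (D1 hp)).1).1.prime)
      fun p hp => (mem_filter.1 (D1 hp)).2) (by have := (mem_Icc.1 k1).1; omega) (by omega) m1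
    have a2 : 2 ^ 2 ^ t ≤ (2 * m + 1) ^ (2 * J) :=
      ((D3.trans (Nat.le_mul_of_pos_left _ (by omega))).trans (Nat.le_succ _)).trans
        (a1.trans (Nat.pow_le_pow_right (by omega) (by omega)))
    have a3 := log_le_log (by positivity) (Nat.cast_le (α := ℝ).2 a2)
    push_cast at a3
    rw [log_pow, log_pow] at a3
    push_cast at a3
    have a4 : 1 ≤ L ^ (log 2 - 2 * d) := one_le_rpow x2 (by linarith)
    have a5 : L ^ (log 2 - 2 * d) ≤ exp 1 * exp (log 2 * (log 2 - 3 / 2 * d) * t) := by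
      rw [rpow_def_of_pos (by linarith), ← exp_add]
      refine exp_le_exp.2 ((mul_le_mul_of_nonneg_right t2.le (by linarith)).trans ?_)
      have : log 2 * (1 + d / 2) * (log 2 - 2 * d) ≤ log 2 * (log 2 - 3 / 2 * d) := by
        rw [mul_assoc]; gcongr; nlinarith
      nlinarith [mul_le_mul_of_nonneg_left this t0]
    generalize L ^ (log 2 - 2 * d) = A at *
    have a6 : log (2 * m + 1) ≤ 3 * A := by
      rw [log_le_iff_le_exp (by positivity), show 3 * A = 2 * A + A by ring, exp_add]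
      nlinarith [add_one_le_exp (2 * A), add_one_le_exp A]
    have a7 : (2 : ℝ) ^ t = exp (log 2 * (d / 2) * t) * (exp (log 2 * (1 - log 2 + d) * t) *
        exp (log 2 * (log 2 - 3 / 2 * d) * t)) := by
      rw [← exp_add, ← exp_add, ← exp_log (show (0 : ℝ) < 2 ^ t by positivity), log_pow]
      congr 1; ring
    have a8 := mul_le_mul J1 (a6.trans (mul_le_mul_of_nonneg_left a5 (by norm_num)))
      (log_nonneg (by linarith [Nat.cast_nonneg (α := ℝ) m])) (by positivity)
    have a9 := mul_pos (exp_pos (log 2 * (1 - log 2 + d) * t))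
      (exp_pos (log 2 * (log 2 - 3 / 2 * d) * t))
    rw [a7] at a3
    have a10 := mul_le_mul_of_nonneg_right c5 a9.le
    generalize exp (log 2 * (d / 2) * t) = p at *
    generalize exp (log 2 * (1 - log 2 + d) * t) = q at *
    generalize exp (log 2 * (log 2 - 3 / 2 * d) * t) = r at *
    nlinarith [exp_one_lt_d9]
  · have a1 : (1800 + 36 / η) * exp (log 2 * (1 + d / 4) * t) ≤ L := by
      refine (mul_le_mul_of_nonneg_right c4 (exp_pos _).le).trans ?_
      rw [← exp_add, ← le_log_iff_exp_le (by linarith)]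
      linarith
    have a2 : 1 ≤ exp (log 2 * (1 + d / 4) * t) := one_le_exp (by positivity)
    have a3 : log (4 * (2 ^ M : ℕ)) ≤ 3 * exp (log 2 * (1 + d / 4) * t) := by
      push_cast
      rw [show (4 : ℝ) = 2 ^ 2 by norm_num, ← pow_add, log_pow]
      push_cast
      nlinarith [Nat.cast_nonneg (α := ℝ) M]
    generalize exp (log 2 * (1 + d / 4) * t) = E at *
    have a4 : 0 < 36 / η := by positivity
    have w4 : (2 : ℝ) ≤ x.sqrt := by exact_mod_cast w3
    have a5 : L ≤ 4 * log x.sqrt := by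
      rw [hL, show (4 : ℝ) = (4 : ℕ) by norm_num, ← log_pow]
      refine log_le_log x0 ?_
      have : x ≤ x.sqrt ^ 4 := by
        have : x.sqrt + 1 ≤ x.sqrt * x.sqrt := by nlinarith
        exact w2.le.trans ((Nat.mul_le_mul this this).trans_eq (by ring))
      exact_mod_cast this
    have a6 : (x.sqrt : ℝ) ≤ exp (L / 2) := by
      refine abs_le_of_sq_le_sq' ?_ (exp_pos _).le |>.2
      rw [sq, sq, ← exp_add, add_halves, hL, exp_log x0]
      exact_mod_cast w1
    have a7 : (4 * (2 ^ M : ℕ) : ℝ) ^ 144 ≤ exp (L / 4) := by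
      rw [← log_le_iff_le_exp (by positivity), log_pow]
      push_cast at a3 ⊢
      nlinarith
    have a8 : exp (L / 2) * exp (L / 4) ≤ η / 3 * x := by
      rw [← exp_log x0, ← hL, ← exp_log (show 0 < η / 3 by positivity), ← exp_add, ← exp_add]
      exact exp_le_exp.2 (by linarith)
    have a9 : x * log (4 * (2 ^ M : ℕ)) / log x.sqrt ≤ η / 3 * x := by
      rw [div_le_iff₀ (by linarith), mul_comm _ (x : ℝ), mul_assoc]
      refine mul_le_mul_of_nonneg_left (a3.trans ?_) x0.le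
      have : 36 / η * E ≤ 4 * log x.sqrt := by nlinarith
      rw [div_mul_eq_mul_div, div_le_iff₀ h0] at this
      linarith
    have a10 := mul_le_mul a6 a7 (by positivity) (exp_pos _).le
    have a11 := mul_le_mul_of_nonneg_left c3 (show (0 : ℝ) ≤ 4 * x by positivity)
    unfold FF at a11
    linarith

open Classical in
theorem lower {e : ℝ} (he : 0 < e) : Tendsto (fun x : ℕ => (((Icc 1 x).filter fun k : ℕ =>
    ∃ m, Cg k m ∧ (m : ℝ) < exp (log k ^ (log 2 - e))).card : ℝ) / x) atTop (nhds 0) := by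
  refine tendsto_order.2 ⟨fun a ha => Eventually.of_forall fun x => ha.trans_le (by positivity),
    fun η h0 => ?_⟩
  filter_upwards [lower0 (d := min (e / 2) (1 / 4)) (by positivity) (min_le_right _ _)
    (show 0 < η / 3 by positivity), ev_ge (6 / η), eventually_gt_atTop 0] with x h1 h2 h3
  have x0 : (0 : ℝ) < x := by exact_mod_cast h3
  rw [div_le_iff₀ h0] at h2
  rw [div_lt_iff₀ x0]
  set K := (Icc 1 x).filter fun k => ∃ m, Cg k m ∧
    (m : ℝ) < exp (log x ^ (log 2 - 2 * min (e / 2) (1 / 4)))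
  refine lt_of_le_of_lt (Nat.cast_le.2 ((card_le_card (t := K ∪ {1, 2}) fun k hk => ?_).trans
    (card_union_le _ _))) (by
      rw [Nat.cast_add, card_pair (by norm_num)]
      push_cast; linarith [mul_pos h0 x0])
  obtain ⟨k1, m, m1, m2⟩ := mem_filter.1 hk
  obtain ⟨k2, k3⟩ := mem_Icc.1 k1
  by_cases h : 3 ≤ k
  · refine mem_union_left _ (mem_filter.2 ⟨k1, m, m1, m2.trans_le (exp_le_exp.2 ?_)⟩)
    have k4 : (3 : ℝ) ≤ k := by exact_mod_cast h
    have k5 : 1 ≤ log k := by
      rw [le_log_iff_exp_le (by linarith)]; linarith [exp_one_lt_d9]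
    refine (rpow_le_rpow_of_exponent_le k5 (by linarith [min_le_left (e / 2) (1 / 4)])).trans
      (rpow_le_rpow (by linarith) (log_le_log (by linarith) (by exact_mod_cast k3)) ?_)
    linarith [min_le_right (e / 2) (1 / 4), log_two_gt_d9]
  · exact mem_union_right _ (by simp only [mem_insert, mem_singleton]; omega)

end Pool.Agent.Lib.MP_143a03_nt.NO
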