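import Mathlib

/-!
Normal order of the congruence number: finitely many signed powers suffice.
-/

open Finset

namespace Pool.Agent.Lib.MP_143a03_nt.NO

/-- `n` is a signed sum of `m` powers. -/
def Rp (k m : ℕ) (n : ℤ) : Prop :=
  ∃ (x : Fin m → ℕ) (ε : Fin m → ℤ), (∀ i, ε i = 1 ∨ ε i = -1) ∧ n = ∑ i, ε i * (x i : ℤ) ^ k

variable {k m m' : ℕ} {n n' : ℤ}

theorem Rp.add (h : Rp k m n) (h' : Rp k m' n') : Rp k (m + m') (n + n') := by
  obtain ⟨x, ε, h1, h2⟩ := h
  obtain ⟨x', ε', h1', h2'⟩ := h'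
  refine ⟨Fin.append x x', Fin.append ε ε', fun i => ?_, ?_⟩
  · refine Fin.addCases (fun i => ?_) (fun i => ?_) i
    · simpa using h1 i
    · simpa using h1' i
  · rw [Fin.sum_univ_add, h2, h2']
    simp

theorem Rp.neg (h : Rp k m n) : Rp k m (-n) := by
  obtain ⟨x, ε, h1, h2⟩ := h
  refine ⟨x, fun i => -ε i, fun i => ?_, ?_⟩
  · rcases h1 i with h | h <;> simp [h]
  · rw [h2, ← sum_neg_distrib]
    simp

theorem rp_pow (x : ℕ) : Rp k 1 ((x : ℤ) ^ k) :=
  ⟨fun _ => x, fun _ => 1, fun _ => Or.inl rfl, by simp⟩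

theorem rp_small (hk : k ≠ 0) (m : ℕ) : ∀ n : ℤ, |n| ≤ m → Rp k m n := by
  induction m with
  | zero =>
    intro n hn
    exact ⟨fun _ => 0, fun _ => 1, fun _ => Or.inl rfl, by simpa using hn⟩
  | succ m ih =>
    intro n hn
    push_cast at hn
    have h1 : Rp k 1 1 := by simpa using rp_pow (k := k) 1
    have h0 : Rp k 1 0 := by simpa [hk] using rp_pow (k := k) 0
    rw [abs_le] at hn
    rcases lt_trichotomy n 0 with h | h | h
    · simpa using (ih (n + 1) (by rw [abs_le]; omega)).add h1.neg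
    · simpa using (ih n (by rw [abs_le]; omega)).add h0
    · simpa using (ih (n - 1) (by rw [abs_le]; omega)).add h1

theorem rp_diff (k j : ℕ) : ∀ x : ℕ, Rp k (2 ^ j) ((fwdDiff 1)^[j] (fun r : ℤ => r ^ k) x) := by
  induction j with
  | zero => exact fun x => rp_pow x
  | succ j ih =>
    intro x
    rw [Function.iterate_succ_apply', fwdDiff, pow_succ, mul_two, sub_eq_add_neg]
    exact_mod_cast (ih (x + 1)).add (ih x).neg

theorem rp_all (hk : k ≠ 0) : ∃ m, 0 < m ∧ ∀ n : ℕ, 0 < n → Rp k m n := by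
  obtain ⟨j, rfl⟩ := Nat.exists_eq_succ_of_ne_zero hk
  set g := (fwdDiff 1)^[j] (fun r : ℤ => r ^ (j + 1)) with hg
  have h1 : ∀ x : ℤ, g (x + 1) - g x = (j + 1).factorial := by
    intro x
    have := congrFun (fwdDiff_iter_eq_factorial (R := ℤ) (n := j + 1)) x
    rwa [Function.iterate_succ_apply'] at this
  have h2 : ∀ x : ℕ, g x = g 0 + (j + 1).factorial * x := by
    intro x
    induction x with
    | zero => simp
    | succ x ih => push_cast; linear_combination ih + h1 x
  refine ⟨2 ^ j + ((j + 1).factorial + (g 0).natAbs), by positivity, fun n _ => ?_⟩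
  have h3 := (rp_diff (j + 1) j (n / (j + 1).factorial)).add
    (rp_small hk ((j + 1).factorial + (g 0).natAbs) ((n % (j + 1).factorial : ℕ) - g 0) (by
      have := Nat.mod_lt n (j + 1).factorial_pos
      rw [abs_le]
      omega))
  rw [← hg, h2] at h3
  have h4 : ((j + 1).factorial : ℤ) * (n / (j + 1).factorial : ℕ) +
      (n % (j + 1).factorial : ℕ) = n := by exact_mod_cast Nat.div_add_mod n (j + 1).factorial
  rwa [show g 0 + ((j + 1).factorial : ℤ) * (n / (j + 1).factorial : ℕ) +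
    ((n % (j + 1).factorial : ℕ) - g 0) = n by linear_combination h4] at h3

end Pool.Agent.Lib.MP_143a03_nt.NO
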