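import Pool.Agent.Lib.MP_143a03_nt.NO.UOm

/-!
Few exponents have a large prime with a small group of powers.
-/

open Finset Real
open scoped ArithmeticFunction.Omega

namespace Pool.Agent.Lib.MP_143a03_nt.NO

open Pool.Agent.Lib.MP_778b46_nt Pool.Agent.Lib.MP_b09490_nt.No

lemma u_one_le_gw (a : ℕ) : 1 ≤ gw a := by
  calc (1 : ℝ) = ∏ _l ∈ a.primeFactors, (1 : ℝ) := by simp
    _ ≤ _ := prod_le_prod (fun _ _ => zero_le_one) fun l hl => by
        linarith [uu_pos (Nat.prime_of_mem_primeFactors hl)]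

lemma u_pair : ∃ C : ℝ, 0 < C ∧ ∀ j : ℕ, 16 ≤ j → ∀ a : ℕ, a ≠ 0 →
    (((blk j).filter fun q => (a * q + 1).Prime).card : ℝ) ≤ C * gw a * 2 ^ j / j ^ 2 := by
  refine ⟨2 * (3 * 16 * cM ^ 2) ^ 2 * exp 18 + 256, by positivity, fun j hj a ha => ?_⟩
  have hr := ratio_all_le (d := 16) (by norm_num) hj
  set R := 2 ^ (j / 16) with hR
  set P := Nat.primesLE R with hP0
  have hR1 : 1 ≤ R := Nat.one_le_two_pow
  have hP := primes_of_subset (subset_refl P)
  have h := pc hP hP hR1 hR1 ha 0 (2 ^ (j + 1))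
  have hRj : R < 2 ^ j := Nat.pow_lt_pow_right (by norm_num) (by omega)
  have h1 : (((blk j).filter fun q => (a * q + 1).Prime).card : ℝ) ≤
      ∑ s ∈ Ioc (0 : ℤ) (0 + (2 ^ (j + 1) : ℕ)), nu P R s * nu P R (a * s + 1) := by
    calc _ = ∑ s ∈ ((blk j).filter fun q => (a * q + 1).Prime).image (Nat.cast : ℕ → ℤ),
          nu P R s * nu P R (a * s + 1) := by
          rw [sum_image (fun _ _ _ _ h => Nat.cast_injective h), card_eq_sum_ones, Nat.cast_sum]
          refine sum_congr rfl fun q hq => ?_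
          obtain ⟨hq1, hq2⟩ := mem_filter.mp hq
          have h3 := mem_blk.mp hq1
          have h4 : q ≤ a * q := Nat.le_mul_of_pos_left _ (by omega)
          have e1 := nu_prime (subset_refl P) hR1 h3.1 (by omega)
          have e2 := nu_prime (subset_refl P) hR1 hq2 (by omega)
          push_cast at e2
          rw [e1, e2, mul_one, Nat.cast_one]
      _ ≤ _ := by
          refine sum_le_sum_of_subset_of_nonneg (fun s hs => ?_) fun _ _ _ =>
            mul_nonneg (nu_nonneg _) (nu_nonneg _)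
          obtain ⟨q, hq, rfl⟩ := mem_image.mp hs
          have h3 := mem_blk.mp (mem_filter.mp hq).1
          rw [zero_add]
          exact mem_Ioc.mpr ⟨by exact_mod_cast h3.1.pos, by exact_mod_cast h3.2.2.le⟩
  have h2 : R ^ 4 * R ^ 4 * j ^ 2 ≤ 256 * 2 ^ j := by
    have h3 : j / 16 + 1 ≤ R := Nat.lt_two_pow_self
    have h4 : j ≤ 16 * R := by omega
    calc _ ≤ R ^ 4 * R ^ 4 * (16 * R) ^ 2 := by gcongr
      _ = 256 * 2 ^ (j / 16 * 10) := by rw [pow_mul, ← hR]; ring
      _ ≤ _ := by gcongr <;> omega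
  have h3 : (R : ℝ) ^ 4 * (R : ℝ) ^ 4 * (j : ℝ) ^ 2 ≤ 256 * 2 ^ j := by exact_mod_cast h2
  have hj' : (0 : ℝ) < j := by exact_mod_cast (by omega : 0 < j)
  have hg := u_one_le_gw a
  have h0 : 0 ≤ mert P / gg P R ^ 2 := by
    have := one_le_mert hP
    positivity
  refine h1.trans (h.trans ?_)
  calc _ ≤ ((2 ^ (j + 1) : ℕ) : ℝ) * (3 * (16 : ℕ) * cM ^ 2 / j) * (3 * (16 : ℕ) * cM ^ 2 / j) *
        exp 18 * gw a + 256 * gw a * 2 ^ j / j ^ 2 := by
        gcongr
        rw [le_div_iff₀ (by positivity)]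
        have : (0 : ℝ) < 2 ^ j := by positivity
        nlinarith
    _ = _ := by push_cast; field_simp; ring

/-- A large prime with a small group of `k`-th powers. -/
def uBad (A L : ℝ) (k : ℕ) : Prop := ∃ p : ℕ, p.Prime ∧ 3 * A < log p ∧ log p ≤ 2 * L ∧
  A * ((p - 1) / Nat.gcd (p - 1) k).totient < log p

lemma u_struct {A L : ℝ} {W k : ℕ} (hW : 1 ≤ W) (h1 : 16 * L ^ 2 ≤ 2 ^ (4 * W))
    (h2 : 32 * L ^ 2 ≤ exp A) (h3 : 32 * (W : ℝ) ≤ A) (hk : k ≠ 0) (hO : Ω k ≤ W)
    (h : uBad A L k) : ∃ j t n d q : ℕ, 16 ≤ j ∧ q ∈ blk j ∧ 1 ≤ t ∧ A * t ≤ 10 * W ^ 2 * j ∧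
      Ω t ≤ 4 * W ∧ q * n = k ∧ d ∣ n ∧ (t * d * q + 1).Prime := by
  obtain ⟨p, hp, b1, b2, b3⟩ := h
  have hW' : (1 : ℝ) ≤ W := by exact_mod_cast hW
  have hp2 := hp.two_le
  obtain ⟨t, ht⟩ := Nat.gcd_dvd_left (p - 1) k
  set D := Nat.gcd (p - 1) k with hD
  have hDk : D ∣ k := Nat.gcd_dvd_right _ _
  have hD0 : 0 < D := Nat.gcd_pos_of_pos_right _ (by omega)
  have e : (p - 1) / D = t := by rw [ht, Nat.mul_div_cancel_left _ hD0]
  rw [e] at b3
  have ht0 : t ≠ 0 := by rintro rfl; omega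
  have hf : (0 : ℝ) ≤ t.totient := by positivity
  have c1 : (t.totient : ℝ) ≤ 2 * L := by nlinarith
  have c2 : (t : ℝ) ≤ 16 * L ^ 2 := by
    have : (t : ℝ) ≤ 4 * (t.totient : ℝ) ^ 2 := by exact_mod_cast u_le_tot_sq ht0
    nlinarith
  have c3 : Ω t ≤ 4 * W := by
    have : t ≤ 2 ^ (4 * W) := by exact_mod_cast c2.trans h1
    exact (Nat.pow_le_pow_iff_right (by norm_num)).mp ((u_two_pow ht0).trans this)
  have c4 : (t : ℝ) ≤ t.totient * (5 * W) := by
    have : t ≤ t.totient * (5 * W) :=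
      (u_tot t).trans (Nat.mul_le_mul_left _ (by have := u_om_le t; omega))
    exact_mod_cast this
  have hD' : (0 : ℝ) < D := by exact_mod_cast hD0
  have c5 : log p ≤ A + log D := by
    have h5 : p ≤ 2 * t * D := by
      have : 1 ≤ D * t := Nat.mul_pos hD0 (by omega)
      have : 2 * t * D = 2 * (D * t) := by ring
      omega
    have h6 : (p : ℝ) ≤ 2 * t * D := by exact_mod_cast h5
    calc log p ≤ log (exp A * D) := log_le_log (by exact_mod_cast hp.pos) (by nlinarith)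
      _ = _ := by rw [log_mul (exp_pos _).ne' hD'.ne', log_exp]
  have hD1 : 1 < D := by
    by_contra hc
    have : D = 1 := by omega
    rw [this, Nat.cast_one, log_one] at c5
    linarith
  obtain ⟨q, hq, hqD, hle⟩ := u_big_prime hD1
  have c6 : log D ≤ W * log q := by
    have : D ≤ q ^ W := hle.trans (Nat.pow_le_pow_right hq.pos ((u_Om_mono hk hDk).trans hO))
    rw [← log_pow]
    exact log_le_log hD' (by exact_mod_cast this)
  have hb := mem_blk_log hq
  set j := Nat.log 2 q with hj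
  have c7 : log q ≤ (j + 1) * log 2 := by
    have := log_le_log (by exact_mod_cast hq.pos : (0 : ℝ) < q)
      (show (q : ℝ) ≤ 2 ^ (j + 1) by exact_mod_cast (mem_blk.mp hb).2.2.le)
    rwa [log_pow, Nat.cast_add, Nat.cast_one] at this
  have l2 := log_two_lt_d9
  have hj0 : (0 : ℝ) ≤ j := by positivity
  have c8 : 48 ≤ log q := by
    by_contra hc
    nlinarith
  have c9 : (16 : ℝ) ≤ j := by nlinarith
  have c10 : log q ≤ j := by nlinarith
  obtain ⟨d, hd⟩ := hqD
  obtain ⟨c, hc⟩ := hDk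
  refine ⟨j, t, d * c, d, q, by exact_mod_cast c9, hb, by omega, ?_, c3, by rw [hc, hd]; ring,
    dvd_mul_right _ _, ?_⟩
  · calc A * t ≤ A * (t.totient * (5 * W)) := by gcongr; linarith
      _ = A * t.totient * (5 * W) := by ring
      _ ≤ (2 * (W * j)) * (5 * W) := by
          refine mul_le_mul_of_nonneg_right ?_ (by positivity)
          nlinarith [mul_le_mul_of_nonneg_left c10 (by positivity : (0 : ℝ) ≤ W)]
      _ = _ := by ring
  · have : t * d * q = D * t := by rw [hd]; ring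
    rw [this, ← ht, Nat.sub_add_cancel (by omega)]
    exact hp

lemma u_bi {α β : Type*} [DecidableEq β] (s : Finset α) (f : α → Finset β) {B N : ℝ}
    (hB : 0 ≤ B) (hN : (s.card : ℝ) ≤ N) (h : ∀ a ∈ s, ((f a).card : ℝ) ≤ B) :
    ((s.biUnion f).card : ℝ) ≤ N * B := by
  have h1 := (Nat.cast_le (α := ℝ)).mpr (card_biUnion_le (s := s) (t := f))
  push_cast at h1
  have h2 := sum_le_card_nsmul _ _ _ h
  rw [nsmul_eq_mul] at h2
  exact h1.trans (h2.trans (by gcongr))

open Classical in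
theorem u_count : ∃ C : ℝ, 0 < C ∧ ∀ (x W : ℕ) (A : ℝ), 1 ≤ W →
    16 * log x ^ 2 ≤ 2 ^ (4 * W) → 32 * log x ^ 2 ≤ exp A → 32 * (W : ℝ) ≤ A →
    (((Ioc 0 x).filter fun k : ℕ => Ω k ≤ W ∧ uBad A (log x) k).card : ℝ) ≤
      C * x * (2 ^ W * W ^ 6 / A) := by
  obtain ⟨C, hC, hpair⟩ := u_pair
  refine ⟨6480 * C, by positivity, fun x W A hW h1 h2 h3 => ?_⟩
  have hW' : (1 : ℝ) ≤ W := by exact_mod_cast hW
  have hA : 0 < A := by linarith
  set J := Nat.log 2 x with hJ
  set F : ℕ → Finset ℕ := fun j =>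
    ((Icc 1 ⌊10 * W ^ 2 * j / A⌋₊).filter fun t => Ω t ≤ 4 * W).biUnion fun t =>
      ((Ioc 0 (x / 2 ^ j)).filter fun n => Ω n ≤ W).biUnion fun n =>
        n.divisors.biUnion fun d =>
          ((blk j).filter fun q => (t * d * q + 1).Prime).image (· * n) with hF
  have hs : ((Ioc 0 x).filter fun k : ℕ => Ω k ≤ W ∧ uBad A (log x) k) ⊆
      (Icc 16 J).biUnion F := fun k hk => by
    obtain ⟨hk1, hO, hb⟩ := mem_filter.mp hk
    have hk2 := mem_Ioc.mp hk1
    obtain ⟨j, t, n, d, q, a1, a2, a3, a4, a5, a6, a7, a8⟩ := u_struct hW h1 h2 h3 hk2.1.ne' hO hb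
    have hn : 0 < n := Nat.pos_of_ne_zero (by rintro rfl; omega)
    have a9 : n * 2 ^ j ≤ x := by
      have := (mem_blk.mp a2).2.1
      calc _ ≤ n * q := by gcongr
        _ ≤ x := by rw [mul_comm]; omega
    simp only [hF, mem_biUnion, mem_filter, mem_Icc, mem_Ioc, mem_image, Nat.mem_divisors]
    refine ⟨j, ⟨a1, Nat.le_log_of_pow_le (by norm_num) ?_⟩, t, ⟨⟨a3, Nat.le_floor ?_⟩, a5⟩, n,
      ⟨⟨hn, (Nat.le_div_iff_mul_le (by positivity)).mpr a9⟩, ?_⟩, d, ⟨a7, hn.ne'⟩, q, ⟨a2, a8⟩, a6⟩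
    · exact (Nat.le_mul_of_pos_left _ hn).trans a9
    · rw [le_div_iff₀ hA]; linarith
    · exact (u_Om_mono hk2.1.ne' (Dvd.intro_left _ a6)).trans hO
  have hj : ∀ j ∈ Icc 16 J, ((F j).card : ℝ) ≤ 2160 * C * x * (2 ^ W * W ^ 5 / A) * (j : ℝ)⁻¹ :=
    fun j hj => by
      have hj1 := (mem_Icc.mp hj).1
      have hj' : (0 : ℝ) < j := by exact_mod_cast (by omega : 0 < j)
      refine le_trans (u_bi (N := 10 * W ^ 2 * j / A)
        (B := x / 2 ^ j * (2 ^ W * (C * (6 * W) ^ 3 * 2 ^ j / j ^ 2))) _ _ (by positivity) ?_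
        fun t ht => u_bi _ _ (by positivity) ?_ fun n hn => u_bi _ _ (by positivity) ?_
        fun d hd => ?_) (le_of_eq (by field_simp; ring))
      · refine le_trans ?_ (Nat.floor_le (by positivity))
        exact_mod_cast (card_filter_le _ _).trans (by simp)
      · have : ((x / 2 ^ j : ℕ) : ℝ) ≤ x / 2 ^ j := by exact_mod_cast Nat.cast_div_le (α := ℝ)
        refine le_trans ?_ this
        exact_mod_cast (card_filter_le _ _).trans (by simp)
      · obtain ⟨n1, n2⟩ := mem_filter.mp hn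
        exact_mod_cast (u_tau_le (mem_Ioc.mp n1).1.ne').trans (Nat.pow_le_pow_right two_pos n2)
      · obtain ⟨n1, n2⟩ := mem_filter.mp hn
        obtain ⟨t1, t2⟩ := mem_filter.mp ht
        have t3 : t ≠ 0 := by have := (mem_Icc.mp t1).1; omega
        have d1 := Nat.mem_divisors.mp hd
        have d2 : d ≠ 0 := (Nat.pos_of_mem_divisors hd).ne'
        refine le_trans (Nat.cast_le.mpr card_image_le) ((hpair j hj1 _ (mul_ne_zero t3 d2)).trans ?_)
        have g1 : (t * d).primeFactors.card + 1 ≤ 6 * W := by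
          have := u_om_le (t * d)
          have := u_Om_mono d1.2 d1.1
          rw [ArithmeticFunction.cardFactors_mul t3 d2] at *
          omega
        have g2 : (((t * d).primeFactors.card : ℝ) + 1) ≤ 6 * W := by exact_mod_cast g1
        have g3 : gw (t * d) ≤ (6 * W) ^ 3 := (u_gw_le _).trans (by gcongr)
        gcongr
  have hH : ∑ j ∈ Icc 16 J, (j : ℝ)⁻¹ ≤ 3 * W := by
    have g1 : ∑ j ∈ Icc 16 J, (j : ℝ)⁻¹ ≤ harmonic J := by
      rw [harmonic_eq_sum_Icc]
      push_cast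
      exact sum_le_sum_of_subset_of_nonneg (Icc_subset_Icc_left (by norm_num))
        fun _ _ _ => by positivity
    have g2 : (J : ℝ) ≤ 2 ^ (2 * W) := by
      rcases Nat.eq_zero_or_pos x with rfl | hx
      · simp [hJ]
      have g3 := log_le_log (by positivity)
        (show (2 : ℝ) ^ J ≤ x by exact_mod_cast Nat.pow_log_le_self 2 hx.ne')
      rw [log_pow] at g3
      have g4 : (J : ℝ) ≤ 2 * log x := by
        have : (0 : ℝ) ≤ J := by positivity
        nlinarith [log_two_gt_d9]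
      refine (pow_le_pow_iff_left₀ (by positivity) (by positivity) two_ne_zero).mp ?_
      calc (J : ℝ) ^ 2 ≤ (2 * log x) ^ 2 := by gcongr
        _ ≤ 2 ^ (4 * W) := by nlinarith
        _ = _ := by ring
    have g5 : log J ≤ 2 * W := by
      rcases Nat.eq_zero_or_pos J with h0 | h0
      · simp [h0]
      have := log_le_log (by exact_mod_cast h0) g2
      rw [log_pow] at this
      push_cast at this
      nlinarith [log_two_lt_d9]
    linarith [harmonic_le_one_add_log J]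
  have h4 := (Nat.cast_le (α := ℝ)).mpr ((card_le_card hs).trans card_biUnion_le)
  push_cast at h4
  refine h4.trans ((sum_le_sum hj).trans ?_)
  rw [← mul_sum]
  calc _ ≤ 2160 * C * x * (2 ^ W * W ^ 5 / A) * (3 * W) := by gcongr
    _ = _ := by ring

end Pool.Agent.Lib.MP_143a03_nt.NO
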