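import Mathlib

/-!
Sums and differences of `k`-th powers in a commutative ring.
-/

open Finset

namespace Pool.Agent.Lib.MP_143a03_nt.NO

variable {R S : Type*} [CommRing R] [CommRing S] {k m m' : ℕ}

/-- `r` is a sum of `m` `k`-th powers. -/
def Pw (k m : ℕ) (r : R) : Prop := ∃ x : Fin m → R, ∑ i, x i ^ k = r

/-- `r` is a sum of `m` `k`-th powers minus a sum of `m` `k`-th powers. -/
def NS (k m : ℕ) (r : R) : Prop := ∃ a b : R, Pw k m a ∧ Pw k m b ∧ a - b = r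

/-- Every class modulo `q` holds such a difference. -/
def Full (k m q : ℕ) : Prop := ∀ r : ℤ, ∃ v : ℤ, NS k m v ∧ (q : ℤ) ∣ r - v

lemma Pw.add {a b : R} (h : Pw k m a) (h' : Pw k m' b) : Pw k (m + m') (a + b) := by
  obtain ⟨x, rfl⟩ := h
  obtain ⟨y, rfl⟩ := h'
  exact ⟨Fin.append x y, by rw [Fin.sum_univ_add]; simp⟩

lemma u_pw_zero (hk : k ≠ 0) (m : ℕ) : Pw k m (0 : R) := ⟨fun _ => 0, by simp [hk]⟩

lemma Pw.mono (hk : k ≠ 0) {a : R} (h : Pw k m a) (hm : m ≤ m') : Pw k m' a := by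
  obtain ⟨c, rfl⟩ := Nat.exists_eq_add_of_le hm
  simpa using h.add (u_pw_zero hk c)

lemma u_pw_one (x : R) : Pw k 1 (x ^ k) := ⟨fun _ => x, by simp⟩

lemma Pw.mul {a b : R} (h : Pw k m a) (h' : Pw k m' b) : Pw k (m * m') (a * b) := by
  obtain ⟨x, rfl⟩ := h
  obtain ⟨y, rfl⟩ := h'
  refine ⟨fun i => x (finProdFinEquiv.symm i).1 * y (finProdFinEquiv.symm i).2, ?_⟩
  rw [← finProdFinEquiv.sum_comp]
  simp only [Equiv.symm_apply_apply, mul_pow]
  rw [Fintype.sum_prod_type, sum_mul_sum]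

lemma Pw.map (f : R →+* S) {a : R} (h : Pw k m a) : Pw k m (f a) := by
  obtain ⟨x, rfl⟩ := h
  exact ⟨fun i => f (x i), by simp⟩

lemma Pw.lift (f : R →+* S) (hf : Function.Surjective f) {b : S} (h : Pw k m b) :
    ∃ a, Pw k m a ∧ f a = b := by
  obtain ⟨y, rfl⟩ := h
  choose x hx using fun i => hf (y i)
  exact ⟨_, ⟨x, rfl⟩, by simp [hx]⟩

lemma NS.add {a b : R} (h : NS k m a) (h' : NS k m' b) : NS k (m + m') (a + b) := by
  obtain ⟨a1, a2, h1, h2, rfl⟩ := h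
  obtain ⟨b1, b2, h3, h4, rfl⟩ := h'
  exact ⟨_, _, h1.add h3, h2.add h4, by ring⟩

lemma NS.neg {a : R} (h : NS k m a) : NS k m (-a) := by
  obtain ⟨a1, a2, h1, h2, rfl⟩ := h
  exact ⟨_, _, h2, h1, by ring⟩

lemma NS.sub {a b : R} (h : NS k m a) (h' : NS k m' b) : NS k (m + m') (a - b) := by
  simpa [sub_eq_add_neg] using h.add h'.neg

lemma NS.mul {a b : R} (h : NS k m a) (h' : NS k m' b) : NS k (2 * (m * m')) (a * b) := by
  obtain ⟨a1, a2, h1, h2, rfl⟩ := h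
  obtain ⟨b1, b2, h3, h4, rfl⟩ := h'
  rw [two_mul]
  exact ⟨_, _, (h1.mul h3).add (h2.mul h4), (h1.mul h4).add (h2.mul h3), by ring⟩

lemma NS.mono (hk : k ≠ 0) {a : R} (h : NS k m a) (hm : m ≤ m') : NS k m' a := by
  obtain ⟨a1, a2, h1, h2, rfl⟩ := h
  exact ⟨_, _, h1.mono hk hm, h2.mono hk hm, rfl⟩

lemma u_ns_zero (k m : ℕ) : NS k m (0 : R) := ⟨_, _, ⟨fun _ => 0, rfl⟩, ⟨fun _ => 0, rfl⟩, sub_self _⟩

lemma u_ns_one (hk : k ≠ 0) (x : R) : NS k 1 (x ^ k) :=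
  ⟨_, _, u_pw_one x, u_pw_zero hk 1, sub_zero _⟩

lemma NS.map (f : R →+* S) {a : R} (h : NS k m a) : NS k m (f a) := by
  obtain ⟨a1, a2, h1, h2, rfl⟩ := h
  exact ⟨_, _, h1.map f, h2.map f, by simp⟩

lemma NS.lift (f : R →+* S) (hf : Function.Surjective f) {b : S} (h : NS k m b) :
    ∃ a, NS k m a ∧ f a = b := by
  obtain ⟨b1, b2, h1, h2, rfl⟩ := h
  obtain ⟨a1, h3, rfl⟩ := h1.lift f hf
  obtain ⟨a2, h4, rfl⟩ := h2.lift f hf
  exact ⟨_, ⟨_, _, h3, h4, rfl⟩, by simp⟩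

lemma u_ns_nat (hk : k ≠ 0) (x : R) (n : ℕ) : NS k n ((n : R) * x ^ k) := by
  induction n with
  | zero => simpa using u_ns_zero k 0
  | succ n ih =>
    have := ih.add (u_ns_one hk x)
    rwa [Nat.cast_succ, add_mul, one_mul]

lemma u_ns_int (hk : k ≠ 0) (x : R) (c : ℤ) {n : ℕ} (h : |c| ≤ n) : NS k n ((c : R) * x ^ k) := by
  have h1 : c.natAbs ≤ n := by
    have : ((c.natAbs : ℕ) : ℤ) ≤ n := by rwa [Int.natCast_natAbs]
    exact_mod_cast this
  have h2 := (u_ns_nat hk x c.natAbs).mono hk h1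
  rcases Int.natAbs_eq c with h3 | h3
  · rw [h3, Int.cast_natCast]; exact h2
  · rw [h3, Int.cast_neg, Int.cast_natCast, neg_mul]; exact h2.neg

lemma u_ns_sum {ι : Type*} (s : Finset ι) (f : ι → R) (h : ∀ i ∈ s, NS k m (f i)) :
    NS k (s.card * m) (∑ i ∈ s, f i) := by
  classical
  induction s using Finset.induction_on with
  | empty => simpa using u_ns_zero k 0
  | insert a s ha ih =>
    rw [sum_insert ha, card_insert_of_notMem ha, add_mul, one_mul, add_comm (s.card * m)]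
    exact (h a (mem_insert_self _ _)).add (ih fun i hi => h i (mem_insert_of_mem hi))

lemma u_full_of_zmod {q : ℕ} (h : ∀ r : ZMod q, NS k m r) : Full k m q := fun r => by
  obtain ⟨v, h1, h2⟩ := (h (r : ZMod q)).lift (Int.castRingHom (ZMod q)) ZMod.intCast_surjective
  refine ⟨v, h1, ?_⟩
  rw [← ZMod.intCast_zmod_eq_zero_iff_dvd, Int.cast_sub]
  simp only [eq_intCast] at h2
  rw [h2, sub_self]

lemma Full.mono (hk : k ≠ 0) {q : ℕ} (h : Full k m q) (hm : m ≤ m') : Full k m' q := fun r => by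
  obtain ⟨v, h1, h2⟩ := h r
  exact ⟨v, h1.mono hk hm, h2⟩

lemma Full.of_dvd {q q' : ℕ} (h : Full k m q) (hq : q' ∣ q) : Full k m q' := fun r => by
  obtain ⟨v, h1, h2⟩ := h r
  exact ⟨v, h1, (Int.natCast_dvd_natCast.mpr hq).trans h2⟩

lemma u_full_self (hk : k ≠ 0) {q : ℕ} (hq : 0 < q) : Full k q q := fun r => by
  have hq' : (0 : ℤ) < q := by exact_mod_cast hq
  refine ⟨r % q, ?_, ?_⟩
  · have := u_ns_int hk (1 : ℤ) (r % q) (n := q) (by
      rw [abs_of_nonneg (Int.emod_nonneg _ hq'.ne')]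
      exact (Int.emod_lt_of_pos _ hq').le)
    simpa using this
  · exact Int.dvd_self_sub_emod

end Pool.Agent.Lib.MP_143a03_nt.NO
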