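import Pool.Agent.Lib.MP_143a03_nt.NO.UDef

/-!
Growth of sums and differences of `k`-th powers in a prime field.
-/

open Finset

namespace Pool.Agent.Lib.MP_143a03_nt.NO

variable {p : ℕ} [Fact p.Prime]

lemma u_energy (X Y : Finset (ZMod p)) : ∃ ξ : ZMod p,
    (p : ℝ) * (X.card * Y.card) ≤
      ((X ×ˢ Y).image fun z => z.1 + ξ * z.2).card * (p + X.card * Y.card) := by
  classical
  set T := X ×ˢ Y with hT
  have hn : (T.card : ℝ) = X.card * Y.card := by rw [hT, card_product]; push_cast; ring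
  rw [← hn]
  set n : ℝ := (T.card : ℝ) with hnd
  let E : ZMod p → ℝ := fun ξ =>
    ∑ z ∈ T, ∑ w ∈ T, if z.1 + ξ * z.2 = w.1 + ξ * w.2 then (1 : ℝ) else 0
  have hp : (0 : ℝ) < p := by exact_mod_cast (Fact.out : p.Prime).pos
  have h1 : ∑ ξ : ZMod p, E ξ ≤ ∑ _ξ : ZMod p, (n + n ^ 2 / p) := by
    have e : ∑ _ξ : ZMod p, (n + n ^ 2 / p) = ∑ z ∈ T, ∑ w ∈ T,
        ((if z = w then (p : ℝ) else 0) + 1) := by
      simp only [sum_const, card_univ, ZMod.card, nsmul_eq_mul, sum_add_distrib, sum_ite_eq,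
        mul_one]
      rw [sum_congr rfl fun z hz => if_pos hz]
      simp only [sum_const, nsmul_eq_mul, ← hnd]
      field_simp
    rw [e, sum_comm]
    refine sum_le_sum fun z _ => ?_
    rw [sum_comm]
    refine sum_le_sum fun w _ => ?_
    by_cases hzw : z = w
    · subst hzw; simp
    · rw [if_neg hzw, zero_add, ← sum_filter, sum_const, nsmul_eq_mul, mul_one]
      have : (univ.filter fun ξ : ZMod p => z.1 + ξ * z.2 = w.1 + ξ * w.2).card ≤ 1 := by
        rw [card_le_one]
        intro a ha b hb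
        have ha' := (mem_filter.mp ha).2
        have hb' := (mem_filter.mp hb).2
        by_cases h2 : z.2 = w.2
        · rw [h2] at ha'
          exact absurd (Prod.ext (add_right_cancel ha') h2) hzw
        · have : (a - b) * (z.2 - w.2) = 0 := by linear_combination ha' - hb'
          rcases mul_eq_zero.mp this with h | h
          · exact sub_eq_zero.mp h
          · exact absurd (sub_eq_zero.mp h) h2
      exact_mod_cast this
  obtain ⟨ξ, _, hξ⟩ := exists_le_of_sum_le univ_nonempty h1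
  refine ⟨ξ, ?_⟩
  set f : ZMod p × ZMod p → ZMod p := fun z => z.1 + ξ * z.2 with hf
  set I := T.image f with hI
  have h2 : n = ∑ c ∈ I, ((T.filter fun z => f z = c).card : ℝ) := by
    rw [hnd, card_eq_sum_card_image f T]; push_cast; rfl
  have h3 : ∑ c ∈ I, ((T.filter fun z => f z = c).card : ℝ) ^ 2 = E ξ := by
    have e : E ξ = ∑ z ∈ T, ((T.filter fun w => f w = f z).card : ℝ) := by
      refine sum_congr rfl fun z _ => ?_
      rw [← sum_filter, sum_const, nsmul_eq_mul, mul_one]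
      congr 2
      ext w
      simp only [mem_filter, hf, eq_comm]
    rw [e, ← sum_fiberwise_of_maps_to (g := f) (t := I) fun z hz => mem_image_of_mem f hz]
    refine sum_congr rfl fun c _ => ?_
    rw [sum_congr rfl fun z hz => by rw [(mem_filter.mp hz).2], sum_const, nsmul_eq_mul, sq]
  have h4 : n ^ 2 ≤ I.card * E ξ := by
    rw [← h3, h2]; exact sq_sum_le_card_mul_sum_sq
  have h5 : n ^ 2 ≤ I.card * (n + n ^ 2 / p) := h4.trans (by gcongr)
  have hn0 : 0 ≤ n := by positivity
  rcases hn0.eq_or_lt with h | h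
  · rw [← h]; simp only [mul_zero, add_zero]; positivity
  · have h6 : (p : ℝ) * n * n ≤ I.card * (p + n) * n := by
      have : (I.card : ℝ) * (n + n ^ 2 / p) * p = I.card * (p + n) * n := by field_simp
      nlinarith
    exact le_of_mul_le_mul_right h6 h

lemma u_ratio (X Y : Finset (ZMod p)) (hX : X.Nonempty) (hY : 1 < Y.card) :
    ∃ a ∈ X, ∃ b ∈ X, ∃ c ∈ Y, ∃ d ∈ Y, ∃ e : ZMod p, (e = 0 ∨ e = 1) ∧
      min (X.card * Y.card : ℝ) p ≤
        2 * ((X ×ˢ Y).image fun z => (c - d) * z.1 + (a - b + e * (c - d)) * z.2).card := by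
  classical
  let Q : Set (ZMod p) := {r | ∃ a ∈ X, ∃ b ∈ X, ∃ c ∈ Y, ∃ d ∈ Y, c ≠ d ∧ r * (c - d) = a - b}
  have himg : ∀ (u ξ : ZMod p), u ≠ 0 → ((X ×ˢ Y).image fun z => u * z.1 + (ξ * u) * z.2).card =
      ((X ×ˢ Y).image fun z => z.1 + ξ * z.2).card := fun u ξ hu => by
    rw [← card_image_of_injective ((X ×ˢ Y).image fun z => z.1 + ξ * z.2)
      (mul_right_injective₀ hu), image_image]
    congr 2
    ext z
    simp only [Function.comp]; ring
  by_cases hall : ∀ r, r ∈ Q
  · obtain ⟨ξ, hξ⟩ := u_energy X Y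
    obtain ⟨a, ha, b, hb, c, hc, d, hd, hcd, h⟩ := hall ξ
    refine ⟨a, ha, b, hb, c, hc, d, hd, 0, Or.inl rfl, ?_⟩
    rw [zero_mul, add_zero, ← h, himg _ _ (sub_ne_zero.mpr hcd)]
    set I : ℝ := (((X ×ˢ Y).image fun z => z.1 + ξ * z.2).card : ℝ)
    set n : ℝ := X.card * Y.card
    have hp : (0 : ℝ) < p := by exact_mod_cast (Fact.out : p.Prime).pos
    have hI : 0 ≤ I := by positivity
    have hn : 0 ≤ n := by positivity
    rcases le_total n p with h1 | h1
    · rw [min_eq_left h1]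
      refine le_of_mul_le_mul_left (a := (p : ℝ)) ?_ hp
      nlinarith
    · rw [min_eq_right h1]
      refine le_of_mul_le_mul_left (a := n) ?_ (by linarith)
      nlinarith
  · have h0 : (0 : ZMod p) ∈ Q := by
      obtain ⟨a, ha⟩ := hX
      obtain ⟨c, hc, d, hd, hcd⟩ := one_lt_card.mp hY
      exact ⟨a, ha, a, ha, c, hc, d, hd, hcd, by simp⟩
    have h1 : ∃ r ∈ Q, r + 1 ∉ Q := by
      by_contra hcon
      push Not at hcon
      refine hall fun r => ?_
      have : ∀ n : ℕ, (n : ZMod p) ∈ Q := fun n => by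
        induction n with
        | zero => simpa using h0
        | succ n ih => simpa using hcon _ ih
      simpa using this r.val
    obtain ⟨r, ⟨a, ha, b, hb, c, hc, d, hd, hcd, h⟩, hr⟩ := h1
    refine ⟨a, ha, b, hb, c, hc, d, hd, 1, Or.inr rfl, ?_⟩
    have e : a - b + 1 * (c - d) = (r + 1) * (c - d) := by rw [← h]; ring
    rw [e, himg _ _ (sub_ne_zero.mpr hcd), card_image_of_injOn, card_product]
    · push_cast
      have : (0 : ℝ) ≤ X.card * Y.card := by positivity
      exact (min_le_left _ _).trans (by linarith)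
    · intro z hz w hw hzw
      have hz' := mem_product.mp hz
      have hw' := mem_product.mp hw
      simp only at hzw
      by_cases h2 : z.2 = w.2
      · rw [h2] at hzw
        exact Prod.ext (add_right_cancel hzw) h2
      · exact absurd ⟨w.1, hw'.1, z.1, hz'.1, z.2, hz'.2, w.2, hw'.2, h2, by
          linear_combination hzw⟩ hr

open Classical in
/-- The set of residues with a representation of length `m`. -/
noncomputable def uX (k m p : ℕ) [NeZero p] : Finset (ZMod p) := univ.filter fun r => NS k m r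

lemma u_mem_X {k m : ℕ} {r : ZMod p} : r ∈ uX k m p ↔ NS k m r := by simp [uX]

lemma u_step {k m : ℕ} (hk : k ≠ 0) (hm : 1 ≤ m) (hY : 1 < (uX k 1 p).card) :
    min ((uX k m p).card * (uX k 1 p).card : ℝ) p ≤ 2 * (uX k (12 * m) p).card := by
  classical
  obtain ⟨a, ha, b, hb, c, hc, d, hd, e, he, h⟩ :=
    u_ratio (uX k m p) (uX k 1 p) ⟨0, u_mem_X.mpr (u_ns_zero k m)⟩ hY
  refine h.trans ?_
  gcongr
  intro r hr
  obtain ⟨z, hz, rfl⟩ := mem_image.mp hr
  have hz' := mem_product.mp hz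
  rw [u_mem_X] at ha hb hc hd ⊢
  have h1 := u_mem_X.mp hz'.1
  have h2 := u_mem_X.mp hz'.2
  have h3 : NS k (1 + 1) (e * (c - d)) := by
    rcases he with rfl | rfl
    · simpa using u_ns_zero k (1 + 1)
    · simpa using hc.sub hd
  exact (((hc.sub hd).mul h1).add (((ha.sub hb).add h3).mul h2)).mono hk (by omega)

lemma u_grow {k t : ℕ} (hk : k ≠ 0) (hp : p ≠ 2) (ht : 2 ≤ t) (hY : t ≤ (uX k 1 p).card) {j : ℕ}
    (hj : (p : ℝ) ≤ ((t : ℝ) / 2) ^ j) : Full k (2 * 12 ^ j) p := by
  classical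
  have ht' : (2 : ℝ) ≤ t := by exact_mod_cast ht
  have hY' : (t : ℝ) ≤ (uX k 1 p).card := by exact_mod_cast hY
  have hp0 : (0 : ℝ) < p := by exact_mod_cast (Fact.out : p.Prime).pos
  have key : ∀ i : ℕ, min (((t : ℝ) / 2) ^ i) p ≤ 2 * (uX k (12 ^ i) p).card := fun i => by
    induction i with
    | zero => exact (min_le_left _ _).trans (by simp only [pow_zero]; linarith)
    | succ i ih =>
      have h1 := u_step (p := p) hk (Nat.one_le_pow i 12 (by norm_num)) (by omega)
      rw [pow_succ' 12]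
      refine le_trans ?_ h1
      set a : ℝ := ((uX k (12 ^ i) p).card : ℝ)
      have ha : 0 ≤ a := by positivity
      have h2 : a * t ≤ a * (uX k 1 p).card := by gcongr
      refine le_min ?_ (min_le_right _ _)
      rcases min_le_iff.mp ih with h | h
      · refine (min_le_left _ _).trans (le_trans ?_ h2)
        rw [pow_succ]; nlinarith
      · exact (min_le_right _ _).trans (by nlinarith)
  have h1 := key j
  rw [min_eq_right hj] at h1
  have h2 : p ≤ 2 * (uX k (12 ^ j) p).card := by exact_mod_cast h1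
  have h3 : p < 2 * (uX k (12 ^ j) p).card := by
    refine lt_of_le_of_ne h2 fun h => hp ?_
    exact ((Nat.prime_dvd_prime_iff_eq Nat.prime_two Fact.out).mp ⟨_, h⟩).symm
  refine u_full_of_zmod fun r => ?_
  set X := uX k (12 ^ j) p
  have h4 : ¬ Disjoint X (X.image fun x => r - x) := fun hd => by
    have h5 := card_le_univ (X ∪ X.image fun x => r - x)
    rw [card_union_of_disjoint hd, card_image_of_injective _ sub_right_injective, ZMod.card] at h5
    omega
  obtain ⟨x, hx, hx'⟩ := not_disjoint_iff.mp h4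
  obtain ⟨y, hy, rfl⟩ := mem_image.mp hx'
  have := (u_mem_X.mp hx).add (u_mem_X.mp hy)
  rwa [sub_add_cancel, ← two_mul] at this

/-- A `k`-th power whose order is `(p - 1) / gcd (p - 1) k`. -/
lemma u_gen (k : ℕ) : ∃ g : ZMod p, orderOf (g ^ k) = (p - 1) / Nat.gcd (p - 1) k := by
  obtain ⟨g, hg⟩ := IsCyclic.exists_ofOrder_eq_natCard (α := (ZMod p)ˣ)
  refine ⟨g, ?_⟩
  rw [← Units.val_pow_eq_pow_val, orderOf_units, orderOf_pow, hg, Nat.card_eq_fintype_card,
    ZMod.card_units]

lemma u_card_one {k : ℕ} (hk : k ≠ 0) (g : ZMod p) : orderOf (g ^ k) ≤ (uX k 1 p).card := by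
  classical
  have h := card_le_card_of_injOn (s := range (orderOf (g ^ k))) (t := uX k 1 p)
    (fun i => (g ^ k) ^ i) (fun i _ => by
      refine u_mem_X.mpr ?_
      simp only
      rw [← pow_mul, mul_comm, pow_mul]
      exact u_ns_one hk _) (by simpa using pow_injOn_Iio_orderOf (x := g ^ k))
  simpa using h

theorem u_growth {k : ℕ} (hk : k ≠ 0) (hp : p ≠ 2) {j : ℕ}
    (ht : 2 ≤ (p - 1) / Nat.gcd (p - 1) k)
    (hj : (p : ℝ) ≤ ((((p - 1) / Nat.gcd (p - 1) k : ℕ) : ℝ) / 2) ^ j) :
    Full k (2 * 12 ^ j) p := by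
  obtain ⟨g, hg⟩ := u_gen (p := p) k
  exact u_grow hk hp ht (hg ▸ u_card_one hk g) hj

end Pool.Agent.Lib.MP_143a03_nt.NO
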