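import Pool.Agent.Lib.MP_143a03_nt.NO.UGrow

/-!
Short representations when the group of `k`-th powers is small.
-/

open Finset Polynomial

namespace Pool.Agent.Lib.MP_143a03_nt.NO

lemma u_floor (A : ℚ[X]) : ∃ F : ℤ[X], ∀ i, F.coeff i = ⌊A.coeff i⌋ := by
  refine ⟨∑ j ∈ A.support, monomial j ⌊A.coeff j⌋, fun i => ?_⟩
  simp only [finsetSum_coeff, coeff_monomial, sum_ite_eq', mem_support_iff]
  split_ifs with h
  · rfl
  · rw [not_not.mp h]; simp

lemma u_coeff_mul {θ β : ℚ[X]} {B : ℚ} (hθ : ∀ i, |θ.coeff i| ≤ 1) (hβ : ∀ i, |β.coeff i| ≤ B)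
    (i : ℕ) : |(θ * β).coeff i| ≤ (i + 1) * B := by
  rw [coeff_mul]
  refine (abs_sum_le_sum_abs _ _).trans ?_
  have : ∀ x ∈ antidiagonal i, |θ.coeff x.1 * β.coeff x.2| ≤ B := fun x _ => by
    rw [abs_mul]
    have := hθ x.1
    have := hβ x.2
    have := abs_nonneg (β.coeff x.2)
    nlinarith
  refine (sum_le_card_nsmul _ _ _ this).trans ?_
  simp

lemma u_frac (A : ℚ[X]) : ∃ F : ℤ[X], (∀ i, |(A - F.map (Int.castRingHom ℚ)).coeff i| ≤ 1) ∧
    (A - F.map (Int.castRingHom ℚ)).degree ≤ A.degree := by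
  obtain ⟨F, hF⟩ := u_floor A
  refine ⟨F, fun i => ?_, ?_⟩
  · rw [coeff_sub, coeff_map, hF, eq_intCast, Int.self_sub_floor, abs_of_nonneg (Int.fract_nonneg _)]
    exact (Int.fract_lt_one _).le
  · refine degree_le_iff_coeff_zero _ _ |>.mpr fun i hi => ?_
    rw [coeff_sub, coeff_map, hF, coeff_eq_zero_of_degree_lt hi]
    simp

lemma u_reduce {t B : ℕ} (ht : 1 ≤ t) (β : ℤ[X]) (hd : β.degree < t)
    (hB : ∀ i, |β.coeff i| ≤ B)
    (hc : IsCoprime (β.map (Int.castRingHom ℚ)) (X ^ t - 1)) (n : ℤ) :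
    ∃ G F F' : ℤ[X], G.degree < (2 * t : ℕ) ∧ (∀ i < 2 * t, |G.coeff i| ≤ (2 * t * (B + 1) : ℕ)) ∧
      C n = G + F * β + F' * (X ^ t - 1) := by
  set b := β.map (Int.castRingHom ℚ) with hb
  set P : ℚ[X] := X ^ t - 1 with hP
  have hPm : P.Monic := monic_X_pow_sub_C (1 : ℚ) (by omega)
  have hPd : P.degree = t := degree_X_pow_sub_C (by omega) (1 : ℚ)
  have hbd : b.degree < t := degree_map_le.trans_lt hd
  obtain ⟨u, v, huv⟩ := hc
  set A := (C (n : ℚ) * u) %ₘ P with hA
  set D := C (n : ℚ) * v + (C (n : ℚ) * u) /ₘ P * b with hD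
  have h1 : C (n : ℚ) = A * b + D * P := by
    have := modByMonic_add_div (C (n : ℚ) * u) P
    rw [hA, hD]
    linear_combination (-C (n : ℚ)) * huv - b * this
  have hAd : A.degree < t := hPd ▸ degree_modByMonic_lt _ hPm
  have h2t : ((2 * t : ℕ) : WithBot ℕ) = t + t := by rw [two_mul]; rfl
  have hmul : ∀ {x y : ℚ[X]}, x.degree < t → y.degree ≤ t → (x * y).degree < (2 * t : ℕ) :=
    fun {x y} hx hy => by
      rw [h2t]
      calc (x * y).degree ≤ x.degree + y.degree := degree_mul_le x y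
        _ ≤ x.degree + t := by gcongr
        _ < _ := WithBot.add_lt_add_right (by simp) hx
  have hDd : D.degree < t := by
    have h3 : (D * P).degree < (2 * t : ℕ) := by
      have : D * P = C (n : ℚ) - A * b := by rw [h1]; ring
      rw [this]
      refine (degree_sub_le _ _).trans_lt (max_lt ?_ (hmul hAd hbd.le))
      exact degree_C_le.trans_lt (by exact_mod_cast (by omega : 0 < 2 * t))
    rw [hPm.degree_mul, hPd, h2t] at h3
    exact (WithBot.add_lt_add_iff_right (by simp)).mp h3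
  obtain ⟨F, hF1, hF2⟩ := u_frac A
  obtain ⟨F', hF1', hF2'⟩ := u_frac D
  refine ⟨C n - F * β - F' * (X ^ t - 1), F, F', ?_, fun i hi => ?_, by ring⟩
  all_goals
    have e : (C n - F * β - F' * (X ^ t - 1)).map (Int.castRingHom ℚ) =
        (A - F.map (Int.castRingHom ℚ)) * b + (D - F'.map (Int.castRingHom ℚ)) * P := by
      simp only [Polynomial.map_sub, Polynomial.map_mul, map_C, Polynomial.map_pow, map_X,
        Polynomial.map_one, ← hb, ← hP]
      rw [eq_intCast (Int.castRingHom ℚ) n, h1]; ring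
  · rw [← degree_map_eq_of_injective (f := Int.castRingHom ℚ) Int.cast_injective, e]
    exact (degree_add_le _ _).trans_lt
      (max_lt (hmul (hF2.trans_lt hAd) hbd.le) (hmul (hF2'.trans_lt hDd) hPd.le))
  · have h3 := congrArg (fun q => q.coeff i) e
    simp only [coeff_map] at h3
    rw [eq_intCast (Int.castRingHom ℚ)] at h3
    have h4 := u_coeff_mul (β := b) (B := B) hF1 (fun j => by
      rw [hb, coeff_map, eq_intCast]; exact_mod_cast hB j) i
    have h5 := u_coeff_mul (β := P) (B := 1) hF1' (fun j => by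
      rw [hP, coeff_sub, coeff_X_pow, coeff_one]
      split_ifs <;> simp) i
    have h6 : ((i : ℚ) + 1) ≤ 2 * t := by exact_mod_cast hi
    have h7 : |(((C n - F * β - F' * (X ^ t - 1)).coeff i : ℤ) : ℚ)| ≤ 2 * t * (B + 1) := by
      rw [h3, coeff_add]
      refine (abs_add_le _ _).trans ?_
      have : (0 : ℚ) ≤ B := by positivity
      nlinarith
    exact_mod_cast h7

lemma u_pigeon {p : ℕ} [Fact p.Prime] (g : ZMod p) {f r : ℕ} (h : p < (r + 1) ^ f) :
    ∃ α : ℤ[X], α ≠ 0 ∧ α.degree < f ∧ (∀ i, |α.coeff i| ≤ r) ∧ aeval g α = 0 := by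
  obtain ⟨a, b, hab, he⟩ := Fintype.exists_ne_map_eq_of_card_lt
    (fun a : Fin f → Fin (r + 1) => ∑ i, ((a i : ℕ) : ZMod p) * g ^ (i : ℕ)) (by simpa using h)
  set α : ℤ[X] := ∑ i : Fin f, monomial i (((a i : ℕ) : ℤ) - (b i : ℕ)) with hα
  have hc : ∀ i : Fin f, α.coeff i = ((a i : ℕ) : ℤ) - (b i : ℕ) := fun i => by
    simp only [hα, finsetSum_coeff, coeff_monomial, Fin.val_inj, sum_ite_eq', mem_univ, if_true]
  have hc' : ∀ i, f ≤ i → α.coeff i = 0 := fun i hi => by
    simp only [hα, finsetSum_coeff, coeff_monomial]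
    exact sum_eq_zero fun j _ => if_neg (by omega)
  refine ⟨α, fun h0 => hab (funext fun i => ?_), ?_, fun i => ?_, ?_⟩
  · have := hc i
    rw [h0, coeff_zero] at this
    exact Fin.ext (by omega)
  · exact (degree_lt_iff_coeff_zero _ _).mpr hc'
  · rcases lt_or_ge i f with hi | hi
    · have := hc ⟨i, hi⟩
      have h1 := (a ⟨i, hi⟩).2
      have h2 := (b ⟨i, hi⟩).2
      simp only at this
      rw [this, abs_le]; omega
    · rw [hc' i hi]; simp
  · simp only [hα, map_sum, aeval_monomial, map_sub, map_natCast, sum_sub_distrib]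
    exact sub_eq_zero.mpr he

/-- The sum of the geometric sums attached to the prime factors of `t`. -/
noncomputable def uQ (t : ℕ) : ℤ[X] := ∑ q ∈ t.primeFactors, ∑ i ∈ range q, (X ^ (t / q)) ^ i

lemma u_geom {K : Type*} [Field K] {z : K} {t q : ℕ} (hq : q ∣ t) (hz : z ^ t = 1)
    (h : z ^ (t / q) ≠ 1) : ∑ i ∈ range q, (z ^ (t / q)) ^ i = 0 := by
  have := mul_geom_sum (z ^ (t / q)) q
  rw [← pow_mul, Nat.div_mul_cancel hq, hz, sub_self] at this
  exact (mul_eq_zero.mp this).resolve_left (sub_ne_zero.mpr h)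

lemma u_Q_prim {K : Type*} [Field K] {z : K} {t : ℕ} (ht : 1 ≤ t) (hz : orderOf z = t) :
    aeval z (uQ t) = 0 := by
  simp only [uQ, map_sum, map_pow, aeval_X]
  refine sum_eq_zero fun q hq => u_geom (Nat.dvd_of_mem_primeFactors hq)
    (hz ▸ pow_orderOf_eq_one z) ?_
  have h1 := (Nat.prime_of_mem_primeFactors hq).one_lt
  exact pow_ne_one_of_lt_orderOf
    (Nat.div_pos (Nat.le_of_mem_primeFactors hq) (by omega)).ne' (by rw [hz]; exact Nat.div_lt_self ht h1)

lemma u_Q_non {z : ℂ} {t : ℕ} (ht : 1 ≤ t) (hz : z ^ t = 1) (h : orderOf z ≠ t) :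
    ∃ n : ℕ, 1 ≤ n ∧ aeval z (uQ t) = n := by
  classical
  refine ⟨∑ q ∈ t.primeFactors, if z ^ (t / q) = 1 then q else 0, ?_, ?_⟩
  · by_contra hc
    refine h (orderOf_eq_of_pow_and_pow_div_prime ht hz fun q hq hqt h1 => ?_)
    have hm : q ∈ t.primeFactors := Nat.mem_primeFactors.mpr ⟨hq, hqt, by omega⟩
    have := single_le_sum (f := fun q => if z ^ (t / q) = 1 then q else 0)
      (fun _ _ => Nat.zero_le _) hm
    simp only [if_pos h1] at this
    have := hq.pos
    omega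
  · simp only [uQ, map_sum, map_pow, aeval_X, Nat.cast_sum]
    refine sum_congr rfl fun q hq => ?_
    split_ifs with h1
    · simp [h1]
    · simpa using u_geom (Nat.dvd_of_mem_primeFactors hq) hz h1

lemma u_Q_deg {t : ℕ} (ht : 1 ≤ t) : (uQ t).degree < t := by
  have hb : (⊥ : WithBot ℕ) < t := WithBot.bot_lt_coe t
  refine (degree_sum_le _ _).trans_lt ((Finset.sup_lt_iff hb).mpr fun q hq =>
    (degree_sum_le _ _).trans_lt ((Finset.sup_lt_iff hb).mpr fun i hi => ?_))
  rw [← pow_mul, degree_X_pow]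
  have h1 := Nat.div_mul_cancel (Nat.dvd_of_mem_primeFactors hq)
  have h2 := Nat.div_pos (Nat.le_of_mem_primeFactors hq) (Nat.prime_of_mem_primeFactors hq).pos
  have h3 := mem_range.mp hi
  exact_mod_cast (by nlinarith : t / q * i < t)

lemma u_Q_coeff (t i : ℕ) : |(uQ t).coeff i| ≤ (t * t : ℕ) := by
  simp only [uQ, finsetSum_coeff, ← pow_mul, coeff_X_pow]
  refine (abs_sum_le_sum_abs _ _).trans ?_
  have : ∀ q ∈ t.primeFactors,
      |∑ j ∈ range q, if i = t / q * j then (1 : ℤ) else 0| ≤ t := fun q hq => by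
    refine (abs_sum_le_sum_abs _ _).trans ?_
    refine (sum_le_card_nsmul _ _ 1 fun j _ => by split_ifs <;> simp).trans ?_
    simpa using Nat.le_of_mem_primeFactors hq
  refine (sum_le_card_nsmul _ _ _ this).trans ?_
  have h1 : t.primeFactors.card ≤ t := by
    simpa using card_le_card (s := t.primeFactors) (t := Icc 1 t) fun q hq =>
      mem_Icc.mpr ⟨(Nat.prime_of_mem_primeFactors hq).pos, Nat.le_of_mem_primeFactors hq⟩
  rw [nsmul_eq_mul]
  push_cast
  gcongr

lemma u_cop {t r : ℕ} (ht : 1 ≤ t) {α : ℤ[X]} (h0 : α ≠ 0) (hd : α.degree < t.totient)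
    (hr : ∀ i, |α.coeff i| ≤ r) :
    IsCoprime ((α + C ((t * r + 1 : ℕ) : ℤ) * uQ t).map (Int.castRingHom ℚ)) (X ^ t - 1) := by
  refine (isCoprime_iff_aeval_ne_zero_of_isAlgClosed ℚ ℂ _ _).mpr fun z => ?_
  by_cases hz : z ^ t = 1
  swap
  · right; simpa [sub_eq_zero] using hz
  left
  rw [← algebraMap_int_eq, aeval_map_algebraMap, map_add, map_mul, aeval_C]
  by_cases ho : orderOf z = t
  · rw [u_Q_prim ht ho, mul_zero, add_zero]
    intro h
    have hp : IsPrimitiveRoot z t := ho ▸ IsPrimitiveRoot.orderOf z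
    have h1 := minpoly.degree_le_of_ne_zero ℚ z (p := α.map (algebraMap ℤ ℚ))
      ((Polynomial.map_ne_zero_iff Int.cast_injective).mpr h0) (by rwa [aeval_map_algebraMap])
    rw [← cyclotomic_eq_minpoly_rat hp ht, degree_cyclotomic] at h1
    exact absurd (h1.trans degree_map_le) (not_le.mpr hd)
  · obtain ⟨n, hn, he⟩ := u_Q_non ht hz ho
    rw [he]
    intro h
    have hz1 : ‖z‖ = 1 := Complex.norm_eq_one_of_pow_eq_one hz (by omega)
    have h1 : ‖aeval z α‖ ≤ t * r := by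
      have h2 : α.natDegree < t :=
        ((natDegree_lt_iff_degree_lt h0).mpr hd).trans_le (Nat.totient_le t)
      rw [aeval_eq_sum_range' h2]
      refine (norm_sum_le _ _).trans ((sum_le_card_nsmul _ _ (r : ℝ) fun i _ => ?_).trans (by simp))
      rw [zsmul_eq_mul, norm_mul, norm_pow, hz1, one_pow, mul_one, Complex.norm_intCast]
      exact_mod_cast hr i
    rw [eq_neg_of_add_eq_zero_left h, norm_neg, norm_mul] at h1
    simp only [eq_intCast, Int.cast_natCast, Complex.norm_natCast] at h1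
    have h3 : (1 : ℝ) ≤ n := by exact_mod_cast hn
    push_cast at h1
    have h4 : (0 : ℝ) ≤ t * r := by positivity
    nlinarith

theorem u_lattice {p k r : ℕ} [Fact p.Prime] (hk : k ≠ 0) (hr : 1 ≤ r)
    (h : p < (r + 1) ^ ((p - 1) / Nat.gcd (p - 1) k).totient) :
    Full k (16 * ((p - 1) / Nat.gcd (p - 1) k) ^ 5 * r) p := by
  obtain ⟨g, hg⟩ := u_gen (p := p) k
  set t := (p - 1) / Nat.gcd (p - 1) k with htd
  have hp := (Fact.out : p.Prime).two_le
  have ht : 1 ≤ t := Nat.div_pos (Nat.gcd_le_left _ (by omega)) (Nat.gcd_pos_of_pos_left _ (by omega))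
  obtain ⟨α, h0, hd, hc, hz⟩ := u_pigeon (g ^ k) h
  set β := α + C ((t * r + 1 : ℕ) : ℤ) * uQ t with hβ
  have hβd : β.degree < t := by
    refine (degree_add_le _ _).trans_lt (max_lt (hd.trans_le ?_) ?_)
    · exact_mod_cast Nat.totient_le t
    · rw [C_mul']
      exact (degree_smul_le _ _).trans_lt (u_Q_deg ht)
  have hβc : ∀ i, |β.coeff i| ≤ (r + (t * r + 1) * (t * t) : ℕ) := fun i => by
    rw [hβ, coeff_add, coeff_C_mul]
    refine (abs_add_le _ _).trans ?_
    rw [abs_mul, Nat.abs_cast, Nat.cast_add r, Nat.cast_mul (t * r + 1)]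
    have := u_Q_coeff t i
    have := hc i
    gcongr
  refine u_full_of_zmod fun c => ?_
  obtain ⟨n, rfl⟩ := ZMod.intCast_surjective c
  obtain ⟨G, F, F', hG, hGc, he⟩ := u_reduce ht β hβd hβc (u_cop ht h0 hd hc) n
  have h1 := congrArg (aeval (g ^ k)) he
  have h2 : (g ^ k) ^ t = 1 := hg ▸ pow_orderOf_eq_one _
  have h3 : aeval (g ^ k) β = 0 := by
    rw [hβ, map_add, map_mul, hz, u_Q_prim ht hg]; simp
  simp only [map_add, map_mul, map_sub, h3, map_pow, aeval_X, h2, map_one, sub_self, mul_zero,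
    add_zero, eq_intCast, map_intCast] at h1
  have h4 : G.natDegree < 2 * t := by
    by_cases hG0 : G = 0
    · rw [hG0, natDegree_zero]; omega
    · exact (natDegree_lt_iff_degree_lt hG0).mpr hG
  rw [aeval_eq_sum_range' h4] at h1
  rw [h1]
  refine (u_ns_sum (m := 2 * t * (r + (t * r + 1) * (t * t) + 1)) _ _ fun i hi => ?_).mono hk ?_
  · rw [zsmul_eq_mul, ← pow_mul, mul_comm k i, pow_mul]
    exact u_ns_int hk _ _ (hGc i (mem_range.mp hi))
  · rw [card_range]
    have h5 : 1 ≤ t * t := Nat.mul_pos ht ht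
    have h6 : t * t ≤ t * t * t := Nat.le_mul_of_pos_right _ ht
    have h7 : r + (t * r + 1) * (t * t) + 1 ≤ 4 * (t * t * t) * r := by nlinarith
    calc _ ≤ 2 * t * (2 * t * (4 * (t * t * t) * r)) := by gcongr
      _ = _ := by ring

end Pool.Agent.Lib.MP_143a03_nt.NO
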