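import Pool.Agent.Lib.MP_143a03_nt.NO.UDef

/-!
From a prime modulus to all moduli.
-/

open Finset

namespace Pool.Agent.Lib.MP_143a03_nt.NO

variable {k m s p : ℕ}

lemma u_kernel (hk : k ≠ 0) (hp : p.Prime) (hm : 1 ≤ m) {j : ℕ} (h : Full k m (p ^ j)) :
    ∃ u : ℤ, ¬ (p : ℤ) ∣ u ∧ ∃ w, NS k (2 * m + 1) w ∧ ((p : ℤ) ^ (j + 1)) ∣ p ^ j * u - w := by
  by_contra hcon
  push Not at hcon
  have hp0 : (p : ℤ) ≠ 0 := by exact_mod_cast hp.ne_zero
  have h0 : ∀ w, NS k (2 * m + 1) w → (p : ℤ) ^ j ∣ w → (p : ℤ) ^ (j + 1) ∣ w := by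
    rintro w hw ⟨u, rfl⟩
    by_cases hu : (p : ℤ) ∣ u
    · rw [pow_succ]; exact mul_dvd_mul_left _ hu
    · exact absurd (by simp) (hcon u hu _ hw)
  have h1 : ∀ n : ℕ, ∃ v, NS k m v ∧ (p : ℤ) ^ (j + 1) ∣ n - v := fun n => by
    induction n with
    | zero => exact ⟨0, u_ns_zero k m, by simp⟩
    | succ n ih =>
      obtain ⟨v, hv, hd⟩ := ih
      obtain ⟨c, hc, hd'⟩ := h (v + 1)
      have h2 : NS k (m + 1 + m) (v + 1 ^ k - c) := (hv.add (u_ns_one hk 1)).sub hc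
      rw [one_pow] at h2
      have h3 := h0 _ (h2.mono hk (by omega)) (by exact_mod_cast hd')
      refine ⟨c, hc, ?_⟩
      have e : ((n + 1 : ℕ) : ℤ) - c = (n - v) + (v + 1 - c) := by push_cast; ring
      rw [e]; exact dvd_add hd h3
  obtain ⟨v, hv, hd⟩ := h1 (p ^ j)
  refine hcon 1 (fun h => hp.not_dvd_one (by exact_mod_cast h)) v (hv.mono hk (by omega)) ?_
  simpa using hd

lemma u_lift_step (hk : k ≠ 0) (hp : p.Prime) (hm : 1 ≤ m) {j : ℕ} (h : Full k m (p ^ j))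
    (hs : Full k s p) : Full k (m + 2 * ((2 * m + 1) * s)) (p ^ (j + 1)) := fun r => by
  obtain ⟨u, hu, w, hw, hd⟩ := u_kernel hk hp hm h
  obtain ⟨v, hv, c, hc⟩ := h r
  have hc' : IsCoprime (p : ℤ) u :=
    (Int.prime_iff_natAbs_prime.mpr (by simpa using hp)).coprime_iff_not_dvd.mpr hu
  obtain ⟨a, b, hab⟩ := hc'
  obtain ⟨e, he, f, hf⟩ := hs (b * c)
  obtain ⟨g, hg⟩ := hd
  refine ⟨v + w * e, hv.add (hw.mul he), c * a + g * e + u * f, ?_⟩
  push_cast at hc ⊢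
  have h1 : w = p ^ j * u - p ^ (j + 1) * g := by linarith
  have h2 : e = b * c - p * f := by linarith
  have h3 : r = v + p ^ j * c := by linarith
  rw [h3, h1]
  linear_combination (-(p : ℤ) ^ j * c) * hab + (-(p : ℤ) ^ j * u) * h2

lemma u_lift (hk : k ≠ 0) (hp : p.Prime) (hs1 : 1 ≤ s) (hs : Full k s p) (j : ℕ) :
    Full k ((7 * s) ^ j) (p ^ j) := by
  induction j with
  | zero => intro r; exact ⟨0, u_ns_zero _ _, by simp⟩
  | succ j ih =>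
    have h1 : 1 ≤ (7 * s) ^ j := Nat.one_le_pow _ _ (by omega)
    refine (u_lift_step hk hp h1 ih hs).mono hk ?_
    rw [pow_succ]
    nlinarith

lemma u_hensel (hp : p.Prime) {τ k' : ℕ} (hk' : ¬ p ∣ k') (c : ℤ)
    (hc : (p : ℤ) ^ (2 * τ + 1) ∣ c - 1) (a : ℕ) :
    ∃ z : ℤ, ¬ (p : ℤ) ∣ z ∧ (p : ℤ) ^ (2 * τ + 1 + a) ∣ c - z ^ (p ^ τ * k') := by
  have hP : Prime (p : ℤ) := Int.prime_iff_natAbs_prime.mpr (by simpa using hp)
  induction a with
  | zero => exact ⟨1, hP.not_dvd_one, by simpa using hc⟩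
  | succ a ih =>
    obtain ⟨z, hz, e, he⟩ := ih
    set K := p ^ τ * k' with hK
    have h1 : ¬ (p : ℤ) ∣ z ^ (K - 1) * k' := fun h => by
      rcases hP.dvd_or_dvd h with h | h
      · exact hz (hP.dvd_of_dvd_pow h)
      · exact hk' (by exact_mod_cast h)
    obtain ⟨u, v, huv⟩ : IsCoprime (p : ℤ) (z ^ (K - 1) * k') := hP.coprime_iff_not_dvd.mpr h1
    set y : ℤ := p ^ (τ + 1 + a) * (v * e) with hy
    obtain ⟨f, hf⟩ := sq_dvd_add_pow_sub_sub y z K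
    refine ⟨z + y, fun h => hz ?_, e * u - p ^ a * (v * e) ^ 2 * f, ?_⟩
    · have : (p : ℤ) ∣ y := Dvd.dvd.mul_right (dvd_pow_self _ (by omega)) _
      exact (dvd_add_left this).mp h
    · have h2 : (z + y) ^ K = z ^ K + z ^ (K - 1) * y * K + y ^ 2 * f := by linarith
      have h3 : (K : ℤ) = p ^ τ * k' := by rw [hK]; push_cast; ring
      have h4 : c = z ^ K + p ^ (2 * τ + 1 + a) * e := by linarith
      rw [h2, h4, h3, hy]
      linear_combination (-(p : ℤ) ^ (2 * τ + 1 + a) * e) * huv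

lemma u_all_pow (hk : k ≠ 0) (hp : p.Prime) (h : Full k m (p ^ (2 * k.factorization p + 1)))
    (a : ℕ) : Full k (m + 1) (p ^ a) := by
  set τ := k.factorization p with hτ
  refine Full.of_dvd (q := p ^ (2 * τ + 1 + a)) (fun r => ?_) (pow_dvd_pow _ (by omega))
  obtain ⟨v, hv, hd⟩ := h (r - 1)
  have e : k = p ^ τ * (k / p ^ τ) := (Nat.ordProj_mul_ordCompl_eq_self k p).symm
  obtain ⟨z, _, hz⟩ := u_hensel hp (τ := τ) (Nat.not_dvd_ordCompl hp hk) (r - v) (by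
    have : r - v - 1 = r - 1 - v := by ring
    rw [this]; exact_mod_cast hd) a
  rw [← e] at hz
  refine ⟨v + z ^ k, hv.add (u_ns_one hk z), ?_⟩
  rw [← sub_sub]; exact_mod_cast hz

lemma u_crt_int {a b : ℤ} (h : IsCoprime a b) (x y : ℤ) : ∃ z, a ∣ x - z ∧ b ∣ y - z := by
  obtain ⟨u, v, huv⟩ := h
  exact ⟨x * v * b + y * u * a, ⟨(x - y) * u, by linear_combination (-x) * huv⟩,
    ⟨(y - x) * v, by linear_combination (-y) * huv⟩⟩

lemma u_crt_pw {a b x y : ℤ} (h : IsCoprime a b) (hx : Pw k m x) (hy : Pw k m y) :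
    ∃ z, Pw k m z ∧ a ∣ x - z ∧ b ∣ y - z := by
  obtain ⟨x, rfl⟩ := hx
  obtain ⟨y, rfl⟩ := hy
  choose z h1 h2 using fun i => u_crt_int h (x i) (y i)
  refine ⟨_, ⟨z, rfl⟩, ?_, ?_⟩ <;> rw [← sum_sub_distrib] <;> refine dvd_sum fun i _ => ?_
  · exact (h1 i).trans (sub_dvd_pow_sub_pow _ _ _)
  · exact (h2 i).trans (sub_dvd_pow_sub_pow _ _ _)

lemma u_crt {a b : ℕ} (h : Nat.Coprime a b) (ha : Full k m a) (hb : Full k m b) :
    Full k m (a * b) := fun r => by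
  have h' : IsCoprime (a : ℤ) b := Nat.isCoprime_iff_coprime.mpr h
  obtain ⟨_, ⟨x1, x2, h1, h2, rfl⟩, h3⟩ := ha r
  obtain ⟨_, ⟨y1, y2, h4, h5, rfl⟩, h6⟩ := hb r
  obtain ⟨z1, h7, h8, h9⟩ := u_crt_pw h' h1 h4
  obtain ⟨z2, h10, h11, h12⟩ := u_crt_pw h' h2 h5
  refine ⟨_, ⟨z1, z2, h7, h10, rfl⟩, ?_⟩
  push_cast
  refine h'.mul_dvd ?_ ?_
  · have e : r - (z1 - z2) = r - (x1 - x2) + (x1 - z1) - (x2 - z2) := by ring
    rw [e]; exact dvd_sub (dvd_add h3 h8) h11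
  · have e : r - (z1 - z2) = r - (y1 - y2) + (y1 - z1) - (y2 - z2) := by ring
    rw [e]; exact dvd_sub (dvd_add h6 h9) h12

lemma u_all (h : ∀ p a : ℕ, p.Prime → Full k m (p ^ a)) {q : ℕ} (hq : 0 < q) : Full k m q := by
  induction q using Nat.recOnPosPrimePosCoprime with
  | prime_pow p a hp _ => exact h p a hp
  | zero => omega
  | one => simpa using h 2 0 Nat.prime_two
  | coprime a b ha hb hab iha ihb => exact u_crt hab (iha (by omega)) (ihb (by omega))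

lemma u_signed {q : ℕ} (hq : 0 < q) (h : Full k m q) (n : ℤ) :
    ∃ (y : Fin (m + m) → ℕ) (s : Fin (m + m) → ℤ), (∀ i, s i = 1 ∨ s i = -1) ∧
      (q : ℤ) ∣ n - ∑ i, s i * (y i : ℤ) ^ k := by
  obtain ⟨_, ⟨_, _, ⟨x, rfl⟩, ⟨z, rfl⟩, rfl⟩, hd⟩ := h n
  have hq' : (q : ℤ) ≠ 0 := by exact_mod_cast hq.ne'
  have h1 : ∀ c : ℤ, (q : ℤ) ∣ c ^ k - (((c % q).toNat : ℕ) : ℤ) ^ k := fun c => by
    rw [Int.toNat_of_nonneg (Int.emod_nonneg _ hq')]
    exact Int.dvd_self_sub_emod.trans (sub_dvd_pow_sub_pow _ _ _)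
  refine ⟨Fin.append (fun i => (x i % q).toNat) (fun i => (z i % q).toNat),
    Fin.append (fun _ => 1) (fun _ => -1), fun i => ?_, ?_⟩
  · refine Fin.addCases (fun i => ?_) (fun i => ?_) i
    · left; rw [Fin.append_left]
    · right; rw [Fin.append_right]
  · rw [Fin.sum_univ_add]
    simp only [Fin.append_left, Fin.append_right, one_mul, neg_mul, sum_neg_distrib]
    have h2 := dvd_sum (s := univ) fun i _ => h1 (x i)
    have h3 := dvd_sum (s := univ) fun i _ => h1 (z i)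
    rw [sum_sub_distrib] at h2 h3
    have := dvd_sub (dvd_add hd h2) h3
    refine this.trans (dvd_of_eq ?_)
    ring

end Pool.Agent.Lib.MP_143a03_nt.NO
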