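import Pool.Agent.Lib.MP_143a03_nt.NO.ULat
import Pool.Agent.Lib.MP_143a03_nt.NO.ULift
import Pool.Agent.Lib.MP_143a03_nt.NO.UCnt

/-!
Exponents without a bad prime need few terms for every modulus.
-/

open Finset Real

namespace Pool.Agent.Lib.MP_143a03_nt.NO

lemma u_exp_big {A : ℝ} (hA : 10 ≤ A) : 1024 ≤ exp A := by
  have h1 : (2 : ℝ) ≤ exp (A / 10) := by linarith [add_one_le_exp (A / 10)]
  calc (1024 : ℝ) = 2 ^ 10 := by norm_num
    _ ≤ exp (A / 10) ^ 10 := by gcongr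
    _ = _ := by rw [← exp_nat_mul]; congr 1; push_cast; ring

lemma u_local {A L : ℝ} {k p : ℕ} (hk : k ≠ 0) (hkL : log k ≤ L) (hA : 10 ≤ A) (hL : 3 ≤ L)
    (hLA : 2 * L ≤ A ^ 2) (hb : ¬ uBad A L k) (hp : p.Prime) :
    ∃ s : ℕ, 1 ≤ s ∧ (s : ℝ) ≤ exp (7 * A) ∧ Full k s p := by
  have hp0 : (0 : ℝ) < p := by exact_mod_cast hp.pos
  rcases le_or_gt (log p) (3 * A) with h1 | h1
  · exact ⟨p, hp.pos, (log_le_iff_le_exp hp0).mp (by linarith), u_full_self hk hp.pos⟩
  have := Fact.mk hp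
  have hE := u_exp_big hA
  have hp2 : p ≠ 2 := by
    rintro rfl
    push_cast at h1
    linarith [log_two_lt_d9]
  have hp3 := hp.two_le
  have hgr := @u_growth p _ k hk hp2 ⌈A⌉₊
  have hla := @u_lattice p k ⌊exp A⌋₊ _ hk (Nat.le_floor (by push_cast; linarith))
  simp only [uBad, not_exists, not_and, not_lt] at hb
  have hb' := hb p hp h1
  have ht := Nat.div_mul_cancel (Nat.gcd_dvd_left (p - 1) k)
  have hD : Nat.gcd (p - 1) k ≤ k := Nat.gcd_le_right _ (by omega)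
  have hD0 : 0 < Nat.gcd (p - 1) k := Nat.gcd_pos_of_pos_right _ (by omega)
  set D := Nat.gcd (p - 1) k
  set t := (p - 1) / D
  have ht0 : 1 ≤ t := Nat.pos_of_ne_zero (by intro h; rw [h] at ht; omega)
  have ht' : (1 : ℝ) ≤ t := by exact_mod_cast ht0
  by_cases hc : 2 ≤ t ∧ (p : ℝ) ≤ ((t : ℝ) / 2) ^ ⌈A⌉₊
  · refine ⟨_, Nat.pos_of_ne_zero (by positivity), ?_, hgr hc.1 hc.2⟩
    have h2 : (⌈A⌉₊ : ℝ) ≤ A + 1 := (Nat.ceil_lt_add_one (by linarith)).le
    have h3 : (12 : ℝ) ≤ exp 3 := by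
      have : (2.5 : ℝ) ≤ exp 1 := by linarith [exp_one_gt_d9]
      calc (12 : ℝ) ≤ 2.5 ^ 3 := by norm_num
        _ ≤ exp 1 ^ 3 := by gcongr
        _ = _ := by rw [← exp_nat_mul]; norm_num
    push_cast
    calc _ ≤ exp A * exp 3 ^ ⌈A⌉₊ := by gcongr; linarith
      _ ≤ _ := by rw [← exp_nat_mul, ← exp_add]; exact exp_le_exp.mpr (by linarith)
  have hu : A * log (t / 2) < log p := by
    rcases lt_or_ge t 2 with h2 | h2
    · have : log ((t : ℝ) / 2) ≤ 0 := log_nonpos (by positivity) (by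
        have : (t : ℝ) ≤ 2 := by exact_mod_cast h2.le
        linarith)
      nlinarith
    · have h3 := log_lt_log (by positivity) (not_le.mp fun h => hc ⟨h2, h⟩)
      have h4 : 0 ≤ log ((t : ℝ) / 2) := log_nonneg (by
        have : (2 : ℝ) ≤ t := by exact_mod_cast h2
        linarith)
      rw [log_pow] at h3
      exact lt_of_le_of_lt (mul_le_mul_of_nonneg_right (Nat.le_ceil A) h4) h3
  have hv : log p ≤ log (t / 2) + 2 + L := by
    have h5 : p ≤ 2 * t * k := by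
      have h6 : t * D ≤ t * k := by gcongr
      have : 1 ≤ t * D := Nat.mul_pos ht0 hD0
      have : 2 * t * k = 2 * (t * k) := by ring
      omega
    have h6 : (p : ℝ) ≤ 2 * t * k := by exact_mod_cast h5
    have hk' : (0 : ℝ) < k := by positivity
    calc log p ≤ log (t / 2 * 2 ^ 2 * k) := log_le_log hp0 (by linarith)
      _ ≤ _ := by
          rw [log_mul (by positivity) hk'.ne', log_mul (by positivity) (by positivity), log_pow]
          push_cast
          linarith [log_two_lt_d9]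
  have hw : log p ≤ 2 * L := by
    rcases le_or_gt (log ((t : ℝ) / 2)) 0 with h | h <;> nlinarith
  have hx : (t : ℝ) ≤ 2 * exp A := by
    have : log ((t : ℝ) / 2) ≤ A := by
      by_contra h
      nlinarith
    have := (log_le_iff_le_exp (by positivity)).mp this
    linarith
  have hr := Nat.floor_le (exp_pos A).le
  have hr1 : 1 ≤ ⌊exp A⌋₊ := Nat.le_floor (by push_cast; linarith)
  refine ⟨_, Nat.pos_of_ne_zero (by positivity), ?_, hla ?_⟩
  · push_cast
    calc _ ≤ 16 * (2 * exp A) ^ 5 * exp A := by gcongr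
      _ = 512 * exp A ^ 6 := by ring
      _ ≤ exp A * exp A ^ 6 := by gcongr; linarith
      _ = _ := by rw [← pow_succ', ← exp_nat_mul]; norm_num
  · have h7 : (p : ℝ) < ((⌊exp A⌋₊ : ℝ) + 1) ^ t.totient := by
      calc (p : ℝ) ≤ exp (t.totient * A) := (log_le_iff_le_exp hp0).mp (by linarith [hb' hw])
        _ = exp A ^ t.totient := exp_nat_mul _ _
        _ < _ := pow_lt_pow_left₀ (Nat.lt_floor_add_one _) (exp_pos A).le
            (Nat.totient_pos.mpr ht0).ne'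
    exact_mod_cast h7

/-- At most `exp B` signed `k`-th powers suffice for every modulus. -/
def uGood (B : ℝ) (k : ℕ) : Prop := ∃ m : ℕ, (m : ℝ) ≤ exp B ∧ ∀ q : ℕ, 0 < q → ∀ n : ℤ,
  ∃ (y : Fin m → ℕ) (s : Fin m → ℤ), (∀ i, s i = 1 ∨ s i = -1) ∧
    (q : ℤ) ∣ n - ∑ i, s i * (y i : ℤ) ^ k

theorem u_good {A L : ℝ} {k w : ℕ} (hk : k ≠ 0) (hkL : log k ≤ L) (hA : 10 ≤ A) (hL : 3 ≤ L)
    (hLA : 2 * L ≤ A ^ 2) (hb : ¬ uBad A L k) (hs : uSq w k)
    (hw : (w : ℝ) ^ (2 * w + 1) ≤ exp A) : uGood (23 * A) k := by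
  have hE := u_exp_big hA
  have e1 : exp (22 * A) = exp A * exp (7 * A) ^ 3 := by
    rw [← exp_nat_mul, ← exp_add]; congr 1; push_cast; ring
  have e2 : exp A ≤ exp (7 * A) := exp_le_exp.mpr (by linarith)
  have e3 : exp (7 * A) ≤ exp (7 * A) ^ 3 := le_self_pow₀ (by linarith) (by norm_num)
  have h : ∀ p a : ℕ, p.Prime → Full k ⌊exp (22 * A)⌋₊ (p ^ a) := fun p a hp => by
    rcases hs.fact hk hp with h1 | h1
    · obtain ⟨s, s1, s2, s3⟩ := u_local hk hkL hA hL hLA hb hp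
      refine (u_all_pow hk hp ((u_lift hk hp s1 s3 3).of_dvd (pow_dvd_pow _ (by omega))) a).mono hk
        (Nat.le_floor ?_)
      push_cast
      have : (7 * (s : ℝ)) ^ 3 ≤ (7 * exp (7 * A)) ^ 3 := by gcongr
      rw [mul_pow 7 (exp _)] at this
      nlinarith
    · refine (u_all_pow hk hp (u_full_self hk (pow_pos hp.pos _)) a).mono hk (Nat.le_floor ?_)
      have h2 : p ^ (2 * k.factorization p + 1) ≤ w ^ (2 * w + 1) :=
        (Nat.pow_le_pow_left h1.1 _).trans (Nat.pow_le_pow_right (by omega) (by omega))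
      have h3 : (p : ℝ) ^ (2 * k.factorization p + 1) ≤ (w : ℝ) ^ (2 * w + 1) := by
        exact_mod_cast h2
      push_cast
      nlinarith
  refine ⟨_, ?_, fun q hq n => u_signed hq (u_all h hq) n⟩
  have h1 := Nat.floor_le (exp_pos (22 * A)).le
  have e4 : exp (23 * A) = exp A * exp (22 * A) := by rw [← exp_add]; congr 1; ring
  push_cast
  nlinarith [exp_pos (22 * A)]

end Pool.Agent.Lib.MP_143a03_nt.NO
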