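import Pool.Agent.Lib.MP_143a03_nt.NO.ULoc

/-!
The upper half: for almost all `k`, at most `exp ((log k) ^ (log 2 + e))` signed `k`-th powers
suffice for every modulus.
-/

open Finset Real Filter Topology
open scoped ArithmeticFunction.Omega

namespace Pool.Agent.Lib.MP_143a03_nt.NO

open Pool.Agent.Lib.MP_778b46_nt

lemma uGood.mono {B B' : ℝ} {k : ℕ} (h : uGood B k) (hB : B ≤ B') : uGood B' k := by
  obtain ⟨m, h1, h2⟩ := h
  exact ⟨m, h1.trans (exp_le_exp.mpr hB), h2⟩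

open Classical in
lemma u_bound : ∃ C : ℝ, 0 < C ∧ ∀ (e u : ℝ) (w x : ℕ), 0 < e → 1 ≤ w → 2 ≤ x →
    u = log (log x) → 40 ≤ u → (w : ℝ) ^ (2 * w + 1) ≤ u → 160 * (2 + e / 4) ≤ u →
    C + w * w ≤ e / 8 * u → C ≤ u → 2 * w ≤ u → 23 + e ≤ e / 2 * u →
    (((Ioc 0 x).filter fun k : ℕ => ¬ uGood (log k ^ (log 2 + e)) k).card : ℝ) ≤
      x * (4 / w + (384 / e ^ 2 * u⁻¹ +
        C * (exp 1 * (2 + e / 4) ^ 6) * (u ^ 6 * exp (-(e / 4) * u)))) := by
  obtain ⟨C0, hC0⟩ := sum_inv_le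
  obtain ⟨C1, hC1, hcnt⟩ := u_count
  refine ⟨max C0 C1, lt_max_of_lt_right hC1, fun e u w x he hw hx hu a1 a2 a3 a4 a5 a6 a7 => ?_⟩
  have hx' : (1 : ℝ) < x := by exact_mod_cast hx
  have hw' : (0 : ℝ) < w := by exact_mod_cast hw
  have hL : log x = exp u := by rw [hu, exp_log (log_pos hx')]
  have hM : uM x ≤ u + max C0 C1 := by
    have := hC0 x hx
    rw [← hu] at this
    exact this.trans (by gcongr; exact le_max_left _ _)
  have l1 := log_two_gt_d9
  have l2 := log_two_lt_d9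
  set A := exp ((log 2 + e / 2) * u) with hA
  set W := ⌈(1 + e / 4) * u⌉₊ with hW
  have w1 : (1 + e / 4) * u ≤ W := Nat.le_ceil _
  have w2 : (W : ℝ) ≤ (1 + e / 4) * u + 1 := (Nat.ceil_lt_add_one (by positivity)).le
  have w3 : (W : ℝ) ≤ (2 + e / 4) * u := by linarith
  have eu : 0 < e * u := by positivity
  have b0 : u ^ 2 / 5 ≤ A := by
    have h1 : exp (0.69 * u) ≤ A := exp_le_exp.mpr (by nlinarith)
    nlinarith [quadratic_le_exp_of_nonneg (show 0 ≤ 0.69 * u by positivity)]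
  have b1 : 10 ≤ A := by nlinarith
  have b2 : 3 ≤ log x := by rw [hL]; linarith [add_one_le_exp u]
  have b3 : 2 * log x ≤ A ^ 2 := by
    rw [hL, hA, ← exp_nat_mul]
    calc _ ≤ exp 1 * exp u := by gcongr; linarith [add_one_le_exp 1]
      _ ≤ _ := by rw [← exp_add]; exact exp_le_exp.mpr (by push_cast; nlinarith)
  have b4 : (w : ℝ) ^ (2 * w + 1) ≤ exp A := by nlinarith [add_one_le_exp A]
  have b5 : 16 * log x ^ 2 ≤ 2 ^ (4 * W) := by
    rw [hL, ← exp_nat_mul, ← exp_log (show (0 : ℝ) < 2 ^ (4 * W) by positivity), log_pow]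
    calc _ ≤ exp 15 * exp ((2 : ℕ) * u) := by gcongr; linarith [add_one_le_exp 15]
      _ ≤ _ := by rw [← exp_add]; exact exp_le_exp.mpr (by push_cast; nlinarith)
  have b6 : 32 * log x ^ 2 ≤ exp A := by
    rw [hL, ← exp_nat_mul]
    calc _ ≤ exp 31 * exp ((2 : ℕ) * u) := by gcongr; linarith [add_one_le_exp 31]
      _ ≤ _ := by rw [← exp_add]; exact exp_le_exp.mpr (by push_cast; nlinarith)
  have b7 : 32 * (W : ℝ) ≤ A := by nlinarith
  have b8 : 1 ≤ W := by
    have : (1 : ℝ) ≤ W := by nlinarith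
    exact_mod_cast this
  have hs : ((Ioc 0 x).filter fun k : ℕ => ¬ uGood (log k ^ (log 2 + e)) k) ⊆
      (Ioc 0 (x / w) ∪ (Ioc 0 x).filter fun k : ℕ => ¬ uSq w k) ∪
      (((Ioc 0 x).filter fun k : ℕ => uM x + e / 8 * u < k.primeFactors.card) ∪
        (Ioc 0 x).filter fun k : ℕ => Ω k ≤ W ∧ uBad A (log x) k) := fun k hk => by
    obtain ⟨k1, k2⟩ := mem_filter.mp hk
    have k3 := mem_Ioc.mp k1
    by_contra hc
    simp only [mem_union, mem_filter, k1, true_and, not_or, not_not, not_lt, not_and, mem_Ioc,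
      k3.1, not_le] at hc
    obtain ⟨⟨c1, c2⟩, c3, c4⟩ := hc
    have hk' : (0 : ℝ) < k := by exact_mod_cast k3.1
    have hO : Ω k ≤ W := by
      have h1 : (Ω k : ℝ) ≤ k.primeFactors.card + w * w := by exact_mod_cast c2.Om_le k3.1.ne'
      have h2 : (Ω k : ℝ) ≤ W := by linarith
      exact_mod_cast h2
    refine k2 ((u_good k3.1.ne' (log_le_log hk' (by exact_mod_cast k3.2)) b1 b2 b3 (c4 hO) c2
      b4).mono ?_)
    have h1 : (x : ℝ) ≤ k * w := by exact_mod_cast ((Nat.div_lt_iff_lt_mul (by omega)).mp c1).le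
    have h2 := log_le_log (by positivity) h1
    rw [log_mul hk'.ne' hw'.ne', hL] at h2
    have h3 : exp u / 2 ≤ log k := by linarith [log_le_sub_one_of_pos hw', add_one_le_exp u]
    calc 23 * A ≤ exp 22 * A := by gcongr; linarith [add_one_le_exp 22]
      _ ≤ (exp u / 2) ^ (log 2 + e) := by
          rw [rpow_def_of_pos (by positivity), log_div (exp_pos u).ne' two_ne_zero, log_exp, hA,
            ← exp_add]
          exact exp_le_exp.mpr (by nlinarith)
      _ ≤ _ := by gcongr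
  have h1 := (Nat.cast_le (α := ℝ)).mpr ((card_le_card hs).trans ((card_union_le _ _).trans
    (add_le_add (card_union_le _ _) (card_union_le _ _))))
  push_cast at h1
  have d1 : ((Ioc 0 (x / w)).card : ℝ) ≤ x / w := by simpa using Nat.cast_div_le (α := ℝ)
  have d2 := u_sq_count x hw
  have d3 := (u_tail x (show 0 < e / 8 * u by positivity)).trans
    (show _ ≤ 3 * x * (2 * u) / (e / 8 * u) ^ 2 by gcongr; linarith)
  have d4 := (hcnt x W A b8 b5 b6 b7).trans (show _ ≤ max C0 C1 * x *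
      (exp 1 * exp ((log 2 + e / 4) * u) * ((2 + e / 4) * u) ^ 6 / A) by
    gcongr
    · exact le_max_right _ _
    · rw [← exp_add, ← exp_log (show (0 : ℝ) < 2 ^ W by positivity), log_pow]
      exact exp_le_exp.mpr (by nlinarith))
  have e1 : exp ((log 2 + e / 4) * u) = A * exp (-(e / 4) * u) := by
    rw [hA, ← exp_add]; congr 1; ring
  have hA0 : 0 < A := by linarith
  have hu0 : 0 < u := by linarith
  rw [e1] at d4
  refine h1.trans ((add_le_add (add_le_add d1 d2) (add_le_add d3 d4)).trans (le_of_eq ?_))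
  field_simp
  ring

open Classical in
theorem u_upper' (e : ℝ) (he : 0 < e) : Tendsto (fun x : ℕ =>
    (((Ioc 0 x).filter fun k : ℕ => ¬ uGood (log k ^ (log 2 + e)) k).card : ℝ) / x)
    atTop (𝓝 0) := by
  obtain ⟨C, hC, h⟩ := u_bound
  have hu : Tendsto (fun x : ℕ => log (log x)) atTop atTop :=
    tendsto_log_atTop.comp (tendsto_log_atTop.comp tendsto_natCast_atTop_atTop)
  have hg : Tendsto (fun u : ℝ => 384 / e ^ 2 * u⁻¹ +
      C * (exp 1 * (2 + e / 4) ^ 6) * (u ^ 6 * exp (-(e / 4) * u))) atTop (𝓝 0) := by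
    have h1 := (tendsto_inv_atTop_zero (𝕜 := ℝ)).const_mul (384 / e ^ 2)
    have h2 := (tendsto_rpow_mul_exp_neg_mul_atTop_nhds_zero 6 (e / 4) (by positivity)).const_mul
      (C * (exp 1 * (2 + e / 4) ^ 6))
    simpa using h1.add h2
  refine tendsto_order.mpr ⟨fun a ha => Eventually.of_forall fun x => ha.trans_le (by positivity),
    fun a ha => ?_⟩
  obtain ⟨w, hw⟩ := exists_nat_gt (8 / a)
  have hw0 : (0 : ℝ) < w := lt_trans (by positivity) hw
  have hw1 : 4 / (w : ℝ) < a / 2 := by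
    rw [div_lt_iff₀ ha] at hw
    rw [div_lt_iff₀ hw0]; linarith
  filter_upwards [eventually_ge_atTop 2, (hg.comp hu).eventually (gt_mem_nhds (half_pos ha)),
    hu.eventually_ge_atTop 40, hu.eventually_ge_atTop ((w : ℝ) ^ (2 * w + 1)),
    hu.eventually_ge_atTop (160 * (2 + e / 4)),
    (hu.const_mul_atTop (show 0 < e / 8 by positivity)).eventually_ge_atTop (C + w * w),
    hu.eventually_ge_atTop C, hu.eventually_ge_atTop (2 * w),
    (hu.const_mul_atTop (half_pos he)).eventually_ge_atTop (23 + e)] with x hx g a1 a2 a3 a4 a5 a6 a7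
  have hx0 : (0 : ℝ) < x := by exact_mod_cast (by omega : 0 < x)
  rw [div_lt_iff₀' hx0]
  refine (h e _ w x he (by exact_mod_cast hw0) hx rfl a1 a2 a3 a4 a5 a6 a7).trans_lt ?_
  gcongr
  simp only [Function.comp] at g
  linarith

open Classical in
theorem u_upper (e : ℝ) (he : 0 < e) : Tendsto (fun x : ℕ =>
    (((Icc 1 x).filter fun k : ℕ => ¬ ∃ m : ℕ, (m : ℝ) ≤ exp (log k ^ (log 2 + e)) ∧
      ∀ q : ℕ, 0 < q → ∀ n : ℤ, ∃ (y : Fin m → ℕ) (s : Fin m → ℤ), (∀ i, s i = 1 ∨ s i = -1) ∧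
        (q : ℤ) ∣ n - ∑ i, s i * (y i : ℤ) ^ k).card : ℝ) / x) atTop (𝓝 0) := by
  convert u_upper' e he using 5
  ext k
  simp only [mem_filter, mem_Icc, mem_Ioc, uGood, Nat.succ_le_iff]

end Pool.Agent.Lib.MP_143a03_nt.NO
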