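import Pool.Agent.Lib.MP_b09490_nt.No.Exc

/-!
Elementary facts on the number of prime factors.
-/

open Finset Real ArithmeticFunction
open scoped ArithmeticFunction.Omega

namespace Pool.Agent.Lib.MP_143a03_nt.NO

open Pool.Agent.Lib.MP_778b46_nt Pool.Agent.Lib.MP_b09490_nt.No

lemma u_sq_le (w : ℕ) : w ^ 2 ≤ 2 * 2 ^ w := by
  induction w with
  | zero => simp
  | succ w ih =>
    have := Nat.lt_two_pow_self (n := w)
    rw [pow_succ 2]; nlinarith

lemma u_mert_le (S : Finset ℕ) (hS : ∀ l ∈ S, 2 ≤ l) : mert S ≤ S.card + 1 := by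
  induction S using Finset.induction_on_max with
  | empty => simp [mert]
  | insert a s hs ih =>
    have ha : a ∉ s := fun h => lt_irrefl _ (hs a h)
    have h1 := ih fun l hl => hS l (mem_insert_of_mem hl)
    have h2 : s.card ≤ a - 2 := by
      simpa using card_le_card (s := s) (t := Ico 2 a) fun l hl =>
        mem_Ico.mpr ⟨hS l (mem_insert_of_mem hl), hs l hl⟩
    have h3 := hS a (mem_insert_self _ _)
    have h4 : (s.card : ℝ) + 1 ≤ a - 1 := by
      have : s.card + 2 ≤ a := by omega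
      have : (s.card : ℝ) + 2 ≤ a := by exact_mod_cast this
      linarith
    have h5 : uu a ≤ 1 / (s.card + 1) := one_div_le_one_div_of_le (by positivity) h4
    have h6 : 0 ≤ uu a := by
      have : (0 : ℝ) ≤ s.card := by positivity
      exact one_div_nonneg.mpr (by linarith)
    rw [mert, prod_insert ha, card_insert_of_notMem ha]
    calc _ ≤ (1 + 1 / (s.card + 1)) * ((s.card : ℝ) + 1) := by
          refine mul_le_mul (by linarith) h1 (prod_nonneg fun l hl => ?_) (by positivity)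
          have : (2 : ℝ) ≤ l := by exact_mod_cast hS l (mem_insert_of_mem hl)
          have : 0 ≤ uu l := one_div_nonneg.mpr (by linarith)
          linarith
      _ = _ := by push_cast; field_simp

lemma u_tot (t : ℕ) : t ≤ t.totient * (t.primeFactors.card + 1) := by
  have h1 := u_mert_le t.primeFactors fun l hl => (Nat.prime_of_mem_primeFactors hl).two_le
  have h2 : (t.totient : ℝ) = t * ∏ p ∈ t.primeFactors, (1 - (p : ℝ)⁻¹) := by
    have := congrArg (fun x : ℚ => (x : ℝ)) (Nat.totient_eq_mul_prod_factors t)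
    simpa using this
  have h3 : (t.totient : ℝ) * mert t.primeFactors = t := by
    rw [h2, mert, mul_assoc, ← prod_mul_distrib, prod_eq_one, mul_one]
    intro l hl
    have : (2 : ℝ) ≤ l := by exact_mod_cast (Nat.prime_of_mem_primeFactors hl).two_le
    have h4 : (l : ℝ) - 1 ≠ 0 := by linarith
    unfold uu
    field_simp
    ring
  have h4 : (t : ℝ) ≤ t.totient * (t.primeFactors.card + 1) := by
    calc (t : ℝ) = _ := h3.symm
      _ ≤ _ := by gcongr
  exact_mod_cast h4

lemma u_gw_le (a : ℕ) : gw a ≤ (a.primeFactors.card + 1) ^ 3 := by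
  have h1 := u_mert_le a.primeFactors fun l hl => (Nat.prime_of_mem_primeFactors hl).two_le
  have h2 := one_le_mert (P := a.primeFactors) fun l hl => Nat.prime_of_mem_primeFactors hl
  calc gw a ≤ mert a.primeFactors ^ 3 := by
        rw [gw, mert, ← prod_pow]
        refine prod_le_prod (fun l hl => ?_) fun l hl => ?_ <;>
          have := uu_pos (Nat.prime_of_mem_primeFactors hl)
        · positivity
        · nlinarith [mul_pos this this, mul_pos (mul_pos this this) this]
    _ ≤ _ := by gcongr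

lemma u_om_le (n : ℕ) : n.primeFactors.card ≤ Ω n := List.toFinset_card_le _

lemma u_two_pow {n : ℕ} (hn : n ≠ 0) : 2 ^ Ω n ≤ n := by
  have := List.pow_card_le_prod n.primeFactorsList 2 fun l hl =>
    (Nat.prime_of_mem_primeFactorsList hl).two_le
  rwa [Nat.prod_primeFactorsList hn] at this

lemma u_le_tot_sq {t : ℕ} (ht : t ≠ 0) : t ≤ 4 * t.totient ^ 2 := by
  have h1 := u_tot t
  have h2 := u_sq_le (t.primeFactors.card + 1)
  have h3 : 2 ^ t.primeFactors.card ≤ t :=
    (Nat.pow_le_pow_right (by norm_num) (u_om_le t)).trans (u_two_pow ht)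
  rw [pow_succ 2] at h2
  refine Nat.le_of_mul_le_mul_left (c := t) ?_ (by omega)
  calc t * t ≤ (t.totient * (t.primeFactors.card + 1)) ^ 2 := by rw [← sq]; gcongr
    _ = t.totient ^ 2 * (t.primeFactors.card + 1) ^ 2 := by ring
    _ ≤ t.totient ^ 2 * (4 * t) := by gcongr; omega
    _ = _ := by ring

lemma u_Om_mono {a b : ℕ} (hb : b ≠ 0) (h : a ∣ b) : Ω a ≤ Ω b := by
  obtain ⟨c, rfl⟩ := h
  rw [cardFactors_mul (left_ne_zero_of_mul hb) (right_ne_zero_of_mul hb)]
  omega

lemma u_tau_le {n : ℕ} (hn : n ≠ 0) : n.divisors.card ≤ 2 ^ Ω n := by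
  rw [Nat.card_divisors hn, cardFactors_eq_sum_factorization, Finsupp.sum,
    Nat.support_factorization, ← prod_pow_eq_pow_sum]
  exact prod_le_prod' fun l _ => Nat.lt_two_pow_self

lemma u_big_prime {d : ℕ} (hd : 1 < d) : ∃ q, q.Prime ∧ q ∣ d ∧ d ≤ q ^ Ω d := by
  obtain ⟨q, hq, hm⟩ := exists_max_image d.primeFactors id (Nat.nonempty_primeFactors.mpr hd)
  refine ⟨q, Nat.prime_of_mem_primeFactors hq, Nat.dvd_of_mem_primeFactors hq, ?_⟩
  have := List.prod_le_pow_card d.primeFactorsList q fun l hl => hm l (List.mem_toFinset.mpr hl)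
  rwa [Nat.prod_primeFactorsList (by omega)] at this

/-- The sum of the reciprocals of the primes up to `x`. -/
noncomputable def uM (x : ℕ) : ℝ := ∑ p ∈ Nat.primesLE x, (1 : ℝ) / p

lemma u_cnt (x n : ℕ) : ∑ k ∈ Ioc 0 x, (if n ∣ k then (1 : ℝ) else 0) = (x / n : ℕ) := by
  rw [← sum_filter, sum_const, Nat.Ioc_filter_dvd_card_eq_div, nsmul_eq_mul, mul_one]

theorem u_turan (x : ℕ) :
    ∑ k ∈ Ioc 0 x, ((k.primeFactors.card : ℝ) - uM x) ^ 2 ≤ 3 * x * uM x := by
  set P := Nat.primesLE x with hP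
  have hM : 0 ≤ uM x := sum_nonneg fun _ _ => by positivity
  have e : ∀ k ∈ Ioc 0 x, (k.primeFactors.card : ℝ) = ∑ p ∈ P, if p ∣ k then (1 : ℝ) else 0 :=
    fun k hk => by
      rw [← sum_filter, sum_const, nsmul_eq_mul, mul_one]
      congr 2
      ext p
      have := mem_Ioc.mp hk
      simp only [Nat.mem_primeFactors, mem_filter, hP, Nat.mem_primesLE]
      exact ⟨fun h => ⟨⟨(Nat.le_of_dvd this.1 h.2.1).trans this.2, h.1⟩, h.2.1⟩,
        fun h => ⟨h.1.2, h.2, this.1.ne'⟩⟩
  have h1 : x * uM x - x ≤ ∑ k ∈ Ioc 0 x, (k.primeFactors.card : ℝ) := by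
    rw [sum_congr rfl e, sum_comm, uM, mul_sum]
    simp only [u_cnt]
    have h2 : (P.card : ℝ) ≤ x := by
      have := card_le_card (s := P) (t := Ioc 0 x) fun p hp =>
        mem_Ioc.mpr ⟨(Nat.mem_primesLE.mp hp).2.pos, (Nat.mem_primesLE.mp hp).1⟩
      simpa using (Nat.cast_le (α := ℝ)).mpr this
    have h3 : ∑ p ∈ P, (x : ℝ) * (1 / p) ≤ ∑ p ∈ P, (((x / p : ℕ) : ℝ) + 1) :=
      sum_le_sum fun p hp => by
        rw [mul_one_div, ← Nat.floor_div_eq_div (K := ℝ)]
        exact (Nat.lt_floor_add_one _).le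
    rw [sum_add_distrib, sum_const, nsmul_eq_mul, mul_one] at h3
    linarith
  have h2 : ∑ k ∈ Ioc 0 x, (k.primeFactors.card : ℝ) ^ 2 ≤ x * uM x ^ 2 + x * uM x := by
    have e2 : ∀ k ∈ Ioc 0 x, (k.primeFactors.card : ℝ) ^ 2 ≤
        ∑ p ∈ P, ∑ q ∈ P, ((if p * q ∣ k then (1 : ℝ) else 0) +
          if p = q then (if p ∣ k then (1 : ℝ) else 0) else 0) := fun k hk => by
      rw [e k hk, sq, sum_mul_sum]
      refine sum_le_sum fun p hp => sum_le_sum fun q hq => ?_
      by_cases hpq : p = q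
      · subst hpq
        split_ifs <;> simp_all
      · have hc := (Nat.coprime_primes (Nat.mem_primesLE.mp hp).2 (Nat.mem_primesLE.mp hq).2).mpr hpq
        by_cases h1 : p ∣ k
        · by_cases h2 : q ∣ k
          · simp [h1, h2, hpq, hc.mul_dvd_of_dvd_of_dvd h1 h2]
          · simp only [h2, if_false, mul_zero, hpq, add_zero]; positivity
        · simp only [h1, if_false, zero_mul, hpq, add_zero]; positivity
    refine (sum_le_sum e2).trans ?_
    simp only [sum_add_distrib, sum_ite_eq]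
    refine add_le_add ?_ ?_
    · rw [sum_comm, uM, sq, sum_mul_sum, mul_sum]
      refine sum_le_sum fun p _ => ?_
      rw [sum_comm, mul_sum]
      refine sum_le_sum fun q _ => ?_
      rw [u_cnt]
      refine Nat.cast_div_le.trans (le_of_eq ?_)
      push_cast; ring
    · rw [sum_comm, uM, mul_sum]
      refine sum_le_sum fun p hp => ?_
      simp only [if_pos hp, u_cnt, mul_one_div]
      exact Nat.cast_div_le
  have h3 : ∑ k ∈ Ioc 0 x, ((k.primeFactors.card : ℝ) - uM x) ^ 2 =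
      ∑ k ∈ Ioc 0 x, (k.primeFactors.card : ℝ) ^ 2 -
        2 * uM x * ∑ k ∈ Ioc 0 x, (k.primeFactors.card : ℝ) + x * uM x ^ 2 := by
    simp only [sub_sq, sum_add_distrib, sum_sub_distrib, mul_sum, sum_const, Nat.card_Ioc,
      nsmul_eq_mul, Nat.sub_zero]
    congr 2
    exact sum_congr rfl fun _ _ => by ring
  rw [h3]
  nlinarith [mul_le_mul_of_nonneg_left h1 hM]

lemma u_tail (x : ℕ) {D : ℝ} (hD : 0 < D) :
    (((Ioc 0 x).filter fun k : ℕ => uM x + D < k.primeFactors.card).card : ℝ) ≤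
      3 * x * uM x / D ^ 2 := by
  rw [le_div_iff₀ (by positivity)]
  refine le_trans ?_ (u_turan x)
  refine le_trans ?_ (sum_le_sum_of_subset_of_nonneg (filter_subset
    (fun k : ℕ => uM x + D < k.primeFactors.card) _) fun _ _ _ => sq_nonneg _)
  rw [← nsmul_eq_mul]
  refine card_nsmul_le_sum _ _ _ fun k hk => ?_
  have := (mem_filter.mp hk).2
  nlinarith

/-- No large prime divides `k` twice and no small prime divides `k` to the power `w`. -/
def uSq (w k : ℕ) : Prop := ∀ p : ℕ, p.Prime → (w < p → ¬ p ^ 2 ∣ k) ∧ (p ≤ w → ¬ p ^ w ∣ k)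

open Classical in
lemma u_sq_count (x : ℕ) {w : ℕ} (hw : 1 ≤ w) :
    (((Ioc 0 x).filter fun k : ℕ => ¬ uSq w k).card : ℝ) ≤ 3 * x / w := by
  have hw' : (0 : ℝ) < w := by exact_mod_cast hw
  have h1 : ((Ioc 0 x).filter fun k : ℕ => ¬ uSq w k) ⊆
      ((Ioc w (max w x)).biUnion fun p => (Ioc 0 x).filter fun k => p ^ 2 ∣ k) ∪
      ((Icc 2 w).biUnion fun p => (Ioc 0 x).filter fun k => p ^ w ∣ k) := fun k hk => by
    obtain ⟨hk1, hk2⟩ := mem_filter.mp hk
    have hk3 := mem_Ioc.mp hk1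
    simp only [uSq, not_forall, not_and_or, not_not] at hk2
    obtain ⟨p, hp, ⟨h, h'⟩ | ⟨h, h'⟩⟩ := hk2
    · refine mem_union_left _ (mem_biUnion.mpr ⟨p, mem_Ioc.mpr ⟨h, ?_⟩, mem_filter.mpr ⟨hk1, h'⟩⟩)
      exact le_max_of_le_right
        ((Nat.le_of_dvd hk3.1 ((dvd_pow_self p two_ne_zero).trans h')).trans hk3.2)
    · exact mem_union_right _ (mem_biUnion.mpr ⟨p, mem_Icc.mpr ⟨hp.two_le, h⟩,
        mem_filter.mpr ⟨hk1, h'⟩⟩)
  have h2 := (card_le_card h1).trans ((card_union_le _ _).trans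
    (add_le_add card_biUnion_le card_biUnion_le))
  simp only [Nat.Ioc_filter_dvd_card_eq_div] at h2
  have h3 := (Nat.cast_le (α := ℝ)).mpr h2
  push_cast at h3
  have h4 : ∑ p ∈ Ioc w (max w x), ((x / p ^ 2 : ℕ) : ℝ) ≤ x / w := by
    calc _ ≤ ∑ p ∈ Ioc w (max w x), (x : ℝ) * ((p : ℝ) ^ 2)⁻¹ := sum_le_sum fun p _ =>
          Nat.cast_div_le.trans (le_of_eq (by push_cast; ring))
      _ ≤ x * ((w : ℝ)⁻¹ - ((max w x : ℕ) : ℝ)⁻¹) := by
          rw [← mul_sum]
          gcongr
          exact sum_Ioc_inv_sq_le_sub (by omega) (le_max_left _ _)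
      _ ≤ _ := by
          rw [div_eq_mul_inv]
          gcongr
          exact sub_le_self _ (by positivity)
  have h5 : ∑ p ∈ Icc 2 w, ((x / p ^ w : ℕ) : ℝ) ≤ 2 * x / w := by
    calc _ ≤ (Icc 2 w).card • ((x : ℝ) / 2 ^ w) := sum_le_card_nsmul _ _ _ fun p hp => by
          refine Nat.cast_div_le.trans ?_
          have : (2 : ℝ) ≤ p := by exact_mod_cast (mem_Icc.mp hp).1
          push_cast
          gcongr
      _ ≤ w * ((x : ℝ) / 2 ^ w) := by
          rw [nsmul_eq_mul]
          gcongr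
          simp
      _ ≤ _ := by
          have h6 : (w : ℝ) ^ 2 ≤ 2 * 2 ^ w := by exact_mod_cast u_sq_le w
          rw [← mul_div_assoc, div_le_div_iff₀ (by positivity) hw']
          have : (0 : ℝ) ≤ x := by positivity
          nlinarith
  have e : (3 : ℝ) * x / w = x / w + 2 * x / w := by ring
  linarith

lemma uSq.fact {w k p : ℕ} (h : uSq w k) (hk : k ≠ 0) (hp : p.Prime) :
    k.factorization p ≤ 1 ∨ (p ≤ w ∧ k.factorization p < w) := by
  rcases lt_or_ge w p with h1 | h1
  · left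
    by_contra hc
    exact (h p hp).1 h1 ((hp.pow_dvd_iff_le_factorization hk).mpr (by omega))
  · right
    refine ⟨h1, ?_⟩
    by_contra hc
    exact (h p hp).2 h1 ((hp.pow_dvd_iff_le_factorization hk).mpr (by omega))

lemma uSq.Om_le {w k : ℕ} (h : uSq w k) (hk : k ≠ 0) : Ω k ≤ k.primeFactors.card + w * w := by
  rw [cardFactors_eq_sum_factorization, Finsupp.sum, Nat.support_factorization]
  calc _ ≤ ∑ p ∈ k.primeFactors, (1 + if p ∈ Ioc 0 w then w else 0) := sum_le_sum fun p hp => by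
        have hp' := Nat.prime_of_mem_primeFactors hp
        rcases h.fact hk hp' with h1 | h1
        · omega
        · rw [if_pos (mem_Ioc.mpr ⟨hp'.pos, h1.1⟩)]; omega
    _ ≤ _ := by
        rw [sum_add_distrib, sum_const, smul_eq_mul, mul_one, ← sum_filter, sum_const, smul_eq_mul]
        gcongr
        simpa using card_le_card (s := k.primeFactors.filter fun p => p ∈ Ioc 0 w) (t := Ioc 0 w)
          fun p hp => (mem_filter.mp hp).2

end Pool.Agent.Lib.MP_143a03_nt.NO
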